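import Pool.Agent.Lib_MP_bfd926_ml.MLHecke

/-!
# `T₂` on `Δ ^ c * E₄ ^ a * E₆ ^ e`, `c = 1, 2, 3`

`ap n φ l`: the first `n` coefficients of `φ` are given by the list `l`. `tml`: truncated product.
-/

open PowerSeries MT2

namespace ML

/-- The first `7` coefficients of `φ` are given by the list `l`. -/
def ap (φ : PowerSeries ℤ) (l : List ℤ) : Prop := ∀ i < 7, coeff i φ = l.getD i 0

/-- Sum of the first `n` values. -/
def sm (f : ℕ → ℤ) : ℕ → ℤ
  | 0 => 0
  | (n + 1) => sm f n + f n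

/-- The truncated product. -/
def tml (l m : List ℤ) : List ℤ :=
  (List.range 7).map fun i => sm (fun j => l.getD j 0 * m.getD (i - j) 0) (i + 1)

/-- The truncated power. -/
def tpw (l : List ℤ) : ℕ → List ℤ
  | 0 => [1]
  | (n + 1) => tml (tpw l n) l

theorem sm_eq (f : ℕ → ℤ) (n : ℕ) : sm f n = ∑ i ∈ Finset.range n, f i := by
  induction n with
  | zero => rfl
  | succ n ih => rw [sm, ih, Finset.sum_range_succ]

theorem ap_mul {φ ψ : PowerSeries ℤ} {l m : List ℤ} (h1 : ap φ l) (h2 : ap ψ m) :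
    ap (φ * ψ) (tml l m) := by
  intro i hi
  rw [PowerSeries.coeff_mul, Finset.Nat.sum_antidiagonal_eq_sum_range_succ
    (fun a b => coeff a φ * coeff b ψ)]
  have h3 : (tml l m).getD i 0 = sm (fun j => l.getD j 0 * m.getD (i - j) 0) (i + 1) := by
    unfold tml
    rw [List.getD_eq_getElem?_getD, List.getElem?_map, List.getElem?_range hi]
    rfl
  rw [h3, sm_eq]
  refine Finset.sum_congr rfl fun j hj => ?_
  rw [Finset.mem_range] at hj
  rw [h1 j (by omega), h2 (i - j) (by omega)]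

theorem ap_pow {φ : PowerSeries ℤ} {l : List ℤ} (h : ap φ l) (n : ℕ) : ap (φ ^ n) (tpw l n) := by
  induction n with
  | zero =>
    intro i _
    rw [pow_zero, PowerSeries.coeff_one]
    rcases i with _ | i
    · rfl
    · simp [tpw]
  | succ n ih =>
    rw [pow_succ]
    exact ap_mul ih h

private theorem B_nsq (m n : ℕ) (h : n ^ 2 < m) (h' : m < (n + 1) ^ 2) : ¬ ∃ r : ℕ, r ^ 2 = m := by
  rintro ⟨r, rfl⟩
  have h1 : n < r := by
    by_contra hc
    exact absurd (Nat.pow_le_pow_left (not_lt.mp hc) 2) (not_le.mpr h)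
  have h2 : r < n + 1 := by
    by_contra hc
    exact absurd (Nat.pow_le_pow_left (not_lt.mp hc) 2) (not_le.mpr h')
  omega

private theorem B_thA : ap thA [1, 2, 0, 0, 2, 0, 0] := by
  intro i hi
  rw [thA, PowerSeries.coeff_mk]
  interval_cases i
  · simp
  · rw [if_neg (by norm_num), if_pos ⟨1, by norm_num⟩]
    rfl
  · rw [if_neg (by norm_num), if_neg (B_nsq 2 1 (by norm_num) (by norm_num))]
    rfl
  · rw [if_neg (by norm_num), if_neg (B_nsq 3 1 (by norm_num) (by norm_num))]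
    rfl
  · rw [if_neg (by norm_num), if_pos ⟨2, by norm_num⟩]
    rfl
  · rw [if_neg (by norm_num), if_neg (B_nsq 5 2 (by norm_num) (by norm_num))]
    rfl
  · rw [if_neg (by norm_num), if_neg (B_nsq 6 2 (by norm_num) (by norm_num))]
    rfl

private theorem B_thB : ap thB [1, -2, 0, 0, 2, 0, 0] := by
  intro i hi
  have h := B_thA i hi
  unfold thB evalNegHom
  rw [PowerSeries.coeff_rescale, h]
  interval_cases i <;> rfl

private theorem B_ser4 : ap ser4 [1, 240, 2160, 6720, 17520, 30240, 60480] := by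
  have h1 := ap_pow B_thA 4
  have h2 := ap_pow B_thB 4
  have h3 := ap_pow h1 2
  have h4 := ap_mul h1 h2
  have h5 := ap_pow h2 2
  intro i hi
  have e : coeff i ser4 = 16 * coeff i (al ^ 2) - 16 * coeff i (al * be) + coeff i (be ^ 2) := by
    rw [ser4, map_add, map_sub]
    congr 2
    · rw [← map_ofNat (PowerSeries.C (R := ℤ)) 16, PowerSeries.coeff_C_mul]
    · rw [mul_assoc, ← map_ofNat (PowerSeries.C (R := ℤ)) 16, PowerSeries.coeff_C_mul]
  rw [e]
  have e3 := h3 i hi
  have e4 := h4 i hi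
  have e5 := h5 i hi
  rw [show (thA ^ 4) ^ 2 = al ^ 2 from rfl] at e3
  rw [show thA ^ 4 * thB ^ 4 = al * be from rfl] at e4
  rw [show (thB ^ 4) ^ 2 = be ^ 2 from rfl] at e5
  rw [e3, e4, e5]
  clear e3 e4 e5 e
  revert i
  decide +kernel

private theorem B_ser6 : ap ser6 [1, -504, -16632, -122976, -532728, -1575504, -4058208] := by
  have h1 := ap_pow B_thA 4
  have h2 := ap_pow B_thB 4
  have h3 := ap_pow h1 3
  have h4 := ap_mul (ap_pow h1 2) h2
  have h5 := ap_mul h1 (ap_pow h2 2)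
  have h6 := ap_pow h2 3
  intro i hi
  have e0 : ser6 = PowerSeries.C (-64 : ℤ) * al ^ 3 + PowerSeries.C (96 : ℤ) * (al ^ 2 * be) +
      PowerSeries.C (-30 : ℤ) * (al * be ^ 2) + PowerSeries.C (-1 : ℤ) * be ^ 3 := by
    have c1 : (PowerSeries.C (-64 : ℤ)) = -64 := by
      rw [map_neg, map_ofNat]
    have c2 : (PowerSeries.C (96 : ℤ)) = 96 := map_ofNat _ _
    have c3 : (PowerSeries.C (-30 : ℤ)) = -30 := by rw [map_neg, map_ofNat]
    have c4 : (PowerSeries.C (-1 : ℤ)) = -1 := by rw [map_neg, map_one]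
    rw [c1, c2, c3, c4, ser6]
    ring
  have e : coeff i ser6 = -64 * coeff i (al ^ 3) + 96 * coeff i (al ^ 2 * be) +
      (-30) * coeff i (al * be ^ 2) + (-1) * coeff i (be ^ 3) := by
    rw [e0, map_add, map_add, map_add, PowerSeries.coeff_C_mul, PowerSeries.coeff_C_mul,
      PowerSeries.coeff_C_mul, PowerSeries.coeff_C_mul]
  rw [e]
  have e3 := h3 i hi
  have e4 := h4 i hi
  have e5 := h5 i hi
  have e6 := h6 i hi
  rw [show (thA ^ 4) ^ 3 = al ^ 3 from rfl] at e3
  rw [show (thA ^ 4) ^ 2 * thB ^ 4 = al ^ 2 * be from rfl] at e4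
  rw [show thA ^ 4 * (thB ^ 4) ^ 2 = al * be ^ 2 from rfl] at e5
  rw [show (thB ^ 4) ^ 3 = be ^ 3 from rfl] at e6
  rw [e3, e4, e5, e6]
  clear e3 e4 e5 e6 e
  revert i
  decide +kernel

private theorem B_dlZ : ap dlZ [0, 1, -24, 252, -1472, 4830, -6048] := by
  intro i hi
  have h := congrArg (coeff i) ser_rel
  have e1 : coeff i (1728 * dlZ) = 1728 * coeff i dlZ := by
    rw [← map_ofNat (PowerSeries.C (R := ℤ)) 1728, PowerSeries.coeff_C_mul]
  rw [map_sub, e1, ap_pow B_ser4 3 i hi, ap_pow B_ser6 2 i hi] at h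
  have h2 : ∀ i < 7, (tpw [1, 240, 2160, 6720, 17520, 30240, 60480] 3).getD i 0 -
      (tpw [1, -504, -16632, -122976, -532728, -1575504, -4058208] 2).getD i 0 =
      1728 * ([0, 1, -24, 252, -1472, 4830, -6048] : List ℤ).getD i 0 := by
    decide +kernel
  rw [h2 i hi] at h
  omega

/-- The list of the first coefficients of `bsZ d a e i`. -/
def bL (d a e i : ℕ) : List ℤ :=
  tml (tml (tpw [0, 1, -24, 252, -1472, 4830, -6048] (d - i))
    (tpw [1, 240, 2160, 6720, 17520, 30240, 60480] (a + 3 * i)))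
    (tpw [1, -504, -16632, -122976, -532728, -1575504, -4058208] e)

theorem bL_spec (d a e i : ℕ) : ap (bsZ d a e i) (bL d a e i) :=
  ap_mul (ap_mul (ap_pow B_dlZ _) (ap_pow B_ser4 _)) (ap_pow B_ser6 _)

/-- The coefficients of `T₂ (Δ ^ c * E₄ ^ a * E₆ ^ e)`, `c = 1, 2, 3`. -/
def tbL (c a e : ℕ) : List ℤ :=
  (([[[[-24], [384, 1], [-6144, -72]], [[-528], [8448, 1], [-135168, -576]]],
    [[[216], [-9216, 1], [239616, 168]], [[-288], [-122112, 1], [3981312, -336]]],
    [[[456], [38784, 1], [-2740224, 408]], [[-48], [-195072, 1], [-24158208, -96]]]] :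
      List (List (List (List ℤ)))).getD a []).getD e [] |>.getD (c - 1) []

/-- The polynomial of a list of integers. -/
noncomputable def lp (l : List ℤ) : Polynomial ℤ :=
  ∑ i ∈ Finset.range 3, Polynomial.C (l.getD i 0) * Polynomial.X ^ i

theorem lp_coeff (l : List ℤ) (hl : l.length ≤ 3) (i : ℕ) : (lp l).coeff i = l.getD i 0 := by
  rw [lp, Polynomial.finsetSum_coeff]
  simp only [Polynomial.coeff_C_mul, Polynomial.coeff_X_pow]
  rcases Nat.lt_or_ge i 3 with h | h
  · rw [Finset.sum_eq_single i]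
    · simp
    · intro b _ hb
      rw [if_neg (Ne.symm hb), mul_zero]
    · intro h2
      exact absurd (Finset.mem_range.mpr h) h2
  · rw [List.getD_eq_default _ _ (by omega)]
    refine Finset.sum_eq_zero fun b hb => ?_
    rw [Finset.mem_range] at hb
    rw [if_neg (by omega), mul_zero]

theorem tbL_len : ∀ c < 4, ∀ a < 3, ∀ e < 2, 1 ≤ c → (tbL c a e).length ≤ c := by
  decide +kernel

/-- The coefficients of `T₂ φ` and of the claimed value. -/
theorem tbL_chk : ∀ c < 4, ∀ a < 3, ∀ e < 2, ∀ m ≤ c, 1 ≤ c →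
    (bL c a e 0).getD (2 * m) 0 +
      2 ^ (12 * c + 4 * a + 6 * e - 1) * (if m % 2 = 0 then (bL c a e 0).getD (m / 2) 0 else 0) =
    sm (fun i => (tbL c a e).getD i 0 * (bL c a e i).getD m 0) (c + 1) := by
  decide +kernel

private theorem B_up (φ : PowerSeries ℤ) (m : ℕ) : coeff m (up ℤ φ) = coeff m φ := by
  unfold up
  rw [PowerSeries.coeff_map]
  rfl

private theorem B_ev (d a e : ℕ) (p : Polynomial ℤ) (m : ℕ) :
    coeff m (ev ℤ d a e p) = ∑ i ∈ Finset.range (d + 1), p.coeff i * coeff m (bsZ d a e i) := by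
  rw [ev_apply, map_sum]
  refine Finset.sum_congr rfl fun i _ => ?_
  rw [← B_up (bsZ d a e i) m]
  exact PowerSeries.coeff_smul m (up ℤ (bsZ d a e i)) (p.coeff i)

private theorem B_hk (k : ℕ) (φ : PowerSeries ℤ) (m : ℕ) :
    coeff m (hk ℤ k φ) =
      coeff (2 * m) φ + 2 ^ (k - 1) * (if m % 2 = 0 then coeff (m / 2) φ else 0) := by
  show coeff m (uu φ + (2 : ℤ) ^ (k - 1) • dbl φ) = _
  rw [map_add]
  congr 1
  · unfold uu
    rw [PowerSeries.coeff_mk]
  · have h := PowerSeries.coeff_smul m (dbl φ) ((2 : ℤ) ^ (k - 1))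
    refine h.trans ?_
    rw [smul_eq_mul]
    congr 1
    unfold dbl
    split_ifs with h4
    · obtain ⟨n, hn⟩ : 2 ∣ m := Nat.dvd_of_mod_eq_zero h4
      subst hn
      rw [PowerSeries.coeff_expand_mul, Nat.mul_div_cancel_left _ (by norm_num)]
    · exact PowerSeries.coeff_expand_of_not_dvd 2 two_ne_zero _
        (fun h5 => h4 (Nat.mod_eq_zero_of_dvd h5))

theorem base (c a e : ℕ) (hc1 : 1 ≤ c) (hc : c ≤ 3) (ha : a ≤ 2) (he : e ≤ 1) :
    hk ℤ (wt c a e) (ev ℤ c a e 1) = ev ℤ c a e (lp (tbL c a e)) := by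
  obtain ⟨t, ht, h⟩ := hk_int c a e ha he 0 hc1
  rw [pow_zero] at h
  have hlen := tbL_len c (by omega) a (by omega) e (by omega) hc1
  have hlp : ∀ i, (lp (tbL c a e)).coeff i = (tbL c a e).getD i 0 := lp_coeff _ (by omega)
  have hdeg : (lp (tbL c a e)).natDegree ≤ c := by
    rw [Polynomial.natDegree_le_iff_coeff_eq_zero]
    intro i hi
    rw [hlp, List.getD_eq_default _ _ (by omega)]
  have htd : t.natDegree ≤ c := by
    rcases eq_or_ne t 0 with rfl | h0
    · simp
    · exact (Polynomial.natDegree_lt_iff_degree_lt h0 |>.mpr ht).le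
  rw [h]
  congr 1
  rw [← sub_eq_zero]
  refine ev_inj ℤ c a e _ ((Polynomial.natDegree_sub_le _ _).trans (max_le htd hdeg)) ?_
  intro m hm
  rw [map_sub, map_sub, sub_eq_zero, ← h]
  have e1 : ∀ m, coeff m (ev ℤ c a e 1) = coeff m (bsZ c a e 0) := by
    intro m
    rw [B_ev, Finset.sum_eq_single 0]
    · rw [Polynomial.coeff_one_zero, one_mul]
    · intro b _ hb
      rw [Polynomial.coeff_one, if_neg hb, zero_mul]
    · intro h2
      exact absurd (Finset.mem_range.mpr (by omega)) h2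
  rw [B_hk, e1, e1, bL_spec c a e 0 (2 * m) (by omega), bL_spec c a e 0 (m / 2) (by omega)]
  have h5 := tbL_chk c (by omega) a (by omega) e (by omega) m hm hc1
  have h6 : wt c a e = 12 * c + 4 * a + 6 * e := rfl
  rw [h6, h5, sm_eq, B_ev]
  refine Finset.sum_congr rfl fun i _ => ?_
  rw [hlp, bL_spec c a e i m (by omega)]

end ML
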