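import Pool.Agent.Lib_MP_bfd926_sq.SStr
import Pool.Agent.Lib_MP_bfd926_sq.SGb
import Pool.Agent.Lib_MP_bfd926_sq.SDim

/-!
# Factors of Hecke polynomials of level one, all weights: definitions

The prime is `LL = 1153`, `FL = ZMod 1153`; `LL - 1 = wt 96 0 0`, `LL + 1 = wt 95 2 1`.
Weights are `wt d a e = 12 * d + 4 * a + 6 * e`, `a ≤ 2`, `e ≤ 1` (all even numbers `≥ 4` and `0`);
`d = dim S_k`. `bsZ d a e i = Δ ^ (d - i) * E₄ ^ (a + 3 * i) * E₆ ^ e`, `i ≤ d`, is the basis of `M_k`
(`i < d`: of `S_k`), `ev F d a e p = ∑ i ≤ d, p.coeff i • bsZ d a e i`; it is only used for `p.natDegree ≤ d`.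
`hk F k` is the Hecke operator `T₂` on power series, `th F` is `q d/dq`, `p2Z = th Δ / Δ` is the series of `E₂`.
`nf P` is the number of irreducible factors of the polynomial `P`.
`pm T d` is the matrix of the linear map `T` of `F[X]` on the polynomials of degree `< d`,
`pq T m` is the matrix of `p ↦ T p mod m` on the polynomials of degree `< natDegree m`.
`ssP` (degree 96) and `bbP` (degree 95): `ev FL 96 0 0 ssP = 1`, `ev FL 95 2 1 bbP` is the series of `E₂`. So
multiplication by `ssP` on polynomials is the inclusion of the forms of weight `k` in those of weight `k + 1152`,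
and multiplication by `eb a e` is the multiplication by `E₂` from weight `k = wt d a e` to weight `k + 1154`.
-/

open PowerSeries MT2

namespace ML

/-- The prime. -/
abbrev LL : ℕ := 1153

/-- The field with `1153` elements. -/
abbrev FL : Type := ZMod 1153

instance fact_1153 : Fact (Nat.Prime 1153) := ⟨by norm_num⟩

/-- The weight. -/
def wt (d a e : ℕ) : ℕ := 12 * d + 4 * a + 6 * e

/-- The discriminant `Δ`. -/
noncomputable def dlZ : PowerSeries ℤ := be ^ 6 * ff

/-- `q d/dq`. -/
noncomputable def th (F : Type) [CommRing F] : PowerSeries F →ₗ[F] PowerSeries F where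
  toFun φ := PowerSeries.mk fun n => (n : F) * coeff n φ
  map_add' φ ψ := by ext n; simp [mul_add]
  map_smul' c φ := by ext n; simp; ring

/-- The Eisenstein series `E₂`, defined as the logarithmic derivative of `Δ`: `th dlZ = p2Z * dlZ`. -/
noncomputable def p2Z : PowerSeries ℤ :=
  (PowerSeries.mk fun n => coeff (n + 1) (th ℤ dlZ)) *
    PowerSeries.invOfUnit (PowerSeries.mk fun n => coeff (n + 1) dlZ) 1

/-- The basis of the modular forms of weight `wt d a e`. -/
noncomputable def bsZ (d a e i : ℕ) : PowerSeries ℤ :=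
  dlZ ^ (d - i) * ser4 ^ (a + 3 * i) * ser6 ^ e

/-- The form with the coordinates `p.coeff i`. -/
noncomputable def ev (F : Type) [CommRing F] (d a e : ℕ) : Polynomial F →ₗ[F] PowerSeries F :=
  ∑ i ∈ Finset.range (d + 1), (Polynomial.lcoeff F i).smulRight (up F (bsZ d a e i))

/-- The Hecke operator `T₂` in weight `k` on power series (`k ≥ 1`). -/
noncomputable def hk (F : Type) [CommRing F] (k : ℕ) : PowerSeries F →ₗ[F] PowerSeries F where
  toFun φ := uu φ + (2 : F) ^ (k - 1) • dbl φ
  map_add' φ ψ := by
    have h1 : uu (φ + ψ) = uu φ + uu ψ := by ext n; simp [uu]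
    have h2 : dbl (φ + ψ) = dbl φ + dbl ψ := by simp [dbl]
    rw [h1, h2, smul_add]
    abel
  map_smul' c φ := by
    have h1 : uu (c • φ) = c • uu φ := by ext n; simp [uu]
    have h2 : dbl (c • φ) = c • dbl φ := by simp [dbl]
    rw [h1, h2, smul_add, RingHom.id_apply, smul_comm]

/-- The number of irreducible factors. -/
noncomputable def nf {F : Type} [Field F] (P : Polynomial F) : ℕ :=
  Multiset.card (UniqueFactorizationMonoid.factors P)

/-- The matrix of `T` on the polynomials of degree less than `d`. -/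
noncomputable def pm {F : Type} [Field F] (T : Polynomial F →ₗ[F] Polynomial F) (d : ℕ) :
    Matrix (Fin d) (Fin d) F :=
  Matrix.of fun i j => (T (Polynomial.X ^ (j : ℕ))).coeff (i : ℕ)

/-- The matrix of `T` modulo `m`. -/
noncomputable def pq {F : Type} [Field F] (T : Polynomial F →ₗ[F] Polynomial F) (m : Polynomial F) :
    Matrix (Fin m.natDegree) (Fin m.natDegree) F :=
  Matrix.of fun i j => (T (Polynomial.X ^ (j : ℕ)) %ₘ m).coeff (i : ℕ)

/-- The polynomial with the given list of coefficients. -/
noncomputable def pl : List ℕ → Polynomial FL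
  | [] => 0
  | (a :: l) => Polynomial.C (a : FL) + Polynomial.X * pl l

/-- The coefficients of the supersingular polynomial. -/
def ssL : List ℕ :=
    [7, 56, 384, 886, 1145, 1144, 444, 1002, 982, 409, 96, 473, 1049, 847, 873, 639, 205, 1118, 1142,
    828, 1087, 830, 993, 1144, 986, 997, 561, 81, 965, 24, 409, 468, 1081, 238, 717, 447, 557, 9, 23,
    291, 670, 282, 268, 621, 953, 579, 446, 1126, 1058, 741, 682, 1096, 711, 846, 1082, 739, 533, 175,
    752, 68, 224, 807, 92, 292, 323, 122, 483, 90, 551, 362, 102, 721, 1027, 395, 1020, 73, 827, 684,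
    1087, 830, 1146, 125, 1137, 465, 1096, 963, 561, 255, 1073, 888, 183, 213, 371, 297, 578, 60, 1]

/-- The coefficients of the polynomial of `E₂`. -/
def bbL : List ℕ :=
    [481, 8, 388, 384, 540, 316, 1, 274, 795, 10, 979, 1140, 463, 920, 280, 995, 222, 70, 308, 851, 686,
    732, 178, 823, 680, 224, 275, 906, 872, 344, 7, 1129, 298, 326, 199, 353, 616, 1042, 1019, 87, 769,
    982, 98, 677, 956, 550, 239, 529, 126, 115, 294, 241, 395, 1041, 1132, 407, 212, 70, 282, 140, 765,
    732, 624, 984, 539, 260, 279, 54, 44, 795, 257, 482, 1033, 498, 21, 991, 981, 667, 659, 955, 718,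
    755, 366, 959, 96, 1007, 123, 311, 535, 676, 310, 884, 612, 614, 780, 1]

/-- The polynomial of `1`, weight `LL - 1`. -/
noncomputable def ssP : Polynomial FL := pl ssL

/-- The polynomial of `E₂`, weight `LL + 1`. -/
noncomputable def bbP : Polynomial FL := pl bbL

/-- The multiplication by `E₂` from the weight `wt d a e`. -/
noncomputable def eb (a e : ℕ) : Polynomial FL :=
  bbP * (if a = 0 then 1 else Polynomial.X) * (if e = 0 then 1 else Polynomial.X - Polynomial.C 1728)

end ML
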