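import Pool.Agent.Lib_MP_bfd926_ml.MLRam

/-!
# The derivative of a modular form

`th (Δ ^ m * Q ^ n * R ^ e) = (k / 12) * P * Δ ^ m * Q ^ n * R ^ e - (n / 3) * Δ ^ m * Q ^ (n - 1) * R ^ (e + 1)
- (e / 2) * Δ ^ m * Q ^ (n + 2) * R ^ (e - 1)`, `k = 12 * m + 4 * n + 6 * e` (`th_mul`, `ram_Q`, `ram_R`, `ram_D`,
`th_map`); here `m = d - i`, `n = a + 3 * i`. The six cases
`(d, a, e) → (d2, a2, e2)`: `(d, 0, 0) → (d - 1, 2, 1)` (`d ≥ 1`), `(d, 1, 0) → (d, 0, 1)`, `(d, 2, 0) → (d, 1, 1)`,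
`(d, 0, 1) → (d, 2, 0)`, `(d, 1, 1) → (d + 1, 0, 0)`, `(d, 2, 1) → (d + 1, 1, 0)`; `R ^ 2 = Q ^ 3 - 1728 * Δ`.
-/

open PowerSeries MT2

namespace ML

private theorem MLDer_mono (F : Type) [CommRing F] (d a e k : ℕ) (hk : k ≤ d) (c : F) :
    ev F d a e (Polynomial.monomial k c) = c • up F (bsZ d a e k) := by
  rw [ev_apply, Finset.sum_eq_single k]
  · rw [Polynomial.coeff_monomial, if_pos rfl]
  · intro i _ hne
    rw [Polynomial.coeff_monomial, if_neg (Ne.symm hne), zero_smul]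
  · intro h2
    exact absurd (Finset.mem_range.2 (by omega)) h2

private theorem MLDer_up_mul (F : Type) [CommRing F] (φ ψ : PowerSeries ℤ) :
    up F (φ * ψ) = up F φ * up F ψ := by
  unfold up
  rw [map_mul]

private theorem MLDer_up_pow (F : Type) [CommRing F] (φ : PowerSeries ℤ) (n : ℕ) :
    up F (φ ^ n) = up F φ ^ n := by
  unfold up
  rw [map_pow]

private theorem MLDer_up_sub (F : Type) [CommRing F] (φ ψ : PowerSeries ℤ) :
    up F (φ - ψ) = up F φ - up F ψ := by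
  unfold up
  rw [map_sub]

private theorem MLDer_up_nat (F : Type) [CommRing F] (n : ℕ) [n.AtLeastTwo] :
    up F (OfNat.ofNat n : PowerSeries ℤ) = OfNat.ofNat n := by
  unfold up
  rw [map_ofNat]

private theorem MLDer_up_th (F : Type) [CommRing F] (φ : PowerSeries ℤ) :
    th F (up F φ) = up F (th ℤ φ) :=
  (th_map (Int.castRingHom F) φ).symm

private theorem MLDer_bs (F : Type) [CommRing F] (d a e i : ℕ) :
    up F (bsZ d a e i) = up F dlZ ^ (d - i) * up F ser4 ^ (a + 3 * i) * up F ser6 ^ e := by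
  unfold bsZ
  rw [MLDer_up_mul, MLDer_up_mul, MLDer_up_pow, MLDer_up_pow, MLDer_up_pow]

private theorem MLDer_pow (F : Type) [CommRing F] (φ : PowerSeries F) (n : ℕ) :
    th F (φ ^ n) = (n : PowerSeries F) * φ ^ (n - 1) * th F φ := by
  induction n with
  | zero =>
    rw [pow_zero, Nat.cast_zero, zero_mul, zero_mul]
    have h1 := th_mul F 1 1
    rw [mul_one, one_mul, mul_one] at h1
    have h2 : th F 1 + 0 = th F 1 + th F 1 := by rw [add_zero]; exact h1
    exact (add_left_cancel h2).symm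
  | succ n ih =>
    rw [pow_succ, th_mul, ih, Nat.add_sub_cancel]
    rcases n with _ | n
    · simp
    · rw [Nat.add_sub_cancel]
      push_cast
      ring

private theorem MLDer_D (F : Type) [CommRing F] : th F (up F dlZ) = up F p2Z * up F dlZ := by
  rw [MLDer_up_th, ram_D, MLDer_up_mul]

private theorem MLDer_Q (F : Type) [CommRing F] :
    3 * th F (up F ser4) = up F p2Z * up F ser4 - up F ser6 := by
  have h := congrArg (up F) ram_Q
  rw [MLDer_up_mul, MLDer_up_sub, MLDer_up_mul, MLDer_up_nat] at h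
  rw [MLDer_up_th]
  exact h

private theorem MLDer_R (F : Type) [CommRing F] :
    2 * th F (up F ser6) = up F p2Z * up F ser6 - up F ser4 ^ 2 := by
  have h := congrArg (up F) ram_R
  rw [MLDer_up_mul, MLDer_up_sub, MLDer_up_mul, MLDer_up_pow, MLDer_up_nat] at h
  rw [MLDer_up_th]
  exact h

private theorem MLDer_rel (F : Type) [CommRing F] :
    up F ser6 ^ 2 = up F ser4 ^ 3 - 1728 * up F dlZ := by
  have h := congrArg (up F) ser_rel
  rw [MLDer_up_mul, MLDer_up_sub, MLDer_up_pow, MLDer_up_pow, MLDer_up_nat] at h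
  linear_combination (-1 : PowerSeries F) * h

/-- The case `e = 0`. -/
private theorem MLDer_zero (F : Type) [CommRing F] (m n : ℕ) :
    3 * th F (up F dlZ ^ m * up F ser4 ^ n) =
      (3 * m + n : PowerSeries F) * (up F p2Z * (up F dlZ ^ m * up F ser4 ^ n)) -
        n * (up F dlZ ^ m * up F ser4 ^ (n - 1) * up F ser6) := by
  rw [th_mul, MLDer_pow, MLDer_pow, MLDer_D]
  have h1 : (m : PowerSeries F) * up F dlZ ^ (m - 1) * up F dlZ = m * up F dlZ ^ m := by
    rcases m with _ | m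
    · simp
    · rw [Nat.add_sub_cancel, pow_succ]
      ring
  have h2 : (n : PowerSeries F) * up F ser4 ^ (n - 1) * up F ser4 = n * up F ser4 ^ n := by
    rcases n with _ | n
    · simp
    · rw [Nat.add_sub_cancel, pow_succ]
      ring
  linear_combination (3 * up F p2Z * up F ser4 ^ n) * h1 + (up F p2Z * up F dlZ ^ m) * h2 +
    (n * up F dlZ ^ m * up F ser4 ^ (n - 1)) * MLDer_Q F

/-- The case `e = 1`. -/
private theorem MLDer_one (F : Type) [CommRing F] (m n : ℕ) :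
    6 * th F (up F dlZ ^ m * up F ser4 ^ n * up F ser6) =
      (6 * m + 2 * n + 3 : PowerSeries F) * (up F p2Z * (up F dlZ ^ m * up F ser4 ^ n * up F ser6)) -
        (2 * n + 3) * (up F dlZ ^ m * up F ser4 ^ (n + 2)) +
        3456 * n * (up F dlZ ^ (m + 1) * up F ser4 ^ (n - 1)) := by
  rw [th_mul]
  have h0 := MLDer_zero F m n
  have h1 := MLDer_R F
  have h2 : (n : PowerSeries F) * up F ser4 ^ (n - 1) * up F ser4 ^ 3 = n * up F ser4 ^ (n + 2) := by
    rcases n with _ | n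
    · simp
    · rw [Nat.add_sub_cancel, mul_assoc, ← pow_add]
  linear_combination (2 * up F ser6) * h0 + (3 * up F dlZ ^ m * up F ser4 ^ n) * h1 -
    (2 * n * up F dlZ ^ m * up F ser4 ^ (n - 1)) * MLDer_rel F - (2 * up F dlZ ^ m) * h2

private theorem MLDer_lift (F : Type) [Field F] (d a e d2 a2 e2 : ℕ)
    (H : ∀ i, i ≤ d → ∃ q : Polynomial F, q ∈ Polynomial.degreeLE F (d2 : WithBot ℕ) ∧
      (i < d → q ∈ Polynomial.degreeLT F d2) ∧
      th F (up F (bsZ d a e i)) =
        ((wt d a e : F) / 12) • (up F p2Z * up F (bsZ d a e i)) + ev F d2 a2 e2 q)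
    (p : Polynomial F) :
    ∃ q : Polynomial F, q.natDegree ≤ d2 ∧ (p.degree < (d : WithBot ℕ) → q.degree < (d2 : WithBot ℕ)) ∧
      th F (ev F d a e p) =
        ((wt d a e : F) / 12) • (up F p2Z * ev F d a e p) + ev F d2 a2 e2 q := by
  have H' : ∀ i, ∃ q : Polynomial F, i ≤ d → (q ∈ Polynomial.degreeLE F (d2 : WithBot ℕ) ∧
      (i < d → q ∈ Polynomial.degreeLT F d2) ∧
      th F (up F (bsZ d a e i)) =
        ((wt d a e : F) / 12) • (up F p2Z * up F (bsZ d a e i)) + ev F d2 a2 e2 q) := by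
    intro i
    by_cases hi : i ≤ d
    · obtain ⟨q, hq⟩ := H i hi
      exact ⟨q, fun _ => hq⟩
    · exact ⟨0, fun h => absurd h hi⟩
  choose Q hQ using H'
  refine ⟨∑ i ∈ Finset.range (d + 1), p.coeff i • Q i, ?_, ?_, ?_⟩
  · rw [Polynomial.natDegree_le_iff_degree_le, ← Polynomial.mem_degreeLE]
    refine Submodule.sum_mem _ fun i hi => Submodule.smul_mem _ _ ?_
    rw [Finset.mem_range] at hi
    exact (hQ i (by omega)).1
  · intro hp
    rw [← Polynomial.mem_degreeLT]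
    refine Submodule.sum_mem _ fun i hi => ?_
    rw [Finset.mem_range] at hi
    by_cases hid : i = d
    · rw [hid, Polynomial.coeff_eq_zero_of_degree_lt hp, zero_smul]
      exact Submodule.zero_mem _
    · exact Submodule.smul_mem _ _ ((hQ i (by omega)).2.1 (by omega))
  · rw [ev_apply F d a e p, map_sum, map_sum, Finset.mul_sum, Finset.smul_sum, ← Finset.sum_add_distrib]
    refine Finset.sum_congr rfl fun i hi => ?_
    rw [Finset.mem_range] at hi
    rw [map_smul, map_smul, (hQ i (by omega)).2.2, smul_add, mul_smul_comm, smul_comm]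

private theorem MLDer_mem_le (F : Type) [Field F] (d2 s : ℕ) (h : s ≤ d2) (c : F) :
    Polynomial.monomial s c ∈ Polynomial.degreeLE F (d2 : WithBot ℕ) := by
  rw [Polynomial.mem_degreeLE]
  exact le_trans (Polynomial.degree_monomial_le s c) (by exact_mod_cast h)

private theorem MLDer_mem_lt (F : Type) [Field F] (d2 s : ℕ) (h : s < d2) (c : F) :
    Polynomial.monomial s c ∈ Polynomial.degreeLT F d2 := by
  rw [Polynomial.mem_degreeLT]
  exact lt_of_le_of_lt (Polynomial.degree_monomial_le s c) (by exact_mod_cast h)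

/-- `e = 0`, the general step. -/
private theorem MLDer_step0 (F : Type) [Field F] (h2 : (2 : F) ≠ 0) (h3 : (3 : F) ≠ 0)
    (d a i d2 a2 s : ℕ) (hi : i ≤ d) (hs : s ≤ d2) (hs2 : i < d → a + 3 * i = 0 ∨ s < d2)
    (hd : a + 3 * i = 0 ∨ (d2 - s = d - i ∧ a2 + 3 * s = a + 3 * i - 1)) :
    ∃ q : Polynomial F, q ∈ Polynomial.degreeLE F (d2 : WithBot ℕ) ∧
      (i < d → q ∈ Polynomial.degreeLT F d2) ∧
      th F (up F (bsZ d a 0 i)) =
        ((wt d a 0 : F) / 12) • (up F p2Z * up F (bsZ d a 0 i)) + ev F d2 a2 1 q := by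
  refine ⟨Polynomial.monomial s (-((a + 3 * i : ℕ) : F) / 3), MLDer_mem_le F d2 s hs _,
    fun h => ?_, ?_⟩
  · rcases hs2 h with h1 | h1
    · rw [h1, Nat.cast_zero, neg_zero, zero_div, Polynomial.monomial_zero_right]
      exact Submodule.zero_mem _
    · exact MLDer_mem_lt F d2 s h1 _
  rw [MLDer_mono F _ _ _ _ hs, MLDer_bs, MLDer_bs, pow_zero, mul_one, pow_one]
  have h0 := MLDer_zero F (d - i) (a + 3 * i)
  have hh3 : (3 : PowerSeries F) * PowerSeries.C (1 / 3 : F) = 1 := by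
    have : (3 : PowerSeries F) = PowerSeries.C (3 : F) := (map_ofNat _ 3).symm
    rw [this, ← map_mul, mul_one_div_cancel h3, map_one]
  have h12 : ((wt d a 0 : ℕ) : F) / 12 = (3 * ((d - i : ℕ) : F) + ((a + 3 * i : ℕ) : F)) * (1 / 3) := by
    have h4 : (12 : F) = 4 * 3 := by norm_num
    have h5 : (4 : F) ≠ 0 := by
      have : (4 : F) = 2 * 2 := by norm_num
      rw [this]
      exact mul_ne_zero h2 h2
    have h6 : ((wt d a 0 : ℕ) : F) = 4 * (3 * ((d - i : ℕ) : F) + ((a + 3 * i : ℕ) : F)) := by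
      have : wt d a 0 = 4 * (3 * (d - i) + (a + 3 * i)) := by
        unfold wt
        omega
      rw [this]
      push_cast
      ring
    rw [h6, h4]
    field_simp
  have hz : (a + 3 * i : ℕ) * (up F dlZ ^ (d2 - s) * up F ser4 ^ (a2 + 3 * s) * up F ser6) =
      ((a + 3 * i : ℕ) : PowerSeries F) *
        (up F dlZ ^ (d - i) * up F ser4 ^ (a + 3 * i - 1) * up F ser6) := by
    rcases hd with hd | ⟨hd, hd'⟩
    · rw [hd]
      simp
    · rw [hd, hd']
  rw [PowerSeries.smul_eq_C_mul, PowerSeries.smul_eq_C_mul, h12]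
  have hc1 : PowerSeries.C ((3 * ((d - i : ℕ) : F) + ((a + 3 * i : ℕ) : F)) * (1 / 3)) =
      (3 * ((d - i : ℕ) : PowerSeries F) + ((a + 3 * i : ℕ) : PowerSeries F)) *
        PowerSeries.C (1 / 3 : F) := by
    rw [map_mul, map_add, map_mul, map_natCast, map_natCast, map_ofNat]
  have hc2 : PowerSeries.C (-((a + 3 * i : ℕ) : F) / 3) =
      -(((a + 3 * i : ℕ) : PowerSeries F) * PowerSeries.C (1 / 3 : F)) := by
    rw [neg_div, map_neg, div_eq_mul_one_div, map_mul, map_natCast]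
  rw [hc1, hc2]
  generalize PowerSeries.C (1 / 3 : F) = c at hh3
  generalize th F (up F dlZ ^ (d - i) * up F ser4 ^ (a + 3 * i)) = t at h0 ⊢
  linear_combination c * h0 + (-t) * hh3 + c * hz

/-- `e = 1`, the general step. -/
private theorem MLDer_step1 (F : Type) [Field F] (h2 : (2 : F) ≠ 0) (h3 : (3 : F) ≠ 0)
    (d a i d2 a2 s s' : ℕ) (hi : i ≤ d) (hs : s ≤ d2) (hs2 : i < d → s < d2)
    (hs' : s' ≤ s)
    (hd : d2 - s = d - i ∧ a2 + 3 * s = a + 3 * i + 2)
    (hd' : a + 3 * i = 0 ∨ (d2 - s' = d - i + 1 ∧ a2 + 3 * s' = a + 3 * i - 1)) :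
    ∃ q : Polynomial F, q ∈ Polynomial.degreeLE F (d2 : WithBot ℕ) ∧
      (i < d → q ∈ Polynomial.degreeLT F d2) ∧
      th F (up F (bsZ d a 1 i)) =
        ((wt d a 1 : F) / 12) • (up F p2Z * up F (bsZ d a 1 i)) + ev F d2 a2 0 q := by
  refine ⟨Polynomial.monomial s (-(2 * ((a + 3 * i : ℕ) : F) + 3) / 6) +
      Polynomial.monomial s' (3456 * ((a + 3 * i : ℕ) : F) / 6),
    Submodule.add_mem _ (MLDer_mem_le F d2 s hs _) (MLDer_mem_le F d2 s' (by omega) _),
    fun h => Submodule.add_mem _ (MLDer_mem_lt F d2 s (hs2 h) _)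
      (MLDer_mem_lt F d2 s' (lt_of_le_of_lt hs' (hs2 h)) _), ?_⟩
  rw [map_add, MLDer_mono F _ _ _ _ hs, MLDer_mono F _ _ _ _ (show s' ≤ d2 by omega), MLDer_bs, MLDer_bs,
    MLDer_bs, pow_zero, mul_one, pow_one, mul_one]
  have h0 := MLDer_one F (d - i) (a + 3 * i)
  have h6 : (6 : F) ≠ 0 := by
    have : (6 : F) = 2 * 3 := by norm_num
    rw [this]
    exact mul_ne_zero h2 h3
  have hh6 : (6 : PowerSeries F) * PowerSeries.C (1 / 6 : F) = 1 := by
    have : (6 : PowerSeries F) = PowerSeries.C (6 : F) := (map_ofNat _ 6).symm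
    rw [this, ← map_mul, mul_one_div_cancel h6, map_one]
  have h12 : ((wt d a 1 : ℕ) : F) / 12 =
      (6 * ((d - i : ℕ) : F) + 2 * ((a + 3 * i : ℕ) : F) + 3) * (1 / 6) := by
    have h4 : (12 : F) = 2 * 6 := by norm_num
    have h7 : ((wt d a 1 : ℕ) : F) = 2 * (6 * ((d - i : ℕ) : F) + 2 * ((a + 3 * i : ℕ) : F) + 3) := by
      have : wt d a 1 = 2 * (6 * (d - i) + 2 * (a + 3 * i) + 3) := by
        unfold wt
        omega
      rw [this]
      push_cast
      ring
    rw [h7, h4]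
    field_simp
  have hz : ((a + 3 * i : ℕ) : PowerSeries F) * (up F dlZ ^ (d2 - s') * up F ser4 ^ (a2 + 3 * s')) =
      ((a + 3 * i : ℕ) : PowerSeries F) *
        (up F dlZ ^ (d - i + 1) * up F ser4 ^ (a + 3 * i - 1)) := by
    rcases hd' with hd' | ⟨hd', hd''⟩
    · rw [hd']
      simp
    · rw [hd', hd'']
  rw [hd.1, hd.2, PowerSeries.smul_eq_C_mul, PowerSeries.smul_eq_C_mul, PowerSeries.smul_eq_C_mul, h12]
  have hc1 : PowerSeries.C ((6 * ((d - i : ℕ) : F) + 2 * ((a + 3 * i : ℕ) : F) + 3) * (1 / 6)) =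
      (6 * ((d - i : ℕ) : PowerSeries F) + 2 * ((a + 3 * i : ℕ) : PowerSeries F) + 3) *
        PowerSeries.C (1 / 6 : F) := by
    rw [map_mul, map_add, map_add, map_mul, map_mul, map_natCast, map_natCast, map_ofNat, map_ofNat,
      map_ofNat]
  have hc2 : PowerSeries.C (-(2 * ((a + 3 * i : ℕ) : F) + 3) / 6) =
      -((2 * ((a + 3 * i : ℕ) : PowerSeries F) + 3) * PowerSeries.C (1 / 6 : F)) := by
    rw [neg_div, map_neg, div_eq_mul_one_div, map_mul, map_add, map_mul, map_natCast, map_ofNat,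
      map_ofNat]
  have hc3 : PowerSeries.C (3456 * ((a + 3 * i : ℕ) : F) / 6) =
      3456 * ((a + 3 * i : ℕ) : PowerSeries F) * PowerSeries.C (1 / 6 : F) := by
    rw [div_eq_mul_one_div, map_mul, map_mul, map_natCast, map_ofNat]
  rw [hc1, hc2, hc3]
  generalize PowerSeries.C (1 / 6 : F) = c at hh6
  generalize th F (up F dlZ ^ (d - i) * up F ser4 ^ (a + 3 * i) * up F ser6) = t at h0 ⊢
  linear_combination c * h0 + (-t) * hh6 - 3456 * c * hz

theorem ser_ev (F : Type) [Field F] (h2 : (2 : F) ≠ 0) (h3 : (3 : F) ≠ 0) (d a e d2 a2 e2 : ℕ)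
    (ha : a ≤ 2) (he : e ≤ 1) (ha2 : a2 ≤ 2) (he2 : e2 ≤ 1) (hw : wt d2 a2 e2 = wt d a e + 2)
    (p : Polynomial F) (hp : p.natDegree ≤ d) :
    ∃ q : Polynomial F, q.natDegree ≤ d2 ∧ (p.degree < (d : WithBot ℕ) → q.degree < (d2 : WithBot ℕ)) ∧
      th F (ev F d a e p) =
        ((wt d a e : F) / 12) • (up F p2Z * ev F d a e p) + ev F d2 a2 e2 q := by
  refine MLDer_lift F d a e d2 a2 e2 (fun i hi => ?_) p
  unfold wt at hw
  obtain he0 | he0 : e = 0 ∨ e = 1 := by omega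
  · have he20 : e2 = 1 := by omega
    subst he0 he20
    obtain ha0 | ha0 : a = 0 ∨ 1 ≤ a := by omega
    · refine MLDer_step0 F h2 h3 d a i d2 a2 (i - 1) hi (by omega) (fun h => by omega) (by omega)
    · refine MLDer_step0 F h2 h3 d a i d2 a2 i hi (by omega) (fun h => by omega) (by omega)
  · have he20 : e2 = 0 := by omega
    subst he0 he20
    obtain ha0 | ha0 : a = 0 ∨ 1 ≤ a := by omega
    · refine MLDer_step1 F h2 h3 d a i d2 a2 i (i - 1) hi (by omega) (fun h => by omega) (by omega)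
        ⟨by omega, by omega⟩ (by omega)
    · refine MLDer_step1 F h2 h3 d a i d2 a2 (i + 1) i hi (by omega) (fun h => by omega) (by omega)
        ⟨by omega, by omega⟩ (by omega)

end ML
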