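import Pool.Agent.Lib_MP_bfd926_ml.MLDefs

/-!
# Evaluation of polynomials: basic properties

`ser4`, `ser6` are the series of `E₄`, `E₆` (`SMa`, `ser4_eq`, `ser6_eq` in `SMc`), `dlZ = be ^ 6 * ff`,
`ff = X * …` (`SFc`), all with leading coefficient `1`. `ser_rel`: as `SMc_ser` (private) in `SMc`:
`ff * be ^ 2 * 16 = al * (al - be)`.
`bsZ d a e i = X ^ (d - i) * (unit with constant coefficient 1)`; `ev_inj` follows: if `p ≠ 0` look at the
largest `i ≤ d` with `p.coeff i ≠ 0`, the coefficient of `X ^ (d - i)` of `ev F d a e p` is `p.coeff i`.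
`ev_mul`: `bsZ d a e i * bsZ d' a' e' j = bsZ (d + d') (a + a') (e + e') (i + j)` for `i ≤ d`, `j ≤ d'`.
`ev_a3`: `bsZ d (a + 3) e i = bsZ (d + 1) a e (i + 1)`.
`ev_e2`: `bsZ d a (e + 2) i = bsZ (d + 1) a e (i + 1) - 1728 * bsZ (d + 1) a e i` by `ser_rel`.
-/

open PowerSeries MT2

namespace ML

theorem ev_apply (F : Type) [CommRing F] (d a e : ℕ) (p : Polynomial F) :
    ev F d a e p = ∑ i ∈ Finset.range (d + 1), p.coeff i • up F (bsZ d a e i) := by
  simp [ev]

theorem ser_rel : ser4 ^ 3 - ser6 ^ 2 = 1728 * dlZ := by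
  unfold dlZ ser4 ser6
  linear_combination (-(108 * be ^ 4)) * ff_eq

theorem cc_ser4 : constantCoeff ser4 = 1 := by
  unfold ser4
  rw [map_add, map_sub, map_mul, map_mul, map_mul, map_pow, map_pow, al_zero, be_zero]
  rw [show constantCoeff (16 : PowerSeries ℤ) = 16 from rfl]
  norm_num

theorem cc_ser6 : constantCoeff ser6 = 1 := by
  unfold ser6
  rw [map_mul, map_sub, map_sub, map_add, map_mul, map_mul, map_mul, map_mul, map_pow, map_pow,
    al_zero, be_zero]
  rw [show constantCoeff (32 : PowerSeries ℤ) = 32 from rfl,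
    show constantCoeff (2 : PowerSeries ℤ) = 2 from rfl]
  norm_num

theorem dlZ_X : ∃ g : PowerSeries ℤ, dlZ = X * g ∧ constantCoeff g = 1 := by
  refine ⟨be ^ 6 * PowerSeries.mk fun n => PowerSeries.coeff (n + 1) ff, ?_, ?_⟩
  · have h := PowerSeries.sub_const_eq_X_mul_shift ff
    have h0 : constantCoeff ff = 0 := by
      have := ff_zero
      rwa [PowerSeries.coeff_zero_eq_constantCoeff_apply] at this
    rw [h0, map_zero, sub_zero] at h
    unfold dlZ
    conv_lhs => rw [h]
    ring
  · rw [map_mul, map_pow, be_zero, one_pow, one_mul,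
      ← PowerSeries.coeff_zero_eq_constantCoeff_apply, PowerSeries.coeff_mk]
    simpa using ff_one

theorem bsZ_coeff (d a e i m : ℕ) (hi : i ≤ d) (hm : m ≤ d - i) :
    coeff m (bsZ d a e i) = if m = d - i then 1 else 0 := by
  obtain ⟨g, hg, hg1⟩ := dlZ_X
  have h : bsZ d a e i = X ^ (d - i) * (g ^ (d - i) * (ser4 ^ (a + 3 * i) * ser6 ^ e)) := by
    unfold bsZ
    rw [hg, mul_pow]
    ring
  rw [h, PowerSeries.coeff_X_pow_mul']
  by_cases h1 : m = d - i
  · rw [if_pos h1, if_pos h1.ge, h1, Nat.sub_self, PowerSeries.coeff_zero_eq_constantCoeff_apply,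
      map_mul, map_mul, map_pow, map_pow, map_pow, hg1, cc_ser4, cc_ser6]
    norm_num
  · rw [if_neg h1, if_neg (by omega)]

private theorem MLEv_up_coeff (F : Type) [CommRing F] (φ : PowerSeries ℤ) (m : ℕ) :
    coeff m (up F φ) = ((coeff m φ : ℤ) : F) := by
  unfold up
  rw [PowerSeries.coeff_map]
  rfl

private theorem MLEv_coeff (F : Type) [CommRing F] (d a e : ℕ) (p : Polynomial F) (m : ℕ) :
    coeff m (ev F d a e p) =
      ∑ i ∈ Finset.range (d + 1), p.coeff i * ((coeff m (bsZ d a e i) : ℤ) : F) := by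
  rw [ev_apply, map_sum]
  refine Finset.sum_congr rfl fun i _ => ?_
  rw [PowerSeries.coeff_smul, MLEv_up_coeff, smul_eq_mul]

theorem ev_inj (F : Type) [CommRing F] (d a e : ℕ) (p : Polynomial F) (hp : p.natDegree ≤ d)
    (h : ∀ m ≤ d, coeff m (ev F d a e p) = 0) : p = 0 := by
  have key : ∀ k, k ≤ d → p.coeff (d - k) = 0 := by
    intro k
    induction k using Nat.strong_induction_on with
    | _ k ih =>
      intro hk
      have h1 := h k hk
      rw [MLEv_coeff, Finset.sum_eq_single (d - k)] at h1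
      · rw [bsZ_coeff d a e (d - k) k (by omega) (by omega), if_pos (by omega), Int.cast_one,
          mul_one] at h1
        exact h1
      · intro i hi hne
        rw [Finset.mem_range] at hi
        rcases lt_or_gt_of_ne hne with h2 | h2
        · rw [bsZ_coeff d a e i k (by omega) (by omega), if_neg (by omega), Int.cast_zero,
            mul_zero]
        · have h3 := ih (d - i) (by omega) (by omega)
          rw [show d - (d - i) = i by omega] at h3
          rw [h3, zero_mul]
      · intro h2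
        exact absurd (Finset.mem_range.2 (by omega)) h2
  ext i
  rw [Polynomial.coeff_zero]
  rcases le_or_gt i d with h1 | h1
  · have := key (d - i) (by omega)
    rwa [show d - (d - i) = i by omega] at this
  · exact Polynomial.coeff_eq_zero_of_natDegree_lt (by omega)

theorem ev_inj' (F : Type) [CommRing F] (d a e : ℕ) (p q : Polynomial F) (hp : p.natDegree ≤ d)
    (hq : q.natDegree ≤ d) (h : ev F d a e p = ev F d a e q) : p = q := by
  rw [← sub_eq_zero]
  refine ev_inj F d a e (p - q) ?_ ?_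
  · exact le_trans (Polynomial.natDegree_sub_le p q) (max_le hp hq)
  · intro m _
    rw [map_sub, h, sub_self, map_zero]

theorem ev_cc (F : Type) [CommRing F] (d a e : ℕ) (p : Polynomial F) :
    constantCoeff (ev F d a e p) = p.coeff d := by
  rw [← PowerSeries.coeff_zero_eq_constantCoeff_apply, MLEv_coeff, Finset.sum_eq_single d]
  · rw [bsZ_coeff d a e d 0 le_rfl (by omega), if_pos (by omega), Int.cast_one, mul_one]
  · intro i hi hne
    rw [Finset.mem_range] at hi
    rw [bsZ_coeff d a e i 0 (by omega) (by omega), if_neg (by omega), Int.cast_zero, mul_zero]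
  · intro h2
    exact absurd (Finset.mem_range.2 (by omega)) h2

private theorem MLEv_mono (F : Type) [CommRing F] (d a e k : ℕ) (hk : k ≤ d) (c : F) :
    ev F d a e (Polynomial.monomial k c) = c • up F (bsZ d a e k) := by
  rw [ev_apply, Finset.sum_eq_single k]
  · rw [Polynomial.coeff_monomial, if_pos rfl]
  · intro i _ hne
    rw [Polynomial.coeff_monomial, if_neg (Ne.symm hne), zero_smul]
  · intro h2
    exact absurd (Finset.mem_range.2 (by omega)) h2

private theorem MLEv_up_mul (F : Type) [CommRing F] (φ ψ : PowerSeries ℤ) :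
    up F (φ * ψ) = up F φ * up F ψ := by
  unfold up
  rw [map_mul]

private theorem MLEv_bs_mul (d a e i d' a' e' j : ℕ) (hi : i ≤ d) (hj : j ≤ d') :
    bsZ d a e i * bsZ d' a' e' j = bsZ (d + d') (a + a') (e + e') (i + j) := by
  unfold bsZ
  rw [show d + d' - (i + j) = (d - i) + (d' - j) by omega,
    show a + a' + 3 * (i + j) = (a + 3 * i) + (a' + 3 * j) by ring, pow_add, pow_add, pow_add]
  ring

theorem ev_mul (F : Type) [CommRing F] (d a e d' a' e' : ℕ) (p q : Polynomial F) (hp : p.natDegree ≤ d)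
    (hq : q.natDegree ≤ d') :
    ev F d a e p * ev F d' a' e' q = ev F (d + d') (a + a') (e + e') (p * q) := by
  have h1 : p * q = ∑ i ∈ Finset.range (d + 1), ∑ j ∈ Finset.range (d' + 1),
      Polynomial.monomial (i + j) (p.coeff i * q.coeff j) := by
    conv_lhs => rw [Polynomial.as_sum_range' p (d + 1) (by omega),
      Polynomial.as_sum_range' q (d' + 1) (by omega)]
    rw [Finset.sum_mul_sum]
    refine Finset.sum_congr rfl fun i _ => Finset.sum_congr rfl fun j _ => ?_
    rw [Polynomial.monomial_mul_monomial]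
  rw [h1, map_sum, ev_apply, ev_apply, Finset.sum_mul_sum]
  refine Finset.sum_congr rfl fun i hi => ?_
  rw [map_sum]
  refine Finset.sum_congr rfl fun j hj => ?_
  rw [Finset.mem_range] at hi hj
  rw [MLEv_mono F _ _ _ _ (by omega), ← MLEv_bs_mul d a e i d' a' e' j (by omega) (by omega),
    MLEv_up_mul, smul_mul_smul_comm]

theorem ev_a3 (F : Type) [CommRing F] (d a e : ℕ) (p : Polynomial F) (hp : p.natDegree ≤ d) :
    ev F d (a + 3) e p = ev F (d + 1) a e (Polynomial.X * p) := by
  rw [ev_apply, ev_apply, Finset.sum_range_succ' _ (d + 1), Polynomial.coeff_X_mul_zero, zero_smul,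
    add_zero]
  refine Finset.sum_congr rfl fun i hi => ?_
  rw [Finset.mem_range] at hi
  rw [Polynomial.coeff_X_mul]
  congr 2
  unfold bsZ
  rw [show d + 1 - (i + 1) = d - i by omega, show a + 3 * (i + 1) = a + 3 + 3 * i by ring]

private theorem MLEv_bs_e2 (d a e i : ℕ) (hi : i ≤ d) :
    bsZ d a (e + 2) i = bsZ (d + 1) a e (i + 1) - 1728 * bsZ (d + 1) a e i := by
  unfold bsZ
  rw [show d + 1 - (i + 1) = d - i by omega, show a + 3 * (i + 1) = (a + 3 * i) + 3 by ring,
    show d + 1 - i = (d - i) + 1 by omega, pow_add ser4 (a + 3 * i) 3, pow_add ser6 e 2,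
    pow_succ dlZ (d - i)]
  linear_combination (-(dlZ ^ (d - i) * ser4 ^ (a + 3 * i) * ser6 ^ e)) * ser_rel

theorem ev_e2 (F : Type) [CommRing F] (d a e : ℕ) (p : Polynomial F) (hp : p.natDegree ≤ d) :
    ev F d a (e + 2) p = ev F (d + 1) a e ((Polynomial.X - Polynomial.C 1728) * p) := by
  rw [sub_mul, map_sub, ← ev_a3 F d a e p hp, ← Polynomial.smul_eq_C_mul, map_smul, ev_apply,
    ev_apply, ev_apply, Finset.sum_range_succ _ (d + 1),
    Polynomial.coeff_eq_zero_of_natDegree_lt (show p.natDegree < d + 1 by omega), zero_smul,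
    add_zero, Finset.smul_sum, ← Finset.sum_sub_distrib]
  refine Finset.sum_congr rfl fun i hi => ?_
  rw [Finset.mem_range] at hi
  have h1 : bsZ d (a + 3) e i = bsZ (d + 1) a e (i + 1) := by
    unfold bsZ
    rw [show d + 1 - (i + 1) = d - i by omega, show a + 3 * (i + 1) = a + 3 + 3 * i by ring]
  have h2 : up F (bsZ d a (e + 2) i) =
      up F (bsZ (d + 1) a e (i + 1)) - (1728 : F) • up F (bsZ (d + 1) a e i) := by
    rw [MLEv_bs_e2 d a e i (by omega), PowerSeries.smul_eq_C_mul]
    unfold up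
    rw [map_sub, map_mul]
    congr 2
    rw [map_ofNat, map_ofNat]
  rw [h1, h2, smul_sub, smul_comm]

theorem up_map {R S : Type} [CommRing R] [CommRing S] (f : R →+* S) (φ : PowerSeries ℤ) :
    PowerSeries.map f (up R φ) = up S φ := by
  ext n
  rw [PowerSeries.coeff_map, MLEv_up_coeff, MLEv_up_coeff, map_intCast]

theorem ev_map {R S : Type} [CommRing R] [CommRing S] (f : R →+* S) (d a e : ℕ) (p : Polynomial R) :
    PowerSeries.map f (ev R d a e p) = ev S d a e (p.map f) := by
  ext m
  rw [PowerSeries.coeff_map, MLEv_coeff, MLEv_coeff, map_sum]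
  refine Finset.sum_congr rfl fun i _ => ?_
  rw [map_mul, map_intCast, Polynomial.coeff_map]

private theorem MLEv_dbl_even {R : Type} [CommRing R] (φ : PowerSeries R) (m : ℕ) :
    coeff (2 * m) (dbl φ) = coeff m φ := by
  unfold dbl
  exact coeff_expand_mul 2 two_ne_zero φ m

private theorem MLEv_dbl_odd {R : Type} [CommRing R] (φ : PowerSeries R) (m : ℕ) :
    coeff (2 * m + 1) (dbl φ) = 0 := by
  unfold dbl
  exact coeff_expand_of_not_dvd 2 two_ne_zero φ (by omega)

private theorem MLEv_hk {R : Type} [CommRing R] (k : ℕ) (φ : PowerSeries R) (m : ℕ) :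
    coeff m (hk R k φ) = coeff (2 * m) φ + 2 ^ (k - 1) * coeff m (dbl φ) := by
  show coeff m (uu φ + (2 : R) ^ (k - 1) • dbl φ) = _
  rw [map_add, PowerSeries.coeff_smul, smul_eq_mul]
  unfold uu
  rw [PowerSeries.coeff_mk]

private theorem MLEv_th {R : Type} [CommRing R] (φ : PowerSeries R) (m : ℕ) :
    coeff m (th R φ) = (m : R) * coeff m φ := by
  show coeff m (PowerSeries.mk fun n => (n : R) * coeff n φ) = _
  rw [PowerSeries.coeff_mk]

theorem hk_map {R S : Type} [CommRing R] [CommRing S] (f : R →+* S) (k : ℕ) (φ : PowerSeries R) :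
    PowerSeries.map f (hk R k φ) = hk S k (PowerSeries.map f φ) := by
  ext m
  rw [PowerSeries.coeff_map, MLEv_hk, MLEv_hk, map_add, map_mul, map_pow, map_ofNat,
    PowerSeries.coeff_map]
  congr 2
  obtain ⟨r, h | h⟩ := Nat.even_or_odd' m
  · subst h
    rw [MLEv_dbl_even, MLEv_dbl_even, PowerSeries.coeff_map]
  · subst h
    rw [MLEv_dbl_odd, MLEv_dbl_odd, map_zero]

theorem th_map {R S : Type} [CommRing R] [CommRing S] (f : R →+* S) (φ : PowerSeries R) :
    PowerSeries.map f (th R φ) = th S (PowerSeries.map f φ) := by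
  ext m
  rw [PowerSeries.coeff_map, MLEv_th, MLEv_th, map_mul, map_natCast, PowerSeries.coeff_map]

theorem th_mul (F : Type) [CommRing F] (φ ψ : PowerSeries F) :
    th F (φ * ψ) = th F φ * ψ + φ * th F ψ := by
  ext m
  rw [MLEv_th, map_add, coeff_mul, coeff_mul, coeff_mul, Finset.mul_sum, ← Finset.sum_add_distrib]
  refine Finset.sum_congr rfl fun p hp => ?_
  rw [Finset.HasAntidiagonal.mem_antidiagonal] at hp
  rw [MLEv_th, MLEv_th, ← hp]
  push_cast
  ring

/-- `T₂ θ = 2 θ T₂` -/
theorem hk_th (F : Type) [CommRing F] (k : ℕ) (hk1 : 1 ≤ k) (φ : PowerSeries F) :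
    hk F (k + 2) (th F φ) = (2 : F) • th F (hk F k φ) := by
  ext m
  rw [PowerSeries.coeff_smul, MLEv_hk, MLEv_th, MLEv_th, MLEv_hk]
  obtain ⟨j, rfl⟩ : ∃ j, k = j + 1 := ⟨k - 1, by omega⟩
  rw [show j + 1 + 2 - 1 = j + 2 by omega, show j + 1 - 1 = j by omega]
  obtain ⟨r, h | h⟩ := Nat.even_or_odd' m
  · subst h
    rw [MLEv_dbl_even, MLEv_dbl_even, MLEv_th]
    push_cast
    ring
  · subst h
    rw [MLEv_dbl_odd, MLEv_dbl_odd]
    push_cast
    ring

/-- `2 ^ 1152 = 1` -/
theorem hk_add (k : ℕ) (hk1 : 1 ≤ k) (φ : PowerSeries FL) :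
    hk FL (k + 1152) φ = hk FL k φ := by
  have h2 : (2 : FL) ^ 1152 = 1 := ZMod.pow_card_sub_one_eq_one (p := 1153) (by decide)
  ext m
  rw [MLEv_hk, MLEv_hk, show k + 1152 - 1 = (k - 1) + 1152 by omega, pow_add, h2, mul_one]

end ML
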