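import Pool.Agent.Lib_MP_bfd926_ml.MLLin

/-!
# Rational factors and factors modulo a prime

`fac_bound`: a monic divisor over `ℚ` of a monic integral polynomial is integral
(`IsIntegrallyClosed.eq_map_mul_C_of_dvd`), so the product of the integral versions of the members of `s` divides
`P`; reduce modulo `p`; every reduction is monic of positive degree, so it has at least one irreducible factor.
-/

open Polynomial

namespace ML

private lemma MLFac_one {F : Type} [Field F] {P : Polynomial F} (hP : P ≠ 0) (h : 0 < P.natDegree) :
    1 ≤ nf P := by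
  unfold nf
  by_contra hlt
  have h0 : Multiset.card (UniqueFactorizationMonoid.factors P) = 0 := by omega
  have h1 := UniqueFactorizationMonoid.factors_prod hP
  rw [Multiset.card_eq_zero.1 h0, Multiset.prod_zero] at h1
  have h2 : IsUnit P := (associated_one_iff_isUnit.1 h1.symm)
  have h3 := Polynomial.natDegree_eq_zero_of_isUnit h2
  omega

theorem fac_bound (l : ℕ) [Fact l.Prime] (P : Polynomial ℤ) (hP : P.Monic) (s : Multiset (Polynomial ℚ))
    (hs : ∀ q ∈ s, 0 < q.natDegree) (h : s.prod ∣ P.map (Int.castRingHom ℚ)) :
    Multiset.card s ≤ nf (P.map (Int.castRingHom (ZMod l))) := by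
  induction s using Multiset.induction generalizing P with
  | empty => simp
  | cons q s ih =>
    have hq : 0 < q.natDegree := hs q (Multiset.mem_cons_self q s)
    have hq0 : q ≠ 0 := by
      rintro rfl
      simp at hq
    rw [Multiset.prod_cons] at h
    have hinj : Function.Injective (Int.castRingHom ℚ) := Int.cast_injective
    obtain ⟨g, hg⟩ := IsIntegrallyClosed.eq_map_mul_C_of_dvd (R := ℤ) ℚ hP
      (show q ∣ P.map (algebraMap ℤ ℚ) from (dvd_mul_right q s.prod).trans h)
    have hg' : g.map (Int.castRingHom ℚ) * C q.leadingCoeff = q := hg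
    have hlc : q.leadingCoeff ≠ 0 := Polynomial.leadingCoeff_ne_zero.2 hq0
    have hgm : g.Monic := by
      have h1 := congrArg Polynomial.leadingCoeff hg'
      rw [Polynomial.leadingCoeff_mul, Polynomial.leadingCoeff_C,
        Polynomial.leadingCoeff_map_of_injective hinj] at h1
      have h2 : (Int.castRingHom ℚ) g.leadingCoeff = 1 := by
        have h3 : (Int.castRingHom ℚ) g.leadingCoeff * q.leadingCoeff = 1 * q.leadingCoeff := by
          rw [h1, one_mul]
        exact mul_right_cancel₀ hlc h3
      unfold Polynomial.Monic
      apply hinj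
      rw [h2, map_one]
    have hdeg : g.natDegree = q.natDegree := by
      conv_rhs => rw [← hg']
      rw [Polynomial.natDegree_mul_C hlc, Polynomial.natDegree_map_eq_of_injective hinj]
    have hgP : g ∣ P := by
      rw [← Polynomial.map_dvd_map _ hinj hgm]
      refine Dvd.dvd.trans ?_ h
      refine Dvd.dvd.trans ?_ (dvd_mul_right q s.prod)
      exact ⟨_, hg'.symm⟩
    obtain ⟨P', rfl⟩ := hgP
    have hP' : P'.Monic := hgm.of_mul_monic_left hP
    have h4 : s.prod ∣ P'.map (Int.castRingHom ℚ) := by
      rw [Polynomial.map_mul] at h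
      rw [← hg', mul_assoc] at h
      have hgne : g.map (Int.castRingHom ℚ) ≠ 0 := (hgm.map _).ne_zero
      exact (dvd_mul_left _ _).trans ((mul_dvd_mul_iff_left hgne).1 h)
    have h5 := ih P' hP' (fun q' hq' => hs q' (Multiset.mem_cons_of_mem hq')) h4
    rw [Multiset.card_cons, Polynomial.map_mul, nf_mul (hgm.map _).ne_zero (hP'.map _).ne_zero]
    have h6 : 1 ≤ nf (g.map (Int.castRingHom (ZMod l))) := by
      refine MLFac_one (hgm.map _).ne_zero ?_
      rw [hgm.natDegree_map, hdeg]
      exact hq
    omega

/-- the number of rational irreducible factors is at most the number of factors modulo `l` -/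
theorem nf_bound (l : ℕ) [Fact l.Prime] (P : Polynomial ℤ) (hP : P.Monic) :
    nf (P.map (Int.castRingHom ℚ)) ≤ nf (P.map (Int.castRingHom (ZMod l))) := by
  have hne : P.map (Int.castRingHom ℚ) ≠ 0 := (hP.map _).ne_zero
  exact fac_bound l P hP (UniqueFactorizationMonoid.factors (P.map (Int.castRingHom ℚ)))
    (fun q hq => (UniqueFactorizationMonoid.irreducible_of_factor q hq).natDegree_pos)
    (UniqueFactorizationMonoid.factors_prod hne).dvd

end ML
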