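import Pool.Agent.Lib_MP_bfd926_ml.MLFac

/-!
# Chains of rational subspaces

`indep_rat`: rational forms which are linearly independent over `ℚ` are linearly independent over `ℂ`.
`rat_dvd`: the characteristic polynomial of `T` on a stable rational subspace divides that of `T`.
`rat_chain`: the length of a chain of stable rational subspaces is at most the number of rational factors.
-/

open UpperHalfPlane PowerSeries
open scoped MatrixGroups ModularForm

namespace ML

/-- The structure of a rational vector space on the space of cusp forms. -/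
@[reducible] noncomputable def rModule (k : ℕ) : Module ℚ (CuspForm 𝒮ℒ (k : ℤ)) :=
  Module.compHom (CuspForm 𝒮ℒ (k : ℤ)) (algebraMap ℚ ℂ)

private theorem MLRat_zero (k : ℤ) (f : CuspForm 𝒮ℒ k) (h : qExpansion 1 f = 0) : f = 0 := by
  have h1 : CuspForm.toModularFormₗ f = 0 :=
    (ModularForm.qExpansion_eq_zero_iff one_pos one_mem_strictPeriods_SL
      (CuspForm.toModularFormₗ f)).1 h
  ext z
  have h2 := DFunLike.congr_fun h1 z
  exact h2

/-- The `n`-th coefficient as a linear map. -/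
private noncomputable def MLRat_co (k : ℤ) (n : ℕ) : CuspForm 𝒮ℒ k →ₗ[ℂ] ℂ where
  toFun f := coeff n (qExpansion 1 f)
  map_add' f g := by
    have h1 : qExpansion 1 (⇑(f + g) : ℍ → ℂ) = qExpansion 1 f + qExpansion 1 g :=
      ModularForm.qExpansion_add one_pos one_mem_strictPeriods_SL f g
    rw [h1, map_add]
  map_smul' a f := by
    have h1 : qExpansion 1 (⇑(a • f) : ℍ → ℂ) = a • qExpansion 1 f :=
      ModularForm.qExpansion_smul one_pos one_mem_strictPeriods_SL a f
    rw [h1, map_smul, RingHom.id_apply]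

/-- Rational forms which are linearly independent over `ℚ` are linearly independent over `ℂ`. -/
theorem indep_rat (k : ℕ) {ι : Type} (f : ι → CuspForm 𝒮ℒ (k : ℤ))
    (hq : ∀ i n, ∃ q : ℚ, coeff n (qExpansion 1 (f i)) = (q : ℂ))
    (hf : letI := rModule k; LinearIndependent ℚ f) : LinearIndependent ℂ f := by
  classical
  letI := rModule k
  rw [linearIndependent_iff'] at hf ⊢
  intro s c hc i hi
  rw [← Module.forall_dual_apply_eq_zero_iff ℚ (c i)]
  intro φ
  refine hf s (fun j => φ (c j)) ?_ i hi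
  apply MLRat_zero
  ext n
  have h1 := congrArg (MLRat_co (k : ℤ) n) hc
  rw [map_sum, map_zero] at h1
  have h2 : ∀ j, ∃ q : ℚ, coeff n (qExpansion 1 (f j)) = (q : ℂ) := fun j => hq j n
  choose q hq' using h2
  have h3 : ∑ j ∈ s, c j * (q j : ℂ) = 0 := by
    rw [← h1]
    refine Finset.sum_congr rfl fun j _ => ?_
    rw [map_smul, smul_eq_mul]
    show c j * (q j : ℂ) = c j * coeff n (qExpansion 1 (f j))
    rw [hq']
  have h4 : ∑ j ∈ s, φ (c j) * q j = 0 := by
    have h5 := congrArg φ h3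
    rw [map_sum, map_zero] at h5
    rw [← h5]
    refine Finset.sum_congr rfl fun j _ => ?_
    have h6 : c j * (q j : ℂ) = (q j) • c j := by
      rw [Rat.smul_def, mul_comm]
    rw [h6, map_smul, smul_eq_mul, mul_comm]
  show MLRat_co (k : ℤ) n (∑ j ∈ s, φ (c j) • f j) = 0
  rw [map_sum]
  have h7 : ∀ j ∈ s, MLRat_co (k : ℤ) n (φ (c j) • f j) = ((φ (c j) * q j : ℚ) : ℂ) := by
    intro j _
    have h8 : (φ (c j) • f j : CuspForm 𝒮ℒ (k : ℤ)) = ((φ (c j) : ℚ) : ℂ) • f j := rfl
    rw [h8, map_smul, smul_eq_mul]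
    push_cast
    congr 1
    exact hq' j
  rw [Finset.sum_congr rfl h7, ← Rat.cast_sum, h4, Rat.cast_zero]


/-- The restriction of `T` to a rational stable subspace. -/
private noncomputable def MLRat_T (k : ℕ) (T : Module.End ℂ (CuspForm 𝒮ℒ (k : ℤ))) :
    letI := rModule k
    ∀ W : Submodule ℚ (CuspForm 𝒮ℒ (k : ℤ)), (∀ f ∈ W, T f ∈ W) → Module.End ℚ W :=
  letI := rModule k
  fun W hW =>
    { toFun := fun f => ⟨T f, hW f f.2⟩
      map_add' := fun f g => Subtype.ext (by
        show T ((f : CuspForm 𝒮ℒ (k : ℤ)) + g) = T f + T g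
        exact map_add T _ _)
      map_smul' := fun a f => Subtype.ext (by
        show T ((a : ℂ) • (f : CuspForm 𝒮ℒ (k : ℤ))) = (a : ℂ) • T f
        exact map_smul T _ _) }

theorem rat_dvd (k : ℕ) [FiniteDimensional ℂ (CuspForm 𝒮ℒ (k : ℤ))]
    (T : Module.End ℂ (CuspForm 𝒮ℒ (k : ℤ))) :
    letI := rModule k
    ∀ (W : Submodule ℚ (CuspForm 𝒮ℒ (k : ℤ)))
      (_ : ∀ f ∈ W, ∀ n, ∃ q : ℚ, coeff n (qExpansion 1 f) = (q : ℂ)) (hTW : ∀ f ∈ W, T f ∈ W),
        ∃ _ : FiniteDimensional ℚ W,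
          (MLRat_T k T W hTW).charpoly.map (algebraMap ℚ ℂ) ∣ T.charpoly := by
  classical
  letI := rModule k
  intro W hW hTW
  let b := Module.Free.chooseBasis ℚ W
  have hind : LinearIndependent ℚ fun i => (b i : CuspForm 𝒮ℒ (k : ℤ)) :=
    b.linearIndependent.map' W.subtype (Submodule.ker_subtype W)
  have hC : LinearIndependent ℂ fun i => (b i : CuspForm 𝒮ℒ (k : ℤ)) :=
    indep_rat k _ (fun i n => hW _ (b i).2 n) hind
  haveI hfin : Finite (Module.Free.ChooseBasisIndex ℚ W) := hC.finite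
  haveI : Fintype (Module.Free.ChooseBasisIndex ℚ W) := Fintype.ofFinite _
  haveI hfd : FiniteDimensional ℚ W := Module.Finite.of_basis b
  refine ⟨hfd, ?_⟩
  -- the matrix of the restriction
  set a : Matrix (Module.Free.ChooseBasisIndex ℚ W) (Module.Free.ChooseBasisIndex ℚ W) ℚ :=
    LinearMap.toMatrix b b (MLRat_T k T W hTW) with hadef
  have ha : ∀ j, T (b j : CuspForm 𝒮ℒ (k : ℤ)) =
      ∑ i, ((a i j : ℚ) : ℂ) • (b i : CuspForm 𝒮ℒ (k : ℤ)) := by
    intro j
    have h1 := b.sum_repr (MLRat_T k T W hTW (b j))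
    have h2 := congrArg (W.subtype) h1
    rw [map_sum] at h2
    refine Eq.trans h2.symm (Finset.sum_congr rfl fun i _ => ?_)
    rw [hadef, LinearMap.toMatrix_apply]
    rfl
  -- the complex span
  set U : Submodule ℂ (CuspForm 𝒮ℒ (k : ℤ)) :=
    Submodule.span ℂ (Set.range fun i => (b i : CuspForm 𝒮ℒ (k : ℤ))) with hU
  let bU : Module.Basis (Module.Free.ChooseBasisIndex ℚ W) ℂ U := Module.Basis.span hC
  have hbU : ∀ i, (bU i : CuspForm 𝒮ℒ (k : ℤ)) = b i := fun i =>
    congrArg Subtype.val (Module.Basis.span_apply hC i)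
  have hTU : U ≤ U.comap T := by
    rw [hU, Submodule.span_le]
    rintro _ ⟨j, rfl⟩
    show T (b j : CuspForm 𝒮ℒ (k : ℤ)) ∈ U
    rw [ha]
    exact Submodule.sum_mem _ fun i _ => Submodule.smul_mem _ _ (Submodule.subset_span ⟨i, rfl⟩)
  have hmat : LinearMap.toMatrix bU bU (T.restrict hTU) = a.map (algebraMap ℚ ℂ) := by
    ext i j
    rw [LinearMap.toMatrix_apply, Matrix.map_apply]
    have h1 : T.restrict hTU (bU j) = ∑ l, ((a l j : ℚ) : ℂ) • bU l := by
      apply Subtype.ext
      rw [LinearMap.restrict_coe_apply, hbU, ha, Submodule.coe_sum]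
      refine Finset.sum_congr rfl fun l _ => ?_
      rw [Submodule.coe_smul, hbU]
    rw [h1, map_sum, Finsupp.finset_sum_apply, Finset.sum_eq_single i]
    · rw [map_smul, Finsupp.smul_apply, Module.Basis.repr_self, Finsupp.single_eq_same, smul_eq_mul, mul_one]
      rfl
    · intro l _ hl
      rw [map_smul, Finsupp.smul_apply, Module.Basis.repr_self, Finsupp.single_eq_of_ne hl.symm, smul_zero]
    · intro h
      exact absurd (Finset.mem_univ _) h
  have h1 : (T.restrict hTU).charpoly = (MLRat_T k T W hTW).charpoly.map (algebraMap ℚ ℂ) := by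
    rw [← LinearMap.charpoly_toMatrix (T.restrict hTU) bU, hmat, Matrix.charpoly_map,
      ← LinearMap.charpoly_toMatrix (MLRat_T k T W hTW) b]
  rw [← h1, MLLin_charpoly U T hTU]
  exact Dvd.intro _ rfl

theorem nf_dvd {F : Type} [Field F] {P Q : Polynomial F} (hQ : Q ≠ 0) (h : P ∣ Q) : nf P ≤ nf Q := by
  obtain ⟨R, rfl⟩ := h
  rw [nf_mul (left_ne_zero_of_mul hQ) (right_ne_zero_of_mul hQ)]
  exact Nat.le_add_right _ _

theorem rat_chain (k : ℕ) [FiniteDimensional ℂ (CuspForm 𝒮ℒ (k : ℤ))]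
    (T : Module.End ℂ (CuspForm 𝒮ℒ (k : ℤ))) (P : Polynomial ℤ) (hP : P.Monic)
    (hTP : T.charpoly = P.map (Int.castRingHom ℂ)) :
    letI := rModule k
    ∀ (r : ℕ) (W : Fin (r + 1) → Submodule ℚ (CuspForm 𝒮ℒ (k : ℤ))), StrictMono W →
      (∀ i, ∀ f ∈ W i, ∀ n, ∃ q : ℚ, coeff n (qExpansion 1 f) = (q : ℂ)) →
        (∀ i, ∀ f ∈ W i, T f ∈ W i) → r ≤ nf (P.map (Int.castRingHom ℚ)) := by
  letI := rModule k
  intro r W hmono hW hTW
  obtain ⟨hfd, hdvd⟩ := rat_dvd k T (W (Fin.last r)) (hW _) (hTW _)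
  have h1 : r ≤ nf (MLRat_T k T (W (Fin.last r)) (hTW _)).charpoly := by
    refine chain_nf _ r (fun i => (W i).comap (W (Fin.last r)).subtype) ?_ ?_
    · intro i j hij
      have h3 : W i < W j := hmono hij
      have h4 : W j ≤ W (Fin.last r) := hmono.monotone (Fin.le_last j)
      refine lt_of_le_of_ne (Submodule.comap_mono h3.le) ?_
      intro h5
      apply h3.ne
      have h6 := congrArg (Submodule.map (W (Fin.last r)).subtype) h5
      simp only [Submodule.map_comap_subtype] at h6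
      rwa [inf_eq_right.2 (h3.le.trans h4), inf_eq_right.2 h4] at h6
    · intro i x hx
      exact hTW i _ hx
  refine h1.trans (nf_dvd ((hP.map _).ne_zero) ?_)
  have h2 : P.map (Int.castRingHom ℂ) = (P.map (Int.castRingHom ℚ)).map (algebraMap ℚ ℂ) := by
    rw [Polynomial.map_map]
    rfl
  rw [hTP, h2] at hdvd
  exact (Polynomial.map_dvd_map' (algebraMap ℚ ℂ)).mp hdvd

end ML
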