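import Pool.Agent.Lib_MP_bfd926_ml.MLDefs

/-!
# The polynomials `ssP`, `bbP`, `eb`

Degrees; `ss_bb`: a Bezout certificate modulo `1153`.
-/

open PowerSeries MT2

set_option maxRecDepth 20000

namespace ML

/-- Sum of lists of coefficients modulo `1153`. -/
def MLPoly_add : List ℕ → List ℕ → List ℕ
  | [], m => m
  | (a :: l), [] => a :: l
  | (a :: l), (b :: m) => ((a + b) % 1153) :: MLPoly_add l m

/-- Scalar multiple of a list of coefficients modulo `1153`. -/
def MLPoly_smul (c : ℕ) : List ℕ → List ℕ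
  | [] => []
  | (a :: l) => (c * a % 1153) :: MLPoly_smul c l

/-- Product of lists of coefficients modulo `1153`. -/
def MLPoly_mul : List ℕ → List ℕ → List ℕ
  | [], _ => []
  | (a :: l), m => MLPoly_add (MLPoly_smul a m) (0 :: MLPoly_mul l m)

/-- Removing the zeros at the end. -/
def MLPoly_trim : List ℕ → List ℕ
  | [] => []
  | (a :: l) => if a = 0 ∧ MLPoly_trim l = [] then [] else a :: MLPoly_trim l

theorem MLPoly_cast_mod (n : ℕ) : ((n % 1153 : ℕ) : FL) = (n : FL) := by
  exact ZMod.natCast_mod n 1153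

theorem MLPoly_pl_add : ∀ l m : List ℕ, pl (MLPoly_add l m) = pl l + pl m
  | [], m => by simp [MLPoly_add, pl]
  | (a :: l), [] => by simp [MLPoly_add, pl]
  | (a :: l), (b :: m) => by
      rw [MLPoly_add, pl, pl, pl, MLPoly_pl_add l m, MLPoly_cast_mod, Nat.cast_add, Polynomial.C_add]
      ring

theorem MLPoly_pl_smul (c : ℕ) : ∀ l : List ℕ, pl (MLPoly_smul c l) = Polynomial.C (c : FL) * pl l
  | [] => by simp [MLPoly_smul, pl]
  | (a :: l) => by
      rw [MLPoly_smul, pl, pl, MLPoly_pl_smul c l, MLPoly_cast_mod, Nat.cast_mul, Polynomial.C_mul]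
      ring

theorem MLPoly_pl_mul : ∀ l m : List ℕ, pl (MLPoly_mul l m) = pl l * pl m
  | [], m => by simp [MLPoly_mul, pl]
  | (a :: l), m => by
      rw [MLPoly_mul, MLPoly_pl_add, MLPoly_pl_smul, pl, pl, MLPoly_pl_mul l m]
      simp only [Nat.cast_zero, Polynomial.C_0]
      ring

theorem MLPoly_pl_trim : ∀ l : List ℕ, pl (MLPoly_trim l) = pl l
  | [] => rfl
  | (a :: l) => by
      rw [MLPoly_trim]
      split_ifs with h
      · rw [show pl (a :: l) = Polynomial.C (a : FL) + Polynomial.X * pl l from rfl,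
          ← MLPoly_pl_trim l, h.1, h.2]
        simp [pl]
      · rw [pl, pl, MLPoly_pl_trim l]

theorem MLPoly_coeff : ∀ (l : List ℕ) (n : ℕ), (pl l).coeff n = ((l.getD n 0 : ℕ) : FL)
  | [], n => by simp [pl]
  | (a :: l), 0 => by
      rw [pl]
      simp
  | (a :: l), (n + 1) => by
      rw [pl, Polynomial.coeff_add, Polynomial.coeff_X_mul, MLPoly_coeff l n]
      simp

theorem MLPoly_deg_le (l : List ℕ) : (pl l).natDegree ≤ l.length - 1 := by
  rw [Polynomial.natDegree_le_iff_coeff_eq_zero]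
  intro n hn
  rw [MLPoly_coeff, List.getD_eq_default _ _ (by omega)]
  simp

theorem ssP_monic : ssP.Monic := by
  refine Polynomial.monic_of_natDegree_le_of_coeff_eq_one 96 (MLPoly_deg_le ssL) ?_
  show (pl ssL).coeff 96 = 1
  rw [MLPoly_coeff]
  show ((1 : ℕ) : FL) = 1
  simp

theorem ssP_deg : ssP.natDegree = 96 := by
  refine Polynomial.natDegree_eq_of_le_of_coeff_ne_zero (MLPoly_deg_le ssL) ?_
  show (pl ssL).coeff 96 ≠ 0
  rw [MLPoly_coeff]
  show ((1 : ℕ) : FL) ≠ 0
  simp

theorem bbP_monic : bbP.Monic := by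
  refine Polynomial.monic_of_natDegree_le_of_coeff_eq_one 95 (MLPoly_deg_le bbL) ?_
  show (pl bbL).coeff 95 = 1
  rw [MLPoly_coeff]
  show ((1 : ℕ) : FL) = 1
  simp

theorem bbP_deg : bbP.natDegree = 95 := by
  refine Polynomial.natDegree_eq_of_le_of_coeff_ne_zero (MLPoly_deg_le bbL) ?_
  show (pl bbL).coeff 95 ≠ 0
  rw [MLPoly_coeff]
  show ((1 : ℕ) : FL) ≠ 0
  simp

theorem MLPoly_monic_a (a : ℕ) : (if a = 0 then (1 : Polynomial FL) else Polynomial.X).Monic := by
  split_ifs
  · exact Polynomial.monic_one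
  · exact Polynomial.monic_X

theorem MLPoly_monic_e (e : ℕ) :
    (if e = 0 then (1 : Polynomial FL) else Polynomial.X - Polynomial.C 1728).Monic := by
  split_ifs
  · exact Polynomial.monic_one
  · exact Polynomial.monic_X_sub_C _

theorem eb_monic (a e : ℕ) : (eb a e).Monic := by
  delta eb
  exact (bbP_monic.mul (MLPoly_monic_a a)).mul (MLPoly_monic_e e)

theorem eb_deg (a e : ℕ) :
    (eb a e).natDegree = 95 + (if a = 0 then 0 else 1) + (if e = 0 then 0 else 1) := by
  delta eb
  rw [(bbP_monic.mul (MLPoly_monic_a a)).natDegree_mul (MLPoly_monic_e e),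
    bbP_monic.natDegree_mul (MLPoly_monic_a a), bbP_deg]
  congr 1
  · congr 1
    split_ifs
    · exact Polynomial.natDegree_one
    · exact Polynomial.natDegree_X
  · split_ifs
    · exact Polynomial.natDegree_one
    · exact Polynomial.natDegree_X_sub_C _

/-- The first Bezout cofactor. -/
def MLPoly_u : List ℕ :=
    [659, 685, 951, 807, 686, 495, 394, 74, 883, 1047, 580, 755, 114, 755, 556, 367, 1114, 1013,
    344, 1, 395, 429, 965, 638, 1103, 264, 130, 797, 185, 88, 670, 713, 500, 288, 507, 936, 121,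
    292, 798, 1107, 1036, 149, 17, 399, 973, 992, 882, 2, 1032, 437, 715, 739, 898, 1034, 938,
    1119, 583, 765, 1134, 142, 984, 879, 459, 290, 995, 53, 605, 1129, 367, 613, 551, 352, 670,
    821, 1012, 888, 1029, 77, 747, 554, 1053, 1027, 539, 33, 529, 1094, 828, 170, 693, 461, 594,
    565, 291, 873, 1064, 802, 530]

/-- The second Bezout cofactor. -/
def MLPoly_v : List ℕ :=
    [770, 980, 114, 478, 919, 1020, 795, 670, 61, 510, 611, 823, 224, 223, 335, 865, 780, 233, 744,
    485, 657, 102, 733, 1005, 182, 1026, 253, 191, 893, 638, 605, 625, 141, 1024, 112, 158, 279,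
    514, 995, 836, 515, 895, 393, 40, 592, 120, 345, 134, 351, 234, 531, 512, 578, 921, 886, 46,
    317, 133, 635, 952, 758, 994, 212, 704, 716, 455, 276, 718, 389, 809, 717, 938, 646, 878, 629,
    17, 484, 448, 754, 335, 154, 1039, 17, 1013, 1081, 135, 1144, 445, 159, 154, 1033, 772, 436,
    686, 1103, 623]

theorem MLPoly_cert :
    MLPoly_trim (MLPoly_add
      (MLPoly_mul MLPoly_v (MLPoly_mul (MLPoly_mul bbL [0, 1]) [578, 1]))
      (MLPoly_mul MLPoly_u ssL)) = [1] := by
  decide +kernel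

theorem ss_bb : IsCoprime ssP (bbP * Polynomial.X * (Polynomial.X - Polynomial.C 1728)) := by
  have hX : (Polynomial.X : Polynomial FL) = pl [0, 1] := by
    simp [pl]
  have hY : (Polynomial.X - Polynomial.C 1728 : Polynomial FL) = pl [578, 1] := by
    have h1 : (578 : FL) = -1728 := by decide +kernel
    simp only [pl, Nat.cast_one, Polynomial.C_1, mul_zero, add_zero, mul_one, Nat.cast_ofNat]
    rw [h1, Polynomial.C_neg]
    ring
  refine IsCoprime.symm ⟨pl MLPoly_v, pl MLPoly_u, ?_⟩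
  have h := congrArg pl MLPoly_cert
  rw [MLPoly_pl_trim, MLPoly_pl_add, MLPoly_pl_mul, MLPoly_pl_mul, MLPoly_pl_mul, MLPoly_pl_mul] at h
  have h1 : pl [1] = 1 := by simp [pl]
  rw [h1] at h
  rw [hY]
  rw [show (bbP * Polynomial.X : Polynomial FL) = pl bbL * pl [0, 1] from by rw [hX]; rfl]
  exact h

theorem ss_eb (a e : ℕ) : IsCoprime ssP (eb a e) := by
  refine IsCoprime.of_isCoprime_of_dvd_right ss_bb ?_
  delta eb
  refine mul_dvd_mul (mul_dvd_mul dvd_rfl ?_) ?_
  · split_ifs
    · exact one_dvd _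
    · exact dvd_rfl
  · split_ifs
    · exact one_dvd _
    · exact dvd_rfl

end ML
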