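import Pool.Agent.Lib_MP_bfd926_ml.MLRecC
import Pool.Agent.Lib_MP_bfd926_ml.MLPoly

/-!
# The matrix of the table

`pq T ssP` is the matrix with the columns `tt FL a e j (d - j) %ₘ ssP`.
-/

open PowerSeries MT2

namespace ML

theorem T_tt (d a e : ℕ) (ha : a ≤ 2) (he : e ≤ 1) (i : ℕ) (hi : i < d)
    (T : Polynomial FL →ₗ[FL] Polynomial FL)
    (hT : (T (Polynomial.X ^ i)).degree < (d : WithBot ℕ) ∧
      hk FL (wt d a e) (ev FL d a e (Polynomial.X ^ i)) = ev FL d a e (T (Polynomial.X ^ i))) :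
    T (Polynomial.X ^ i) = tt FL a e i (d - i) := by
  have h := tt_hk FL a e ha he i (d - i) (by omega)
  rw [show d - i + i = d by omega] at h
  have h1 : ev FL d a e (Polynomial.X ^ i) = up FL (bsZ d a e i) := by
    rw [ev_apply, Finset.sum_eq_single i]
    · rw [Polynomial.coeff_X_pow, if_pos rfl, one_smul]
    · intro b _ hb
      rw [Polynomial.coeff_X_pow, if_neg hb, zero_smul]
    · intro h2
      exact absurd (Finset.mem_range.mpr (by omega)) h2
  have hdt : (T (Polynomial.X ^ i)).natDegree ≤ d := Polynomial.natDegree_le_of_degree_le hT.1.le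
  have hd2 : (tt FL a e i (d - i)).natDegree ≤ d := (tt_deg FL a e ha he i (d - i)).trans (by omega)
  refine ev_inj' FL d a e _ _ hdt hd2 ?_
  rw [← hT.2, h1, h]

private theorem G_cast (n m : ℕ) (h : n = m) (f : ℕ → ℕ → FL) :
    (Matrix.of fun (i j : Fin n) => f i j).charpoly = (Matrix.of fun (i j : Fin m) => f i j).charpoly := by
  subst h
  rfl

theorem pq_char (d a e : ℕ) (ha : a ≤ 2) (he : e ≤ 1) (hd : 96 ≤ d)
    (T : Polynomial FL →ₗ[FL] Polynomial FL)
    (hT : ∀ i < 96, (T (Polynomial.X ^ i)).degree < (d : WithBot ℕ) ∧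
      hk FL (wt d a e) (ev FL d a e (Polynomial.X ^ i)) = ev FL d a e (T (Polynomial.X ^ i))) :
    (pq T ssP).charpoly =
      (Matrix.of fun (i j : Fin 96) => (tt FL a e j (d - j) %ₘ ssP).coeff i).charpoly := by
  have h := G_cast ssP.natDegree 96 ssP_deg fun i j => (T (Polynomial.X ^ j) %ₘ ssP).coeff i
  refine Eq.trans (b := _) h ?_
  have h2 : (Matrix.of fun (i j : Fin 96) => (T (Polynomial.X ^ (j : ℕ)) %ₘ ssP).coeff (i : ℕ)) =
      Matrix.of fun (i j : Fin 96) => (tt FL a e j (d - j) %ₘ ssP).coeff i := by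
    ext i j
    rw [Matrix.of_apply, Matrix.of_apply, T_tt d a e ha he j (by omega) T (hT j j.2)]
  rw [h2]

end ML
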