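import Pool.Agent.Lib_MP_bfd926_ml.MLPoly
import Pool.Agent.Lib_MP_bfd926_tb.TCols

/-!
# The supersingular polynomial of the table
-/

open Polynomial

namespace ML

/-- Digits in base 2048. -/
def code2 : List ℕ → ℕ
  | [] => 0
  | (a :: l) => a + 2048 * code2 l

theorem upk_code : ∀ l : List ℕ, (∀ a ∈ l, a < 2048) →
    (pl l : Polynomial (ZMod 1153)) = (MTT.upk l.length (code2 l) : Polynomial (ZMod MTT.L)) := by
  intro l
  induction l with
  | nil => intro _; rfl
  | cons a l ih =>
    intro h
    have ha : a < 2048 := h a (by simp)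
    have hl := ih (fun b hb => h b (by simp [hb]))
    have h1 : (a + 2048 * code2 l) % 2048 = a := by omega
    have h2 : (a + 2048 * code2 l) / 2048 = code2 l := by omega
    have e1 : MTT.upk (a :: l).length (code2 (a :: l)) =
        C ((a : ℕ) : ZMod MTT.L) + X * MTT.upk l.length (code2 l) := by
      show C (((a + 2048 * code2 l) % 2048 : ℕ) : ZMod MTT.L) +
        X * MTT.upk l.length ((a + 2048 * code2 l) / 2048) = _
      rw [h1, h2]
    have e2 : (pl (a :: l) : Polynomial (ZMod 1153)) = C ((a : ℕ) : ZMod 1153) + X * pl l := rfl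
    exact e2.trans ((congrArg (fun q : Polynomial (ZMod 1153) =>
      C ((a : ℕ) : ZMod 1153) + X * q) hl).trans e1.symm)

theorem ssL_lt : ∀ a ∈ ssL, a < 2048 := by decide +kernel

theorem ssL_length : ssL.length = 97 := by decide +kernel

theorem ssL_code : code2 ssL = MTT.SSLIT := by decide +kernel

theorem ssP_SSP : (ssP : Polynomial (ZMod 1153)) = (MTT.SSP : Polynomial (ZMod MTT.L)) := by
  have h := upk_code ssL ssL_lt
  rw [ssL_length, ssL_code, MTT.SSP_eq] at h
  exact h

end ML
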