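import Pool.Agent.Lib_MP_bfd926_ml.MLRecC
import Pool.Agent.Lib_MP_bfd926_tb.TDefs

/-!
# The columns of the table are the columns of the Hecke operator
-/

open Polynomial

namespace ML

theorem tau_tz (R : Type) [CommRing R] (a e : ℕ) (ha : a ≤ 2) (he : e ≤ 1) :
    ∀ c, MTT.tau R a e c = tz R a e (c + 1) := by
  have hZ1 : (C (MTT.b1 a e) : ℤ[X]) = lp (tbL 1 a e) := by
    ext i
    interval_cases a <;> interval_cases e <;>
      rw [lp_coeff _ (by decide)] <;>
      rcases i with _ | _ | _ | i <;> simp [tbL, MTT.b1, coeff_C]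
  have hZ2 : (X + C (MTT.b2 a e) : ℤ[X]) = lp (tbL 2 a e) := by
    ext i
    interval_cases a <;> interval_cases e <;>
      rw [lp_coeff _ (by decide)] <;>
      rcases i with _ | _ | _ | i <;> simp [tbL, MTT.b2, coeff_C, coeff_X]
  have hZ3 : (C (MTT.b1 a e - 48) * X + C (MTT.b3 a e) : ℤ[X]) = lp (tbL 3 a e) := by
    ext i
    interval_cases a <;> interval_cases e <;>
      rw [lp_coeff _ (by decide)] <;>
      rcases i with _ | _ | _ | i <;> simp [tbL, MTT.b1, MTT.b3, coeff_C, coeff_X]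
  have hb1 : C ((MTT.b1 a e : ℤ) : R) = (lp (tbL 1 a e)).map (Int.castRingHom R) := by
    rw [← hZ1, map_C]; rfl
  have hb2 : X + C ((MTT.b2 a e : ℤ) : R) = (lp (tbL 2 a e)).map (Int.castRingHom R) := by
    rw [← hZ2, Polynomial.map_add, map_X, map_C]; rfl
  have hb3 : C ((MTT.b1 a e - 48 : ℤ) : R) * X + C ((MTT.b3 a e : ℤ) : R) =
      (lp (tbL 3 a e)).map (Int.castRingHom R) := by
    rw [← hZ3, Polynomial.map_add, Polynomial.map_mul, map_X, map_C, map_C]; rfl
  have h3 : ∀ c, MTT.tau R a e c = tz R a e (c + 1) ∧ MTT.tau R a e (c + 1) = tz R a e (c + 2) ∧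
      MTT.tau R a e (c + 2) = tz R a e (c + 3) := by
    intro c
    induction c with
    | zero =>
      refine ⟨?_, ?_, ?_⟩
      · rw [tz]; exact hb1
      · rw [tz]; exact hb2
      · rw [tz]; exact hb3
    | succ c ih =>
      obtain ⟨h0, h1, h2⟩ := ih
      refine ⟨h1, h2, ?_⟩
      have e1 : MTT.tau R a e (c + 1 + 2) = -48 * MTT.tau R a e (c + 2) +
        (X - 768) * MTT.tau R a e (c + 1) - 4096 * MTT.tau R a e c := rfl
      have e2 : tz R a e (c + 1 + 3) = -48 * tz R a e (c + 3) +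
        (X - 768) * tz R a e (c + 2) - 4096 * tz R a e (c + 1) := by
        show tz R a e (c + 4) = _
        rw [tz]
      rw [e1, e2, h0, h1, h2]
  exact fun c => (h3 c).1

theorem tcol_tt (R : Type) [CommRing R] (d a e : ℕ) (ha : a ≤ 2) (he : e ≤ 1) (hd : 5 ≤ d) :
    ∀ i, i < d → MTT.tcol R d a e i = tt R a e i (d - i) := by
  obtain ⟨n, rfl⟩ : ∃ n, d = n + 5 := ⟨d - 5, by omega⟩
  have ht := tau_tz R a e ha he
  have f0 : MTT.tcol R (n + 5) a e 0 = tt R a e 0 (n + 5 - 0) := by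
    show MTT.tau R a e (n + 4) = tz R a e (n + 5)
    exact ht (n + 4)
  have g1 : ∀ c, MTT.up (tz R a e (c + 1)) (tz R a e (c + 2)) (tz R a e (c + 3)) =
      tt R a e 1 (c + 2) := fun c => (tt_B R a e 0 c).symm
  have g2 : ∀ c, MTT.up (tt R a e 1 (c + 1)) (tt R a e 1 (c + 2)) (tt R a e 1 (c + 3)) =
      tt R a e 2 (c + 2) := fun c => (tt_B R a e 1 c).symm
  have f1 : MTT.tcol R (n + 5) a e 1 = tt R a e 1 (n + 5 - 1) := by
    show MTT.up (MTT.tau R a e (n + 2)) (MTT.tau R a e (n + 3)) (MTT.tau R a e (n + 4)) =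
      tt R a e 1 (n + 4)
    rw [ht, ht, ht]
    exact g1 (n + 2)
  have f2 : MTT.tcol R (n + 5) a e 2 = tt R a e 2 (n + 5 - 2) := by
    show MTT.up (MTT.up (MTT.tau R a e n) (MTT.tau R a e (n + 1)) (MTT.tau R a e (n + 2)))
      (MTT.up (MTT.tau R a e (n + 1)) (MTT.tau R a e (n + 2)) (MTT.tau R a e (n + 3)))
      (MTT.up (MTT.tau R a e (n + 2)) (MTT.tau R a e (n + 3)) (MTT.tau R a e (n + 4))) =
      tt R a e 2 (n + 3)
    rw [ht, ht, ht, ht, ht]
    have k0 := g1 n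
    have k1 := g1 (n + 1)
    have k2 := g1 (n + 2)
    have n1 : n + 1 + 1 = n + 2 := rfl
    have n2 : n + 1 + 2 = n + 3 := rfl
    have n3 : n + 1 + 3 = n + 4 := rfl
    have n4 : n + 2 + 1 = n + 3 := rfl
    have n5 : n + 2 + 2 = n + 4 := rfl
    have n6 : n + 2 + 3 = n + 5 := rfl
    have n7 : n + 3 + 1 = n + 4 := rfl
    have n8 : n + 4 + 1 = n + 5 := rfl
    rw [n1, n2, n3] at k1
    rw [n4, n5, n6] at k2
    rw [n1, n4, n7, n8, k0, k1, k2]
    exact g2 (n + 1)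
  have key : ∀ i, (i < n + 5 → MTT.tcol R (n + 5) a e i = tt R a e i (n + 5 - i)) ∧
      (i + 1 < n + 5 → MTT.tcol R (n + 5) a e (i + 1) = tt R a e (i + 1) (n + 5 - (i + 1))) ∧
      (i + 2 < n + 5 → MTT.tcol R (n + 5) a e (i + 2) = tt R a e (i + 2) (n + 5 - (i + 2))) := by
    intro i
    induction i with
    | zero => exact ⟨fun _ => f0, fun _ => f1, fun _ => f2⟩
    | succ i ih =>
      refine ⟨ih.2.1, ih.2.2, ?_⟩
      intro hi
      have h0 := ih.1 (by omega)
      have h1 := ih.2.1 (by omega)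
      have h2 := ih.2.2 (by omega)
      have e1 : MTT.tcol R (n + 5) a e (i + 1 + 2) =
        (X ^ 2 - 1488 * X + 162000) * MTT.tcol R (n + 5) a e (i + 2) -
        (1488 * X ^ 2 + 40773375 * X + 8748000000) * MTT.tcol R (n + 5) a e (i + 1) -
        (X - 54000) ^ 3 * MTT.tcol R (n + 5) a e i := rfl
      obtain ⟨c, hc⟩ : ∃ c, n + 5 = i + 3 + (c + 1) := ⟨n + 5 - (i + 3) - 1, by omega⟩
      have a0 : n + 5 - i = c + 4 := by omega
      have a1 : n + 5 - (i + 1) = c + 3 := by omega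
      have a2 : n + 5 - (i + 2) = c + 2 := by omega
      have a3 : n + 5 - (i + 1 + 2) = c + 1 := by omega
      rw [e1, h0, h1, h2, a0, a1, a2, a3]
      exact (tt_C R a e i c).symm
  exact fun i => (key i).1

end ML
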