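import Pool.Agent.Lib_MP_bfd926_ml.MLTabDefs
import Pool.Agent.Lib_MP_bfd926_ml.MLEv
import Pool.Agent.Lib_MP_bfd926_ml.MLGlue
import Pool.Agent.Lib_MP_bfd926_ml.MLGlueT
import Pool.Agent.Lib_MP_bfd926_ml.MLGlueS
import Pool.Agent.Lib_MP_bfd926_tb.TSum

/-!
# The table

The final statement of the kernel computation.
-/

open PowerSeries MT2

namespace ML

attribute [local irreducible] ssP MTT.SSP

theorem Tm_eq (d a e : ℕ) (ha : a ≤ 2) (he : e ≤ 1) (hd : 96 ≤ d) :
    (Matrix.of fun (i j : Fin 96) => (tt FL a e j (d - j) %ₘ ssP).coeff i) =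
      (MTT.Tm d a e : Matrix (Fin 96) (Fin 96) (ZMod MTT.L)) := by
  ext i j
  have h := tcol_tt FL d a e ha he (by omega) j (by omega)
  exact congrArg₂ (fun (p q : Polynomial FL) => (p %ₘ q).coeff i) h.symm ssP_SSP

theorem TB_ccL : MTT.TB = ccL := by decide +kernel

theorem table (d a e : ℕ) (ha : a ≤ 2) (he : e ≤ 1) (h1 : 1156 ≤ wt d a e) (h2 : wt d a e ≤ 2308)
    (T : Polynomial FL →ₗ[FL] Polynomial FL)
    (hT : ∀ i < 96, (T (Polynomial.X ^ i)).degree < (d : WithBot ℕ) ∧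
      hk FL (wt d a e) (ev FL d a e (Polynomial.X ^ i)) = ev FL d a e (T (Polynomial.X ^ i))) :
    nf (pq T ssP).charpoly ≤ cc ((wt d a e - 1156) / 2) := by
  have hd : 96 ≤ d := by
    unfold wt at h1
    omega
  rw [pq_char d a e ha he hd T hT, Tm_eq d a e ha he hd]
  have h := MTT.table d a e ha he h1 h2
  unfold MTT.tb at h
  rw [TB_ccL] at h
  exact h

end ML
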