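import Pool.Agent.Lib_MP_bfd926_ml.MLPer
import Pool.Agent.Lib_MP_bfd926_ml.MLTab
import Pool.Agent.Lib_MP_bfd926_ml.MLRat

/-!
# The number of factors of the Hecke polynomials of level one

`nn_le`: the table and the periodicity; `NN_le`: induction with the potential `phi`; `thmE`: the theorem.
-/

open UpperHalfPlane MT2
open scoped MatrixGroups

namespace ML

attribute [local irreducible] ssP bbP

theorem par_ex (k : ℕ) (hk2 : Even k) (h2 : k ≠ 2) : ∃ d a e, a ≤ 2 ∧ e ≤ 1 ∧ wt d a e = k := by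
  obtain ⟨m, rfl⟩ := hk2
  have h3 : ∃ d a e, a ≤ 2 ∧ e ≤ 1 ∧ 6 * d + 2 * a + 3 * e = m := by
    rcases (by omega : m % 6 = 0 ∨ m % 6 = 1 ∨ m % 6 = 2 ∨ m % 6 = 3 ∨ m % 6 = 4 ∨ m % 6 = 5) with
      h | h | h | h | h | h
    · exact ⟨m / 6, 0, 0, by omega, by omega, by omega⟩
    · exact ⟨m / 6 - 1, 2, 1, by omega, by omega, by omega⟩
    · exact ⟨m / 6, 1, 0, by omega, by omega, by omega⟩
    · exact ⟨m / 6, 0, 1, by omega, by omega, by omega⟩
    · exact ⟨m / 6, 2, 0, by omega, by omega, by omega⟩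
    · exact ⟨m / 6, 1, 1, by omega, by omega, by omega⟩
  obtain ⟨d, a, e, ha, he, h⟩ := h3
  refine ⟨d, a, e, ha, he, ?_⟩
  unfold wt
  omega

theorem nn_le (d a e : ℕ) (ha : a ≤ 2) (he : e ≤ 1) (h1 : 1156 ≤ wt d a e) :
    nn d a e ≤ cc (((wt d a e - 1156) / 2) % 577) := by
  induction hk : wt d a e using Nat.strong_induction_on generalizing d a e with
  | _ k ih =>
    rw [hk] at h1
    have hd96 : 96 ≤ d := by
      unfold wt at hk
      omega
    rcases Nat.lt_or_ge 2308 k with h | h
    · have heven : Even (k - 1154) := by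
        unfold wt at hk
        rw [Nat.even_iff]
        omega
      obtain ⟨d0, a0, e0, ha0, he0, h0⟩ := par_ex (k - 1154) heven (by omega)
      have hd0 : 96 ≤ d0 := by
        unfold wt at h0
        omega
      have hk2 : Even k := by
        unfold wt at hk
        rw [Nat.even_iff]
        omega
      have h2310 : 2310 ≤ k := by
        rw [Nat.even_iff] at hk2
        omega
      have hw : wt (d - 96) a e = wt d0 a0 e0 + 2 := by
        rw [h0]
        unfold wt at hk ⊢
        omega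
      have h3 := step2 ha0 he0 ha he hw hd0
      have h4 : d - 96 + 96 = d := by omega
      rw [h4] at h3
      rw [h3]
      have h5 := ih (k - 1154) (by omega) d0 a0 e0 ha0 he0 (by omega) h0
      have h6 : ((k - 1154 - 1156) / 2) % 577 = ((k - 1156) / 2) % 577 := by omega
      rw [h6] at h5
      exact h5
    · have h3 := table d a e ha he (by omega) (by omega) (tau d a e) (fun i hi => ⟨tau_deg d a e _, by
        refine tau_ev d a e ha he _ ?_
        rw [Polynomial.degree_X_pow]
        exact WithBot.coe_lt_coe.mpr (by omega : i < d)⟩)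
      have h4 : ((k - 1156) / 2) % 577 = (k - 1156) / 2 := by omega
      rw [h4]
      rw [hk] at h3
      exact h3

set_option maxRecDepth 100000 in
theorem phi_step : ∀ h < 577, phi ((h + 1) % 577) + 10 * cc ((h + 576) % 577) ≤ phi h + 96 := by
  decide +kernel

set_option maxRecDepth 100000 in
theorem phi_le : ∀ h < 577, phi h ≤ 961 := by
  decide +kernel

set_option maxRecDepth 100000 in
theorem phi_base : ∀ d < 97, ∀ a < 3, ∀ e < 2, 12 * d + 4 * a + 6 * e < 1156 →
    9 * d ≤ phi ((12 * d + 4 * a + 6 * e) / 2 % 577) := by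
  decide +kernel

theorem NN_le (d a e : ℕ) (ha : a ≤ 2) (he : e ≤ 1) :
    10 * NN d a e ≤ d + phi (wt d a e / 2 % 577) := by
  induction d using Nat.strong_induction_on with
  | _ d ih =>
    rcases Nat.lt_or_ge (wt d a e) 1156 with h | h
    · have h1 : NN d a e ≤ d := by
        have h2 := nf_le_deg (P := (pm (tau d a e) d).charpoly) (Matrix.charpoly_monic _).ne_zero
        rw [Matrix.charpoly_natDegree_eq_dim, Fintype.card_fin] at h2
        exact h2
      have h3 := phi_base d (by unfold wt at h; omega) a (by omega) e (by omega) (by unfold wt at h; omega)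
      have h4 : wt d a e = 12 * d + 4 * a + 6 * e := rfl
      rw [h4]
      omega
    · have hd96 : 96 ≤ d := by
        unfold wt at h
        omega
      obtain ⟨d', rfl⟩ : ∃ d', d = d' + 96 := ⟨d - 96, by omega⟩
      have hw := wt_add d' a e
      have h1 := step1 d' a e ha he (by omega)
      have h2 := nn_le (d' + 96) a e ha he h
      have h3 := ih d' (by omega)
      have h4 := phi_step (wt (d' + 96) a e / 2 % 577) (Nat.mod_lt _ (by norm_num))
      have h5 : (wt (d' + 96) a e / 2 % 577 + 1) % 577 = wt d' a e / 2 % 577 := by omega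
      have h6 : (wt (d' + 96) a e / 2 % 577 + 576) % 577 = (wt (d' + 96) a e - 1156) / 2 % 577 := by
        omega
      rw [h5, h6] at h4
      omega

theorem NN_bound (d a e : ℕ) (ha : a ≤ 2) (he : e ≤ 1) : 10 * NN d a e ≤ d + 961 := by
  have h1 := NN_le d a e ha he
  have h2 := phi_le (wt d a e / 2 % 577) (Nat.mod_lt _ (by norm_num))
  omega

theorem thmE (k : ℕ) (hk2 : Even k) :
    ∃ (_ : FiniteDimensional ℂ (CuspForm 𝒮ℒ (k : ℤ))) (T : Module.End ℂ (CuspForm 𝒮ℒ (k : ℤ))),
      (∀ (f : CuspForm 𝒮ℒ (k : ℤ)) (z : ℍ),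
        T f z = 2 ^ ((k : ℤ) - 1) * f (ofComplex (2 * z)) +
          (f (ofComplex (z / 2)) + f (ofComplex ((z + 1) / 2))) / 2) ∧
      (∀ s : Multiset (Polynomial ℚ), (∀ q ∈ s, 0 < q.natDegree) →
        s.prod.map (algebraMap ℚ ℂ) ∣ T.charpoly →
          10 * Multiset.card s ≤ Module.finrank ℂ (CuspForm 𝒮ℒ (k : ℤ)) + 961) ∧
      (letI : Module ℚ (CuspForm 𝒮ℒ (k : ℤ)) :=
          Module.compHom (CuspForm 𝒮ℒ (k : ℤ)) (algebraMap ℚ ℂ)
        ∀ (r : ℕ) (W : Fin (r + 1) → Submodule ℚ (CuspForm 𝒮ℒ (k : ℤ))), StrictMono W →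
          (∀ i, ∀ f ∈ W i, ∀ n, ∃ q : ℚ, (qExpansion 1 f).coeff n = (q : ℂ)) →
            (∀ i, ∀ f ∈ W i, T f ∈ W i) →
              10 * r ≤ Module.finrank ℂ (CuspForm 𝒮ℒ (k : ℤ)) + 961) := by
  -- the integral polynomial
  have key : ∃ (_ : FiniteDimensional ℂ (CuspForm 𝒮ℒ (k : ℤ))), ∃ P : Polynomial ℤ, P.Monic ∧
      10 * nf (P.map (Int.castRingHom (ZMod 1153))) ≤ Module.finrank ℂ (CuspForm 𝒮ℒ (k : ℤ)) + 961 ∧
      ∀ T : Module.End ℂ (CuspForm 𝒮ℒ (k : ℤ)), (∀ f z, T f z = T2f k f z) →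
        T.charpoly = P.map (Int.castRingHom ℂ) := by
    rcases eq_or_ne k 2 with rfl | hne
    · obtain ⟨hfin, hrk⟩ := cusp_dim 1 0 le_rfl
      refine ⟨hfin, 1, Polynomial.monic_one, ?_, ?_⟩
      · have h1 := nf_le_deg (F := ZMod 1153)
          (P := (1 : Polynomial ℤ).map (Int.castRingHom (ZMod 1153))) (by simp)
        simp only [Polynomial.map_one, Polynomial.natDegree_one] at h1 ⊢
        omega
      · intro T _
        haveI := hfin
        have h2 : T.charpoly.natDegree = 0 := by
          rw [LinearMap.charpoly_natDegree]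
          exact hrk
        rw [Polynomial.map_one]
        exact (LinearMap.charpoly_monic T).natDegree_eq_zero.mp h2
    · obtain ⟨d, a, e, ha, he, rfl⟩ := par_ex k hk2 hne
      have h4 : wt d a e = 4 * (3 * d + a + e) + 2 * e := by
        unfold wt
        ring
      obtain ⟨hfin, hrk⟩ := cusp_dim e (3 * d + a + e) he
      rw [← h4] at hfin hrk
      have hrk' : Module.finrank ℂ (CuspForm 𝒮ℒ ((wt d a e : ℕ) : ℤ)) = d := by
        rw [hrk]
        omega
      refine ⟨hfin, (MZ d a e).charpoly, Matrix.charpoly_monic _, ?_, ?_⟩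
      · rw [hrk']
        have h5 : nf ((MZ d a e).charpoly.map (Int.castRingHom (ZMod 1153))) = NN d a e := by
          rw [NN, pm_tau, Matrix.charpoly_map]
        rw [h5]
        exact NN_bound d a e ha he
      · intro T hT
        have h : a ≤ 2 ∧ e ≤ 1 := ⟨ha, he⟩
        have h6 := (Classical.choose_spec (hk_matrix d a e h.1 h.2)).2 hfin T hT
        rw [← Matrix.charpoly_map, MZ, dif_pos h]
        exact h6
  obtain ⟨hfin, P, hP, hbound, hT⟩ := key
  obtain ⟨T, hT1, -⟩ := exists_T2 k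
  have hcp := hT T hT1
  have hnf := nf_bound 1153 P hP
  refine ⟨hfin, T, hT1, ?_, ?_⟩
  · intro s hs hdvd
    have h2 : P.map (Int.castRingHom ℂ) = (P.map (Int.castRingHom ℚ)).map (algebraMap ℚ ℂ) := by
      rw [Polynomial.map_map]
      rfl
    rw [hcp, h2] at hdvd
    have h3 := (Polynomial.map_dvd_map' (algebraMap ℚ ℂ)).mp hdvd
    have h4 := fac_bound 1153 P hP s hs h3
    omega
  · intro r W hmono hW hTW
    have h1 := rat_chain k T P hP hcp r W hmono hW hTW
    omega

end ML
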