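import Pool.Agent.Lib_MP_bfd926_ml.MLStr
import Pool.Agent.Lib_MP_bfd926_ml.MLDer

/-!
# The Hecke operator on the integral structure

`hk_int`: `ev_cusp`, `exists_T2` (`SGb`), `cusp_ev`, `int_ev` and injectivity of `up ℂ`.
`hk_P2`: let `φ = ev ℂ d a e (X ^ i)`, `k = wt d a e`, `P = up ℂ p2Z`,
`∂ φ = th φ - (k / 12) * P * φ` (`ser_ev`: it is `ev ℂ d2 a2 e2 q`, `q.degree < d2`). Then, by `hk_th`,
`(k / 12) * (hk (k + 2) (P * φ) - 2 * P * hk k φ) = 2 * ∂ (hk k φ) - hk (k + 2) (∂ φ)` is a cusp form of weight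
`k + 2`, and `k ≠ 0`; so the left hand side without `k / 12` is `ev ℂ d2 a2 e2 s`, and it has integral coefficients.
`hk_matrix`: the coordinates of `hk_int`; for the characteristic polynomial of `T` use the basis of
`CuspForm` given by `ev_cusp` of `X ^ j`, `j < d` (`cusp_dim`: the dimension is `d`), `LinearMap.charpoly_toMatrix`.
-/

open PowerSeries MT2 UpperHalfPlane
open scoped MatrixGroups

namespace ML

/-- The `q`-expansion. -/
private noncomputable def MLHeckeQ (k : ℤ) : CuspForm 𝒮ℒ k →ₗ[ℂ] PowerSeries ℂ where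
  toFun f := qExpansion 1 f
  map_add' f g := ModularForm.qExpansion_add one_pos one_mem_strictPeriods_SL f g
  map_smul' a f := ModularForm.qExpansion_smul one_pos one_mem_strictPeriods_SL a f

private theorem MLHeckeQ_inj (k : ℤ) (f g : CuspForm 𝒮ℒ k) (h : MLHeckeQ k f = MLHeckeQ k g) :
    f = g := by
  have h0 : MLHeckeQ k (f - g) = 0 := by rw [map_sub, h, sub_self]
  have h1 : CuspForm.toModularFormₗ (f - g) = 0 :=
    (ModularForm.qExpansion_eq_zero_iff one_pos one_mem_strictPeriods_SL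
      (CuspForm.toModularFormₗ (f - g))).1 h0
  have h2 : f - g = 0 := by
    ext z
    exact DFunLike.congr_fun h1 z
  exact sub_eq_zero.1 h2

private theorem MLHecke_hk (k : ℕ) (hk1 : 1 ≤ k) (φ : PowerSeries ℂ) :
    uu φ + C ((2 : ℂ) ^ k / 2) * dbl φ = hk ℂ k φ := by
  show uu φ + C ((2 : ℂ) ^ k / 2) * dbl φ = uu φ + (2 : ℂ) ^ (k - 1) • dbl φ
  have h : (2 : ℂ) ^ k / 2 = 2 ^ (k - 1) := by
    obtain ⟨m, rfl⟩ : ∃ m, k = m + 1 := ⟨k - 1, by omega⟩
    rw [pow_succ, Nat.add_sub_cancel]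
    field_simp
  rw [h, ← PowerSeries.smul_eq_C_mul]

private theorem MLHecke_cusp (d a e : ℕ) (ha : a ≤ 2) (he : e ≤ 1) (p : Polynomial ℂ)
    (hp : p.degree < d) :
    ∃ t : Polynomial ℂ, t.degree < d ∧ hk ℂ (wt d a e) (ev ℂ d a e p) = ev ℂ d a e t := by
  rcases Nat.eq_zero_or_pos d with rfl | hd
  · have h0 : p = 0 := by
      rw [← Polynomial.degree_eq_bot]
      exact Nat.WithBot.lt_zero_iff.1 hp
    refine ⟨0, ?_, ?_⟩
    · rw [Polynomial.degree_zero]
      exact WithBot.bot_lt_coe _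
    · rw [h0, map_zero, map_zero]
  · obtain ⟨f, hf⟩ := ev_cusp d a e p hp
    obtain ⟨T, hT1, hT2⟩ := exists_T2 (wt d a e)
    obtain ⟨t, ht1, ht2⟩ := cusp_ev d a e ha he (T f)
    refine ⟨t, ht1, ?_⟩
    rw [← ht2, hT2, hf, MLHecke_hk _ (by unfold wt; omega)]

private theorem MLHecke_evX (d a e i : ℕ) :
    up ℂ (ev ℤ d a e (Polynomial.X ^ i)) = ev ℂ d a e (Polynomial.X ^ i) := by
  show PowerSeries.map (Int.castRingHom ℂ) (ev ℤ d a e (Polynomial.X ^ i)) = _
  rw [ev_map, Polynomial.map_pow, Polynomial.map_X]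

private theorem MLHecke_int (d a e : ℕ) (t : Polynomial ℂ) (ht : t.degree < d) (φ : PowerSeries ℤ)
    (h : up ℂ φ = ev ℂ d a e t) : ∃ q : Polynomial ℤ, q.degree < d ∧ φ = ev ℤ d a e q := by
  obtain ⟨q, hq1, hq2⟩ := int_ev d a e t (Polynomial.natDegree_le_of_degree_le ht.le) φ h.symm
  refine ⟨q, ?_, hq2.symm⟩
  rw [← hq1, Polynomial.degree_map_eq_of_injective (RingHom.injective_int _)] at ht
  exact ht

theorem hk_int (d a e : ℕ) (ha : a ≤ 2) (he : e ≤ 1) (i : ℕ) (hi : i < d) :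
    ∃ t : Polynomial ℤ, t.degree < d ∧
      hk ℤ (wt d a e) (ev ℤ d a e (Polynomial.X ^ i)) = ev ℤ d a e t := by
  have hX : (Polynomial.X ^ i : Polynomial ℂ).degree < d := by
    rw [Polynomial.degree_X_pow]
    exact_mod_cast hi
  obtain ⟨t, ht1, ht2⟩ := MLHecke_cusp d a e ha he (Polynomial.X ^ i) hX
  refine MLHecke_int d a e t ht1 _ ?_
  rw [← ht2, ← MLHecke_evX]
  exact hk_map (Int.castRingHom ℂ) (wt d a e) _

theorem hk_P2 (d a e d2 a2 e2 : ℕ) (ha : a ≤ 2) (he : e ≤ 1) (ha2 : a2 ≤ 2) (he2 : e2 ≤ 1)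
    (hw : wt d2 a2 e2 = wt d a e + 2) (i : ℕ) (hi : i < d) :
    ∃ s : Polynomial ℤ, s.degree < d2 ∧
      hk ℤ (wt d a e + 2) (p2Z * ev ℤ d a e (Polynomial.X ^ i)) -
        2 * (p2Z * hk ℤ (wt d a e) (ev ℤ d a e (Polynomial.X ^ i))) = ev ℤ d2 a2 e2 s := by
  have hX : (Polynomial.X ^ i : Polynomial ℂ).degree < d := by
    rw [Polynomial.degree_X_pow]
    exact_mod_cast hi
  have hk1 : 1 ≤ wt d a e := by
    unfold wt
    omega
  have hkC : (wt d a e : ℂ) ≠ 0 := by
    rw [Nat.cast_ne_zero]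
    omega
  obtain ⟨t, ht1, ht2⟩ := MLHecke_cusp d a e ha he (Polynomial.X ^ i) hX
  obtain ⟨q1, -, hq1, hd1⟩ := ser_ev ℂ two_ne_zero three_ne_zero d a e d2 a2 e2 ha he ha2 he2 hw
    (Polynomial.X ^ i) (Polynomial.natDegree_le_of_degree_le hX.le)
  obtain ⟨q2, -, hq2, hd2⟩ := ser_ev ℂ two_ne_zero three_ne_zero d a e d2 a2 e2 ha he ha2 he2 hw
    t (Polynomial.natDegree_le_of_degree_le ht1.le)
  obtain ⟨t1, ht3, ht4⟩ := MLHecke_cusp d2 a2 e2 ha2 he2 q1 (hq1 hX)
  have h1 := hk_th ℂ (wt d a e) hk1 (ev ℂ d a e (Polynomial.X ^ i))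
  rw [ht2, hd1, hd2, map_add, map_smul, ← hw, ht4] at h1
  have h2 : ((wt d a e : ℂ) / 12) • (hk ℂ (wt d2 a2 e2) (up ℂ p2Z * ev ℂ d a e (Polynomial.X ^ i)) -
      2 * (up ℂ p2Z * ev ℂ d a e t)) = ev ℂ d2 a2 e2 ((2 : ℂ) • q2 - t1) := by
    rw [map_sub, map_smul]
    simp only [PowerSeries.smul_eq_C_mul, map_ofNat] at h1 ⊢
    linear_combination h1
  have h3 : ((12 : ℂ) / (wt d a e : ℂ)) * ((wt d a e : ℂ) / 12) = 1 := by
    field_simp
  refine MLHecke_int d2 a2 e2 (((12 : ℂ) / (wt d a e : ℂ)) • ((2 : ℂ) • q2 - t1)) ?_ _ ?_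
  · refine (Polynomial.degree_smul_le _ _).trans_lt ((Polynomial.degree_sub_le _ _).trans_lt
      (max_lt ((Polynomial.degree_smul_le _ _).trans_lt (hq2 ht1)) ht3))
  · rw [map_smul, ← h2, smul_smul, h3, one_smul, ← ht2, ← MLHecke_evX, hw]
    unfold up
    simp only [map_sub, hk_map, map_mul, map_ofNat]

theorem hk_matrix (d a e : ℕ) (ha : a ≤ 2) (he : e ≤ 1) : ∃ M : Matrix (Fin d) (Fin d) ℤ,
    (∀ j : Fin d, hk ℤ (wt d a e) (ev ℤ d a e (Polynomial.X ^ (j : ℕ))) =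
      ev ℤ d a e (∑ i : Fin d, Polynomial.C (M i j) * Polynomial.X ^ (i : ℕ))) ∧
    ∀ (_ : Module.Finite ℂ (CuspForm 𝒮ℒ ((wt d a e : ℕ) : ℤ)))
      (T : Module.End ℂ (CuspForm 𝒮ℒ ((wt d a e : ℕ) : ℤ))), (∀ f z, T f z = T2f (wt d a e : ℕ) f z) →
      T.charpoly = (M.map (Int.castRingHom ℂ)).charpoly := by
  choose t ht1 ht2 using fun j : Fin d => hk_int d a e ha he (j : ℕ) j.2
  have hsum : ∀ (R : Type) [CommRing R] (p : Polynomial R), p.degree < d →
      p = ∑ i : Fin d, Polynomial.C (p.coeff (i : ℕ)) * Polynomial.X ^ (i : ℕ) := by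
    intro R _ p hp
    rw [Fin.sum_univ_eq_sum_range (fun i => Polynomial.C (p.coeff i) * Polynomial.X ^ i) d]
    rcases Nat.eq_zero_or_pos d with rfl | hd
    · have h0 : p = 0 := by
        rw [← Polynomial.degree_eq_bot]
        exact Nat.WithBot.lt_zero_iff.1 hp
      rw [h0]
      simp
    · have hn : p.natDegree < d := by
        rcases eq_or_ne p 0 with h0 | h0
        · rw [h0, Polynomial.natDegree_zero]
          exact hd
        · exact (Polynomial.natDegree_lt_iff_degree_lt h0).2 hp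
      exact Polynomial.as_sum_range_C_mul_X_pow' p hn
  refine ⟨Matrix.of fun i j => (t j).coeff (i : ℕ), ?_, ?_⟩
  · intro j
    rw [ht2 j]
    congr 1
    exact hsum ℤ (t j) (ht1 j)
  · intro _ T hT
    have hk1 : ∀ _ : Fin d, 1 ≤ wt d a e := by
      intro j
      have := j.2
      unfold wt
      omega
    choose f hf using fun j : Fin d => ev_cusp d a e (Polynomial.X ^ (j : ℕ)) (by
      rw [Polynomial.degree_X_pow]
      exact_mod_cast j.2)
    have hfQ : ∀ j : Fin d, MLHeckeQ _ (f j) = ev ℂ d a e (Polynomial.X ^ (j : ℕ)) := hf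
    have hlin : ∀ c : Fin d → ℂ, MLHeckeQ _ (∑ j, c j • f j) =
        ev ℂ d a e (∑ j, Polynomial.C (c j) * Polynomial.X ^ (j : ℕ)) := by
      intro c
      rw [map_sum, map_sum]
      refine Finset.sum_congr rfl fun j _ => ?_
      rw [map_smul, hfQ, ← Polynomial.smul_eq_C_mul, map_smul]
    have hco : ∀ (c : Fin d → ℂ) (i : Fin d),
        (∑ j, Polynomial.C (c j) * Polynomial.X ^ (j : ℕ)).coeff (i : ℕ) = c i := by
      intro c i
      rw [Polynomial.finsetSum_coeff, Finset.sum_eq_single i]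
      · simp
      · intro j _ hj
        rw [Polynomial.coeff_C_mul_X_pow, if_neg]
        intro h
        exact hj (Fin.ext h.symm)
      · intro h
        exact absurd (Finset.mem_univ i) h
    have hdeg : ∀ c : Fin d → ℂ,
        (∑ j, Polynomial.C (c j) * Polynomial.X ^ (j : ℕ)).natDegree ≤ d := by
      intro c
      refine Polynomial.natDegree_sum_le_of_forall_le _ _ fun j _ => ?_
      exact (Polynomial.natDegree_C_mul_X_pow_le _ _).trans j.2.le
    have hli : LinearIndependent ℂ f := by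
      rw [Fintype.linearIndependent_iff]
      intro c hc i
      have h1 : ev ℂ d a e (∑ j, Polynomial.C (c j) * Polynomial.X ^ (j : ℕ)) = ev ℂ d a e 0 := by
        rw [← hlin, hc, map_zero, map_zero]
      have h2 := ev_inj' ℂ d a e _ _ (hdeg c) (by simp) h1
      rw [← hco c i, h2, Polynomial.coeff_zero]
    have hsp : ⊤ ≤ Submodule.span ℂ (Set.range f) := by
      intro g _
      obtain ⟨p, hp1, hp2⟩ := cusp_ev d a e ha he g
      have h1 : g = ∑ j : Fin d, p.coeff (j : ℕ) • f j := by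
        apply MLHeckeQ_inj
        rw [hlin, ← hsum ℂ p hp1]
        exact hp2
      rw [h1]
      exact Submodule.sum_mem _ fun j _ => Submodule.smul_mem _ _ (Submodule.subset_span ⟨j, rfl⟩)
    obtain ⟨T', hT1, hT2⟩ := exists_T2 (wt d a e)
    have hTT : T = T' := by
      refine LinearMap.ext fun g => DFunLike.ext _ _ fun z => ?_
      rw [hT, hT1]
    have hTf : ∀ j : Fin d, T (f j) = ∑ i : Fin d, ((t j).coeff (i : ℕ) : ℂ) • f i := by
      intro j
      apply MLHeckeQ_inj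
      rw [hlin, hTT]
      show qExpansion 1 (T' (f j)) = _
      rw [hT2, hf, MLHecke_hk _ (hk1 j), ← MLHecke_evX]
      have h1 : up ℂ (hk ℤ (wt d a e) (ev ℤ d a e (Polynomial.X ^ (j : ℕ)))) =
          up ℂ (ev ℤ d a e (t j)) := by rw [ht2]
      unfold up at h1
      rw [hk_map, ev_map _ d a e (t j)] at h1
      refine h1.trans ?_
      congr 1
      rw [hsum ℂ ((t j).map (Int.castRingHom ℂ)) (Polynomial.degree_map_le.trans_lt (ht1 j))]
      refine Finset.sum_congr rfl fun i _ => ?_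
      rw [Polynomial.coeff_map]
      rfl
    let b := Module.Basis.mk hli hsp
    have hb : ∀ j, b j = f j := fun j => Module.Basis.mk_apply hli hsp j
    rw [← LinearMap.charpoly_toMatrix T b]
    congr 1
    ext i j
    rw [LinearMap.toMatrix_apply, hb, hTf]
    have h1 : (∑ i : Fin d, ((t j).coeff (i : ℕ) : ℂ) • f i) =
        ∑ i : Fin d, ((t j).coeff (i : ℕ) : ℂ) • b i := by
      refine Finset.sum_congr rfl fun i _ => ?_
      rw [hb]
    rw [h1, b.repr_sum_self]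
    rfl

end ML
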