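import Pool.Agent.Lib_MP_bfd926_ml.MLDefs

/-!
# Linear algebra

`pm_block`: in the basis `m * X ^ j` (`j < d'`), `X ^ i` (`i < natDegree m`) of the polynomials of degree
`< d' + natDegree m` the matrix of `T` is block triangular, with the blocks `pm T' d'` and `pq T m`.
`pq_twist`: with `B = pq (multiplication by b) m`, invertible as `b` is prime to `m`:
`pq T₂ m * B = B * (c • pq T m)`. For a polynomial `p` of degree `< natDegree m ≤ d` write
`b * p = m * s + r`; `m * s` has degree `< d + natDegree b`.
-/

open Polynomial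

namespace ML

theorem nf_mul {F : Type} [Field F] {P Q : Polynomial F} (hP : P ≠ 0) (hQ : Q ≠ 0) :
    nf (P * Q) = nf P + nf Q := by
  unfold nf
  rw [Multiset.card_eq_card_of_rel (UniqueFactorizationMonoid.factors_mul hP hQ), Multiset.card_add]

theorem nf_le_deg {F : Type} [Field F] {P : Polynomial F} (hP : P ≠ 0) : nf P ≤ P.natDegree := by
  unfold nf
  have h := UniqueFactorizationMonoid.factors_prod hP
  have h1 : (UniqueFactorizationMonoid.factors P).prod.natDegree = P.natDegree :=
    natDegree_eq_of_degree_eq (degree_eq_degree_of_associated h)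
  have h0 : (0 : Polynomial F) ∉ UniqueFactorizationMonoid.factors P := fun h0 =>
    (UniqueFactorizationMonoid.irreducible_of_factor _ h0).ne_zero rfl
  rw [← h1, natDegree_multiset_prod _ h0]
  have h2 : ∀ x ∈ (UniqueFactorizationMonoid.factors P).map natDegree, 1 ≤ x := by
    intro x hx
    obtain ⟨q, hq, rfl⟩ := Multiset.mem_map.1 hx
    exact (UniqueFactorizationMonoid.irreducible_of_factor _ hq).natDegree_pos
  have h3 := Multiset.card_nsmul_le_sum (s := (UniqueFactorizationMonoid.factors P).map natDegree)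
    (a := 1) h2
  simpa using h3

private theorem MLLin_nf_unit {F : Type} [Field F] {P : Polynomial F} {c : F} (hc : c ≠ 0) :
    nf (C c * P) = nf P := by
  unfold nf
  apply Associated.card_factors_eq
  have hu : IsUnit (C c : Polynomial F) := isUnit_C.2 (isUnit_iff_ne_zero.2 hc)
  exact associated_unit_mul_left P (C c) hu

private theorem MLLin_nf_equiv {F : Type} [Field F] (e : Polynomial F ≃+* Polynomial F)
    (P : Polynomial F) : nf (e P) = nf P := by
  by_cases hP : P = 0
  · rw [hP, map_zero]
  unfold nf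
  have h : Multiset.Rel Associated (UniqueFactorizationMonoid.factors (e P))
      ((UniqueFactorizationMonoid.factors P).map e) := by
    apply UniqueFactorizationMonoid.factors_unique
    · exact UniqueFactorizationMonoid.irreducible_of_factor
    · intro x hx
      obtain ⟨q, hq, rfl⟩ := Multiset.mem_map.1 hx
      exact (MulEquiv.irreducible_iff e).2 (UniqueFactorizationMonoid.irreducible_of_factor _ hq)
    · have h1 := UniqueFactorizationMonoid.factors_prod hP
      have h2 := UniqueFactorizationMonoid.factors_prod (a := e P) (by simpa using hP)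
      refine h2.trans ?_
      have h3 : ((UniqueFactorizationMonoid.factors P).map e).prod =
          e (UniqueFactorizationMonoid.factors P).prod := (map_multiset_prod e _).symm
      rw [h3]
      exact (h1.map e).symm
  rw [Multiset.card_eq_card_of_rel h, Multiset.card_map]

theorem nf_smul {F : Type} [Field F] {ι : Type} [Fintype ι] [DecidableEq ι] (c : F) (hc : c ≠ 0)
    (M : Matrix ι ι F) : nf (c • M).charpoly = nf M.charpoly := by
  let _ : Invertible c⁻¹ := invertibleOfNonzero (inv_ne_zero hc)
  let e : Polynomial F ≃+* Polynomial F := (algEquivCMulXAddC (c⁻¹) 0).toRingEquiv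
  have he : ∀ p : Polynomial F, e p = p.comp (C c⁻¹ * X) := by
    intro p
    change (algEquivCMulXAddC (c⁻¹) 0) p = _
    rw [algEquivCMulXAddC_apply, aeval_def, comp, eval₂_eq_eval_map, eval₂_eq_eval_map]
    simp
  have hX : e X = C c⁻¹ * X := by rw [he]; simp
  have hC : ∀ a : F, e (C a) = C a := by intro a; rw [he]; simp
  have hdet : e M.charpoly = (e.toRingHom.mapMatrix (Matrix.charmatrix M)).det := by
    rw [← RingHom.map_det]
    rfl
  have hmat : (C c : Polynomial F) • e.toRingHom.mapMatrix (Matrix.charmatrix M) =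
      Matrix.charmatrix (c • M) := by
    ext1 i j
    by_cases hij : i = j
    · subst hij
      have h1 : (e.toRingHom.mapMatrix (Matrix.charmatrix M)) i i = e (X - C (M i i)) := by
        rw [RingHom.mapMatrix_apply, Matrix.map_apply, Matrix.charmatrix_apply_eq]
        rfl
      rw [Matrix.smul_apply, h1, Matrix.charmatrix_apply_eq, map_sub, hX, hC, smul_eq_mul,
        mul_sub, ← mul_assoc, ← C_mul, mul_inv_cancel₀ hc, Matrix.smul_apply, smul_eq_mul, C_mul]
      simp
    · have h1 : (e.toRingHom.mapMatrix (Matrix.charmatrix M)) i j = e (- C (M i j)) := by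
        rw [RingHom.mapMatrix_apply, Matrix.map_apply, Matrix.charmatrix_apply_ne _ _ _ hij]
        rfl
      rw [Matrix.smul_apply, h1, Matrix.charmatrix_apply_ne _ _ _ hij, map_neg, hC, smul_eq_mul,
        Matrix.smul_apply, smul_eq_mul, C_mul]
      ring
  have hfin : (c • M).charpoly = C (c ^ Fintype.card ι) * e M.charpoly := by
    rw [hdet, Matrix.charpoly, ← hmat, Matrix.det_smul, C_pow]
  rw [hfin, MLLin_nf_unit (pow_ne_zero _ hc), MLLin_nf_equiv]

private theorem MLLin_sum {F : Type} [Field F] (f : Polynomial F →ₗ[F] F) (n : ℕ)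
    (p : Polynomial F) (hp : p.degree < (n : WithBot ℕ)) :
    ∑ j : Fin n, f (X ^ (j : ℕ)) * p.coeff (j : ℕ) = f p := by
  have h1 : p = ∑ j : Fin n, p.coeff (j : ℕ) • (X : Polynomial F) ^ (j : ℕ) := by
    ext k
    rw [finsetSum_coeff]
    simp only [coeff_smul, coeff_X_pow, smul_eq_mul, mul_ite, mul_one, mul_zero]
    by_cases hk : k < n
    · rw [Finset.sum_eq_single (⟨k, hk⟩ : Fin n)]
      · simp
      · intro b _ hb
        rw [if_neg]
        intro h
        exact hb (Fin.ext h.symm)
      · intro h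
        exact absurd (Finset.mem_univ _) h
    · rw [coeff_eq_zero_of_degree_lt (lt_of_lt_of_le hp (by exact_mod_cast not_lt.1 hk))]
      symm
      apply Finset.sum_eq_zero
      intro b _
      rw [if_neg]
      intro h
      have := b.2
      omega
  conv_rhs => rw [h1]
  rw [map_sum]
  refine Finset.sum_congr rfl fun j _ => ?_
  rw [map_smul, smul_eq_mul, mul_comm]

private theorem MLLin_sim {F : Type} [Field F] {n : ℕ} (A N B : Matrix (Fin n) (Fin n) F)
    (h : A * B = B * N) (hB : B.det ≠ 0) : A.charpoly = N.charpoly := by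
  have hu : IsUnit B.det := isUnit_iff_ne_zero.2 hB
  have h1 : A = B * (N * B⁻¹) := by
    rw [← mul_assoc, ← h, mul_assoc, Matrix.mul_nonsing_inv _ hu, mul_one]
  rw [h1, Matrix.charpoly_mul_comm, mul_assoc, Matrix.nonsing_inv_mul _ hu, mul_one]

theorem pm_block {F : Type} [Field F] (m : Polynomial F) (hm : m.Monic) (d' : ℕ)
    (T T' : Polynomial F →ₗ[F] Polynomial F)
    (hT : ∀ p : Polynomial F, p.degree < ((d' + m.natDegree : ℕ) : WithBot ℕ) →
      (T p).degree < ((d' + m.natDegree : ℕ) : WithBot ℕ))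
    (hT' : ∀ p : Polynomial F, p.degree < (d' : WithBot ℕ) → (T' p).degree < (d' : WithBot ℕ))
    (hc : ∀ p : Polynomial F, p.degree < (d' : WithBot ℕ) → T (m * p) = m * T' p) :
    (pm T (d' + m.natDegree)).charpoly = (pm T' d').charpoly * (pq T m).charpoly := by
  classical
  have hmd : m.degree = (m.natDegree : WithBot ℕ) := degree_eq_natDegree hm.ne_zero
  let K : Matrix (Fin d') (Fin m.natDegree) F :=
    Matrix.of fun i j => (T (X ^ (j : ℕ)) /ₘ m).coeff (i : ℕ)
  let N : Matrix (Fin d' ⊕ Fin m.natDegree) (Fin d' ⊕ Fin m.natDegree) F :=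
    Matrix.fromBlocks (pm T' d') K 0 (pq T m)
  let σ : Fin d' ⊕ Fin m.natDegree ≃ Fin (d' + m.natDegree) := finSumFinEquiv
  let bb : Fin d' ⊕ Fin m.natDegree → Polynomial F :=
    Sum.elim (fun j => m * X ^ (j : ℕ)) (fun j => X ^ (j : ℕ))
  let B : Matrix (Fin (d' + m.natDegree)) (Fin (d' + m.natDegree)) F :=
    Matrix.of fun i j => (bb (σ.symm j)).coeff (i : ℕ)
  have hbb : ∀ s, (bb s).degree < ((d' + m.natDegree : ℕ) : WithBot ℕ) := by
    intro s
    rcases s with j | j
    · change (m * X ^ (j : ℕ)).degree < _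
      rw [degree_mul, degree_X_pow, hmd, ← Nat.cast_add, Nat.cast_lt]
      have := j.2
      omega
    · change (X ^ (j : ℕ)).degree < _
      rw [degree_X_pow, Nat.cast_lt]
      have := j.2
      omega
  have hNs : (Matrix.reindex σ σ N).charpoly = N.charpoly := Matrix.charpoly_reindex σ N
  have hN : N.charpoly = (pm T' d').charpoly * (pq T m).charpoly :=
    Matrix.charpoly_fromBlocks_zero₂₁ ..
  rw [← hN, ← hNs]
  apply MLLin_sim _ _ B
  · ext1 i t
    obtain ⟨s, rfl⟩ := σ.surjective t
    have hL : (pm T (d' + m.natDegree) * B) i (σ s) = (T (bb s)).coeff (i : ℕ) := by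
      rw [Matrix.mul_apply]
      have h1 := MLLin_sum ((lcoeff F (i : ℕ)).comp T) (d' + m.natDegree) (bb s) (hbb s)
      simp only [LinearMap.comp_apply, lcoeff_apply] at h1
      rw [← h1]
      refine Finset.sum_congr rfl fun j _ => ?_
      simp [pm, B]
    have hR : (B * Matrix.reindex σ σ N) i (σ s) = ∑ u, (bb u).coeff (i : ℕ) * N u s := by
      rw [Matrix.mul_apply, ← σ.sum_comp]
      refine Finset.sum_congr rfl fun u _ => ?_
      simp [B]
    rw [hL, hR, Fintype.sum_sum_type]
    rcases s with j | j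
    · have h1 : T (bb (Sum.inl j)) = m * T' (X ^ (j : ℕ)) := by
        apply hc
        rw [degree_X_pow, Nat.cast_lt]
        exact j.2
      have h2 := MLLin_sum ((lcoeff F (i : ℕ)).comp (LinearMap.mulLeft F m)) d' (T' (X ^ (j : ℕ)))
        (hT' _ (by rw [degree_X_pow, Nat.cast_lt]; exact j.2))
      simp only [LinearMap.comp_apply, lcoeff_apply, LinearMap.mulLeft_apply] at h2
      rw [h1, ← h2]
      simp [bb, N, pm]
    · have h1 : T (bb (Sum.inr j)) = T (X ^ (j : ℕ)) := rfl
      have hjd : (X ^ (j : ℕ) : Polynomial F).degree < ((d' + m.natDegree : ℕ) : WithBot ℕ) :=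
        hbb (Sum.inr j)
      have h3 : (T (X ^ (j : ℕ)) /ₘ m).degree < (d' : WithBot ℕ) := by
        by_cases hlt : (T (X ^ (j : ℕ))).degree < m.degree
        · rw [(divByMonic_eq_zero_iff hm).2 hlt, degree_zero]
          exact WithBot.bot_lt_coe _
        · have h4 := degree_add_divByMonic hm (not_lt.1 hlt)
          have h5 := hT _ hjd
          rw [← h4, hmd] at h5
          rw [Nat.cast_add, add_comm] at h5
          exact (WithBot.add_lt_add_iff_right (by simp)).1 h5
      have h2 := MLLin_sum ((lcoeff F (i : ℕ)).comp (LinearMap.mulLeft F m)) d' _ h3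
      have h4 := MLLin_sum (lcoeff F (i : ℕ)) m.natDegree (T (X ^ (j : ℕ)) %ₘ m)
        (by rw [← hmd]; exact degree_modByMonic_lt _ hm)
      simp only [LinearMap.comp_apply, lcoeff_apply, LinearMap.mulLeft_apply] at h2 h4
      have h5 : (T (X ^ (j : ℕ))).coeff (i : ℕ) =
          (T (X ^ (j : ℕ)) %ₘ m).coeff (i : ℕ) + (m * (T (X ^ (j : ℕ)) /ₘ m)).coeff (i : ℕ) := by
        rw [← coeff_add, modByMonic_add_div]
      rw [h1, h5, ← h2, ← h4, add_comm]
      simp [bb, N, pq, K]
  · intro hdet
    obtain ⟨v, hv0, hv⟩ := Matrix.exists_mulVec_eq_zero_iff.2 hdet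
    apply hv0
    let A₁ : Polynomial F := ∑ j : Fin d', C (v (σ (Sum.inl j))) * X ^ (j : ℕ)
    let R₁ : Polynomial F := ∑ j : Fin m.natDegree, C (v (σ (Sum.inr j))) * X ^ (j : ℕ)
    have hA : A₁.degree < (d' : WithBot ℕ) := degree_sum_fin_lt _
    have hR : R₁.degree < m.degree := by rw [hmd]; exact degree_sum_fin_lt _
    have hz : R₁ + m * A₁ = 0 := by
      ext k
      by_cases hk : k < d' + m.natDegree
      · have h1 := congrFun hv ⟨k, hk⟩
        rw [Matrix.mulVec, dotProduct, ← σ.sum_comp, Fintype.sum_sum_type] at h1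
        simp only [Matrix.of_apply, Equiv.symm_apply_apply, Sum.elim_inl, Sum.elim_inr, B, bb,
          Pi.zero_apply] at h1
        rw [coeff_zero, ← h1, coeff_add, add_comm]
        congr 1
        · simp only [A₁, Finset.mul_sum, finsetSum_coeff]
          refine Finset.sum_congr rfl fun j _ => ?_
          rw [show m * (C (v (σ (Sum.inl j))) * X ^ (j : ℕ)) =
            C (v (σ (Sum.inl j))) * (m * X ^ (j : ℕ)) by ring, coeff_C_mul, mul_comm]
        · simp only [R₁, finsetSum_coeff]
          refine Finset.sum_congr rfl fun j _ => ?_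
          rw [coeff_C_mul, mul_comm]
      · apply coeff_eq_zero_of_degree_lt
        refine lt_of_lt_of_le ?_ (show ((d' + m.natDegree : ℕ) : WithBot ℕ) ≤ (k : WithBot ℕ) by
          exact_mod_cast not_lt.1 hk)
        refine lt_of_le_of_lt (degree_add_le _ _) (max_lt ?_ ?_)
        · refine lt_of_lt_of_le hR ?_
          rw [hmd]
          exact_mod_cast Nat.le_add_left _ _
        · rw [degree_mul, hmd, Nat.cast_add, add_comm]
          exact (WithBot.add_lt_add_iff_right (by simp)).2 hA
    obtain ⟨hq, hr⟩ := div_modByMonic_unique A₁ R₁ hm ⟨hz, hR⟩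
    rw [zero_divByMonic] at hq
    rw [zero_modByMonic] at hr
    ext t
    obtain ⟨s, rfl⟩ := σ.surjective t
    have hco : ∀ (n : ℕ) (w : Fin n → F) (j : Fin n),
        (∑ j : Fin n, C (w j) * X ^ (j : ℕ)).coeff (j : ℕ) = w j := by
      intro n w j
      rw [finsetSum_coeff, Finset.sum_eq_single j]
      · simp
      · intro b _ hb
        rw [coeff_C_mul, coeff_X_pow, if_neg, mul_zero]
        intro h
        exact hb (Fin.ext h.symm)
      · intro h
        exact absurd (Finset.mem_univ _) h
    rcases s with j | j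
    · have := hco d' (fun j => v (σ (Sum.inl j))) j
      rw [Pi.zero_apply, ← this]
      change A₁.coeff _ = 0
      rw [← hq, coeff_zero]
    · have := hco m.natDegree (fun j => v (σ (Sum.inr j))) j
      rw [Pi.zero_apply, ← this]
      change R₁.coeff _ = 0
      rw [← hr, coeff_zero]

theorem pq_twist {F : Type} [Field F] (m b : Polynomial F) (hm : m.Monic) (hco : IsCoprime m b) (d : ℕ)
    (hd : m.natDegree ≤ d) (T T₂ : Polynomial F →ₗ[F] Polynomial F) (c : F)
    (h1 : ∀ p : Polynomial F, p.degree < (d : WithBot ℕ) → m ∣ T₂ (b * p) - c • (b * T p))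
    (h2 : ∀ p : Polynomial F, (m * p).degree < ((d + b.natDegree : ℕ) : WithBot ℕ) → m ∣ T₂ (m * p)) :
    (pq T₂ m).charpoly = (c • pq T m).charpoly := by
  have hmd : m.degree = (m.natDegree : WithBot ℕ) := degree_eq_natDegree hm.ne_zero
  let Bb : Polynomial F → Matrix (Fin m.natDegree) (Fin m.natDegree) F := fun g =>
    Matrix.of fun i j => ((g * X ^ (j : ℕ)) %ₘ m).coeff (i : ℕ)
  have hmod : ∀ (p : Polynomial F), (p %ₘ m).degree < (m.natDegree : WithBot ℕ) := by
    intro p
    rw [← hmd]
    exact degree_modByMonic_lt _ hm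
  have hsub : ∀ p : Polynomial F, m ∣ p - p %ₘ m := by
    intro p
    refine ⟨p /ₘ m, ?_⟩
    have := modByMonic_add_div p m
    linear_combination (-1 : Polynomial F) * this
  have hprod : ∀ (g p : Polynomial F) (i : Fin m.natDegree),
      ∑ k : Fin m.natDegree, Bb g i k * (p %ₘ m).coeff (k : ℕ) = ((g * p) %ₘ m).coeff (i : ℕ) := by
    intro g p i
    have h3 := MLLin_sum (((lcoeff F (i : ℕ)).comp (modByMonicHom m)).comp (LinearMap.mulLeft F g))
      m.natDegree (p %ₘ m) (hmod p)
    simp only [LinearMap.comp_apply, lcoeff_apply, LinearMap.mulLeft_apply,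
      modByMonicHom_apply] at h3
    have h4 : (g * (p %ₘ m)) %ₘ m = (g * p) %ₘ m := by
      apply modByMonic_eq_of_dvd_sub hm
      rw [← mul_sub]
      have h5 := (dvd_neg.2 (hsub p)).mul_left g
      rwa [neg_sub] at h5
    rw [h4] at h3
    exact h3
  apply MLLin_sim _ _ (Bb b)
  · ext1 i j
    have hL : (pq T₂ m * Bb b) i j = (T₂ ((b * X ^ (j : ℕ)) %ₘ m) %ₘ m).coeff (i : ℕ) := by
      rw [Matrix.mul_apply]
      have h3 := MLLin_sum (((lcoeff F (i : ℕ)).comp (modByMonicHom m)).comp T₂)
        m.natDegree ((b * X ^ (j : ℕ)) %ₘ m) (hmod _)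
      simp only [LinearMap.comp_apply, lcoeff_apply, modByMonicHom_apply] at h3
      exact h3
    have hR : (Bb b * c • pq T m) i j = ((c • (b * T (X ^ (j : ℕ)))) %ₘ m).coeff (i : ℕ) := by
      rw [Matrix.mul_smul, Matrix.smul_apply, Matrix.mul_apply, smul_modByMonic, coeff_smul]
      exact congrArg (fun x => c • x) (hprod b (T (X ^ (j : ℕ))) i)
    rw [hL, hR]
    congr 1
    apply modByMonic_eq_of_dvd_sub hm
    have hj : (X ^ (j : ℕ) : Polynomial F).degree < (d : WithBot ℕ) := by
      rw [degree_X_pow, Nat.cast_lt]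
      exact lt_of_lt_of_le j.2 hd
    have h3 := h1 _ hj
    have h4 := modByMonic_add_div (b * X ^ (j : ℕ)) m
    have h5 : m ∣ T₂ (m * ((b * X ^ (j : ℕ)) /ₘ m)) := by
      apply h2
      have h6 : m * ((b * X ^ (j : ℕ)) /ₘ m) = b * X ^ (j : ℕ) - (b * X ^ (j : ℕ)) %ₘ m := by
        linear_combination h4
      rw [h6]
      refine lt_of_le_of_lt (degree_sub_le _ _) (max_lt ?_ ?_)
      · refine lt_of_le_of_lt degree_le_natDegree ?_
        rw [Nat.cast_lt]
        refine lt_of_le_of_lt natDegree_mul_le ?_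
        rw [natDegree_X_pow]
        have := j.2
        omega
      · refine lt_of_lt_of_le (hmod _) ?_
        rw [Nat.cast_le]
        omega
    have h7 : T₂ ((b * X ^ (j : ℕ)) %ₘ m) =
        T₂ (b * X ^ (j : ℕ)) - T₂ (m * ((b * X ^ (j : ℕ)) /ₘ m)) := by
      rw [← map_sub]
      congr 1
      linear_combination h4
    rw [h7]
    have h8 := dvd_sub h3 h5
    have h9 : T₂ (b * X ^ (j : ℕ)) - T₂ (m * ((b * X ^ (j : ℕ)) /ₘ m)) -
        c • (b * T (X ^ (j : ℕ))) = T₂ (b * X ^ (j : ℕ)) - c • (b * T (X ^ (j : ℕ))) -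
        T₂ (m * ((b * X ^ (j : ℕ)) /ₘ m)) := by ring
    rw [h9]
    exact h8
  · obtain ⟨u, g, hug⟩ := hco
    have hmul : Bb b * Bb g = 1 := by
      ext1 i j
      rw [Matrix.mul_apply]
      have h3 := hprod b (g * X ^ (j : ℕ)) i
      have h4 : (b * (g * X ^ (j : ℕ))) %ₘ m = X ^ (j : ℕ) := by
        have h5 : (X ^ (j : ℕ) : Polynomial F) %ₘ m = X ^ (j : ℕ) := by
          rw [modByMonic_eq_self_iff hm, hmd, degree_X_pow, Nat.cast_lt]
          exact j.2
        refine Eq.trans ?_ h5
        apply modByMonic_eq_of_dvd_sub hm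
        refine ⟨-(u * X ^ (j : ℕ)), ?_⟩
        linear_combination (X ^ (j : ℕ)) * hug
      rw [h4] at h3
      refine h3.trans ?_
      rw [coeff_X_pow, Matrix.one_apply]
      by_cases hij : i = j
      · simp [hij]
      · rw [if_neg hij, if_neg]
        intro h
        exact hij (Fin.ext h)
    intro h0
    have h6 := congrArg Matrix.det hmul
    rw [Matrix.det_mul, h0, zero_mul, Matrix.det_one] at h6
    exact zero_ne_one h6

open Module.Basis in
theorem MLLin_charpoly {K V : Type} [Field K] [AddCommGroup V] [Module K V]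
    [FiniteDimensional K V] (W : Submodule K V) (e : V →ₗ[K] V) (he : W ≤ W.comap e) :
    e.charpoly = (e.restrict he).charpoly * (W.mapQ W e he).charpoly := by
  classical
  let m := Module.Free.ChooseBasisIndex K W
  let bW : Module.Basis m K W := Module.Free.chooseBasis K W
  let n := Module.Free.ChooseBasisIndex K (V ⧸ W)
  let bQ : Module.Basis n K (V ⧸ W) := Module.Free.chooseBasis K (V ⧸ W)
  let b := sumQuot bW bQ
  let A : Matrix m m K := LinearMap.toMatrix bW bW (e.restrict he)
  let B : Matrix m n K := Matrix.of fun i l ↦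
    ((sumQuot bW bQ).repr (e ((sumQuot bW bQ) (Sum.inr l)))) (Sum.inl i)
  let D : Matrix n n K := LinearMap.toMatrix bQ bQ (W.mapQ W e he)
  suffices LinearMap.toMatrix b b e = Matrix.fromBlocks A B 0 D by
    rw [← LinearMap.charpoly_toMatrix e b, this, ← LinearMap.charpoly_toMatrix _ bW,
      ← LinearMap.charpoly_toMatrix _ bQ, Matrix.charpoly_fromBlocks_zero₂₁]
  ext u v
  cases u with
  | inl i =>
    cases v with
    | inl k =>
      simp only [b, sumQuot_inl, Matrix.fromBlocks_apply₁₁, A, LinearMap.toMatrix_apply]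
      apply sumQuot_repr_inl_of_mem
    | inr l => simp [b, LinearMap.toMatrix_apply, Matrix.fromBlocks_apply₁₂, B]
  | inr j =>
    cases v with
    | inl k =>
      suffices W.mkQ (e (bW k)) = 0 by simp [LinearMap.toMatrix_apply, b, this]
      rw [← LinearMap.mem_ker, Submodule.ker_mkQ]
      exact he (Submodule.coe_mem (bW k))
    | inr l =>
      simp only [LinearMap.toMatrix_apply, sumQuot_repr_inr,
        Matrix.fromBlocks_apply₂₂, b, D]
      rw [← sumQuot_inr bW bQ l, W.mapQ_apply]
      simp

private theorem MLLin_nf_pos {F : Type} [Field F] {P : Polynomial F} (hP : P ≠ 0)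
    (hd : 1 ≤ P.natDegree) : 1 ≤ nf P := by
  unfold nf
  rw [Nat.one_le_iff_ne_zero]
  intro h
  rw [Multiset.card_eq_zero] at h
  have h1 := UniqueFactorizationMonoid.factors_prod hP
  rw [h, Multiset.prod_zero] at h1
  have h2 := natDegree_eq_of_degree_eq (degree_eq_degree_of_associated h1)
  rw [natDegree_one] at h2
  omega

/-- chains of stable subspaces -/
theorem chain_nf {K V : Type} [Field K] [AddCommGroup V] [Module K V] [FiniteDimensional K V]
    (T : Module.End K V) (r : ℕ) (W : Fin (r + 1) → Submodule K V) (hW : StrictMono W)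
    (hT : ∀ i, ∀ x ∈ W i, T x ∈ W i) : r ≤ nf T.charpoly := by
  revert V
  induction r with
  | zero => intro V _ _ _ T W hW hT; exact Nat.zero_le _
  | succ r ih =>
    intro V _ _ _ T W hW hT
    let U : Submodule K V := W (Fin.castSucc (Fin.last r))
    have hU : U ≤ U.comap T := fun x hx => hT _ x hx
    have hlt : U < W (Fin.last (r + 1)) := hW (Fin.castSucc_lt_last _)
    have hUtop : U < ⊤ := lt_of_lt_of_le hlt le_top
    rw [MLLin_charpoly U T hU]
    have hm1 := LinearMap.charpoly_monic (T.restrict hU)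
    have hm2 := LinearMap.charpoly_monic (U.mapQ U T hU)
    rw [nf_mul hm1.ne_zero hm2.ne_zero]
    have h1 : 1 ≤ nf (U.mapQ U T hU).charpoly := by
      apply MLLin_nf_pos hm2.ne_zero
      rw [LinearMap.charpoly_natDegree]
      have h3 := Submodule.finrank_quotient_add_finrank U
      have h4 := Submodule.finrank_lt hUtop.ne
      omega
    have h2 : r ≤ nf (T.restrict hU).charpoly := by
      apply ih (T.restrict hU) (fun i => (W (Fin.castSucc i)).comap U.subtype)
      · intro i j hij
        have h3 : W (Fin.castSucc i) < W (Fin.castSucc j) := hW (Fin.castSucc_lt_castSucc_iff.2 hij)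
        have h4 : W (Fin.castSucc j) ≤ U := hW.monotone (Fin.castSucc_le_castSucc_iff.2 (Fin.le_last j))
        refine lt_of_le_of_ne (Submodule.comap_mono h3.le) ?_
        intro h5
        apply h3.ne
        have h6 := congrArg (Submodule.map U.subtype) h5
        simp only [Submodule.map_comap_subtype] at h6
        rwa [inf_eq_right.2 (h3.le.trans h4), inf_eq_right.2 h4] at h6
      · intro i x hx
        exact hT _ _ hx
    omega

end ML
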