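import Pool.Agent.Lib_MP_bfd926_ml.MLStr

/-!
# The Eisenstein series of weight `l - 1`

`k = l - 1`, `EisensteinSeries.E_qExpansion_coeff`: the coefficients of `E k` are
`-(2 * k / bernoulli k) * σ m`. By `vonStaudt_clausen (k / 2)` (`NumberTheory/Bernoulli.lean`)
`bernoulli k + ∑ p, 1 / p` is an integer, the sum over the primes `p ≤ k + 1` with `p - 1 ∣ k`; `l` is one
of them, so `l * bernoulli k = u / v` with integers `u`, `v` prime to `l` (`v` the product of the
other primes). So `u * E k` has the `q`-expansion `up ℂ φ` with `φ : PowerSeries ℤ` and `φ ≡ u` modulo `l`.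
Now `form_ev d a e`, `int_ev` and `ev_map` (`ℤ → ZMod l`), divide by `u`. (For `l = 5`: `k = 4`.)
-/

open PowerSeries MT2
open scoped MatrixGroups

namespace ML

private theorem MLOne_bern (l : ℕ) [Fact l.Prime] (k' : ℕ) (hk : 2 * k' + 1 = l) :
    ∃ (B : ℤ) (v : ℕ), ¬ (l : ℤ) ∣ B ∧ (B : ℚ) = l * v * bernoulli (2 * k') := by
  classical
  have hlp : l.Prime := Fact.out
  obtain ⟨N, hN⟩ := Bernoulli.vonStaudt_clausen k'
  obtain ⟨S, hS⟩ : ∃ S : Finset ℕ,
      S = (Finset.range (2 * k' + 2)).filter (fun p => p.Prime ∧ (p - 1) ∣ 2 * k') := ⟨_, rfl⟩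
  have hlS : l ∈ S := by
    rw [hS, Finset.mem_filter, Finset.mem_range]
    refine ⟨by omega, hlp, ?_⟩
    have : l - 1 = 2 * k' := by omega
    rw [this]
  rw [← hS] at hN
  obtain ⟨v, hv⟩ : ∃ v : ℕ, v = ∏ p ∈ S.erase l, p := ⟨_, rfl⟩
  have hvl : ¬ l ∣ v := by
    intro h
    rw [hv, hlp.prime.dvd_finset_prod_iff] at h
    obtain ⟨p, hp, hlp'⟩ := h
    rw [Finset.mem_erase, hS, Finset.mem_filter] at hp
    exact hp.1 ((Nat.prime_dvd_prime_iff_eq hlp hp.2.2.1).1 hlp').symm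
  obtain ⟨w, hw⟩ : ∃ w : ℕ, (w : ℚ) = v * ∑ p ∈ S.erase l, (1 : ℚ) / p := by
    refine ⟨∑ p ∈ S.erase l, v / p, ?_⟩
    rw [Nat.cast_sum, Finset.mul_sum]
    refine Finset.sum_congr rfl fun p hp => ?_
    have hpv : p ∣ v := by
      rw [hv]
      exact Finset.dvd_prod_of_mem _ hp
    have hp0 : (p : ℚ) ≠ 0 := by
      rw [Finset.mem_erase, hS, Finset.mem_filter] at hp
      exact_mod_cast hp.2.2.1.ne_zero
    rw [Nat.cast_div hpv hp0]
    ring
  refine ⟨l * v * N - v - l * w, v, ?_, ?_⟩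
  · intro h
    apply hvl
    have h1 : (l : ℤ) ∣ (v : ℤ) := by
      have h2 : (v : ℤ) = l * (v * N - w) - (l * v * N - v - l * w) := by ring
      rw [h2]
      exact dvd_sub (dvd_mul_right _ _) h
    exact_mod_cast h1
  · have hl0 : (l : ℚ) ≠ 0 := by exact_mod_cast hlp.ne_zero
    rw [← Finset.add_sum_erase S (fun p : ℕ => (1 : ℚ) / p) hlS] at hN
    push_cast
    rw [hw]
    have h3 : bernoulli (2 * k') = N - (1 : ℚ) / l - ∑ p ∈ S.erase l, (1 : ℚ) / p := by
      rw [hN]; ring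
    rw [h3]
    field_simp

theorem one_ev (l : ℕ) [Fact l.Prime] (hl : 5 ≤ l) (d a e : ℕ) (ha : a ≤ 2) (he : e ≤ 1)
    (hw : wt d a e + 1 = l) :
    ∃ p : Polynomial (ZMod l), p.natDegree ≤ d ∧ ev (ZMod l) d a e p = 1 := by
  have hlp : l.Prime := Fact.out
  obtain ⟨k', hk'⟩ : ∃ k', wt d a e = 2 * k' := by
    unfold wt
    exact ⟨6 * d + 2 * a + 3 * e, by ring⟩
  obtain ⟨B, v, hB, hBv⟩ := MLOne_bern l k' (by omega)
  have hk3 : 3 ≤ wt d a e := by omega
  have hkev : Even (wt d a e) := ⟨k', by omega⟩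
  obtain ⟨E, hE⟩ : ∃ E : ModularForm 𝒮ℒ ((wt d a e : ℕ) : ℤ), E = (B : ℂ) • ModularForm.E hk3 := ⟨_, rfl⟩
  obtain ⟨φ, hφ⟩ : ∃ φ : PowerSeries ℤ, φ = PowerSeries.mk fun m =>
      if m = 0 then B else -(2 * (wt d a e : ℤ) * l * v) * (ArithmeticFunction.sigma (wt d a e - 1) m : ℤ) :=
    ⟨_, rfl⟩
  have hB0 : (B : ℂ) ≠ 0 := by
    intro h
    apply hB
    have : B = 0 := by exact_mod_cast h
    rw [this]
    exact dvd_zero _
  have hBc : (B : ℂ) = l * v * (bernoulli (wt d a e) : ℂ) := by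
    rw [hk']
    have := congrArg (fun x : ℚ => (x : ℂ)) hBv
    push_cast at this
    exact this
  have hq : UpperHalfPlane.qExpansion 1 E = up ℂ φ := by
    rw [hE, FunLike.coe_smul, ModularForm.qExpansion_smul one_pos one_mem_strictPeriods_SL]
    ext m
    rw [PowerSeries.coeff_smul, EisensteinSeries.E_qExpansion_coeff hk3 hkev m, hφ]
    unfold up
    rw [coeff_map, coeff_mk]
    by_cases hm : m = 0
    · rw [if_pos hm, if_pos hm, smul_eq_mul, mul_one, eq_intCast]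
    · rw [if_neg hm, if_neg hm, smul_eq_mul, eq_intCast]
      push_cast
      have hb : (bernoulli (wt d a e) : ℂ) ≠ 0 := by
        intro h
        rw [h, mul_zero] at hBc
        exact hB0 hBc
      rw [hBc]
      field_simp
  obtain ⟨p, hp, hpe⟩ := form_ev d a e ha he E
  obtain ⟨q, hq1, hq2⟩ := int_ev d a e p hp φ (by rw [← hpe, hq])
  have hqd : q.natDegree ≤ d := by
    rw [← hq1, Polynomial.natDegree_map_eq_of_injective Int.cast_injective] at hp
    exact hp
  have hBl : (B : ZMod l) ≠ 0 := by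
    intro h
    exact hB ((ZMod.intCast_zmod_eq_zero_iff_dvd B l).1 h)
  have hev : ev (ZMod l) d a e (q.map (Int.castRingHom (ZMod l))) = C (B : ZMod l) := by
    rw [← ev_map, hq2, hφ]
    ext m
    rw [coeff_map, coeff_mk, coeff_C]
    by_cases hm : m = 0
    · rw [if_pos hm, if_pos hm, eq_intCast]
    · rw [if_neg hm, if_neg hm, eq_intCast]
      push_cast
      rw [ZMod.natCast_self]
      ring
  refine ⟨(B : ZMod l)⁻¹ • q.map (Int.castRingHom (ZMod l)), ?_, ?_⟩
  · exact (Polynomial.natDegree_smul_le _ _).trans ((Polynomial.natDegree_map_le).trans hqd)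
  · rw [map_smul, hev]
    ext m
    rw [PowerSeries.coeff_smul, coeff_C, coeff_one]
    by_cases hm : m = 0
    · rw [if_pos hm, if_pos hm, smul_eq_mul, inv_mul_cancel₀ hBl]
    · rw [if_neg hm, if_neg hm, smul_zero]

end ML
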