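import Pool.Agent.Lib_MP_bfd926_ml.MLDer
import Pool.Agent.Lib_MP_bfd926_ml.MLOne

/-!
# The supersingular polynomial and the polynomial of `E₂`

`p2_ev`: `one_ev` in the weight `l - 1`, `th 1 = 0` and `ser_ev`: `0 = (l - 1) / 12 * P + ev d a e q`.
Let `ev FL 96 0 0 p = 1` (`one_ev`), `a i = p.coeff i`. Put `P = up FL p2Z`.
`th` of `Δ ^ m * Q ^ n`, `m = 96 - i`, `n = 3 * i`, is (`th_mul`, `ram_D`, `ram_Q`, `th_map`)
`(m + n / 3) * P * Δ ^ m * Q ^ n - (n / 3) * Δ ^ m * Q ^ (n - 1) * R` and `m + n / 3 = 96 = -1 / 12` in `FL`; so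
`0 = th 1` gives `P = -12 * ∑ i * a i * Δ ^ (96 - i) * Q ^ (3 * i - 1) * R`, i.e. `P = ev FL 95 2 1 b`,
`b j = -12 * (j + 1) * a (j + 1)`, `b = -12 * p.derivative`.
`th` of this: `Δ ^ m * Q ^ n * R`, `m = 95 - j`, `n = 3 * j + 2`, has the derivative
`(m + n / 3 + 1 / 2) * P * Δ ^ m * Q ^ n * R - (n / 3) * Δ ^ m * Q ^ (n - 1) * R ^ 2 - (1 / 2) * Δ ^ m * Q ^ (n + 2)`, and
`m + n / 3 + 1 / 2 = 1154 / 12 = 1 / 12`, so with `ram_P` (`th P = P ^ 2 / 12 - Q / 12`) and `R ^ 2 = Q ^ 3 - 1728 * Δ`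
`Q / 12 = ∑ b j * ((j + 2 / 3) * (Δ ^ (95 - j) * Q ^ (3 * j + 4) - 1728 * Δ ^ (96 - j) * Q ^ (3 * j + 1)) +
(1 / 2) * Δ ^ (95 - j) * Q ^ (3 * j + 4))`; put `1 = ev FL 96 0 0 p` on the left, both sides are `ev FL 96 1 0` of something:
`a i / 12 = (i + 1 / 6) * b (i - 1) - 1728 * (i + 2 / 3) * b i` (`ev_inj'`), that is
`(12 * i + 1) ^ 2 * a i = 82944 * (i + 1) * (3 * i + 2) * a (i + 1)`, `i < 96`, and `a 96 = 1` (`ev_cc`):
this determines `a`; `ssL` satisfies the same recurrence (`decide` on the list), so `p = ssP`.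
`bb_spec`: `b = bbP` by comparing coefficients (`decide`).
-/

open PowerSeries MT2

namespace ML

private theorem MLSS_th_one (F : Type) [CommRing F] : th F 1 = 0 := by
  have h := th_mul F 1 1
  rw [mul_one, mul_one, one_mul] at h
  exact left_eq_add.mp h

private theorem MLSS_unit {l : ℕ} [Fact l.Prime] (hl : 5 ≤ l) {n : ℕ}
    (h : ∀ q, q.Prime → q ∣ n → q < 5) : ((n : ℕ) : ZMod l) ≠ 0 := by
  intro h0
  rw [ZMod.natCast_eq_zero_iff] at h0
  have := h l Fact.out h0
  omega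

private theorem MLSS_wt (k : ℕ) (h4 : 4 ≤ k) (h2 : k % 2 = 0) :
    ∃ d a e : ℕ, a ≤ 2 ∧ e ≤ 1 ∧ wt d a e = k := by
  unfold wt
  have h : k % 12 = 0 ∨ k % 12 = 2 ∨ k % 12 = 4 ∨ k % 12 = 6 ∨ k % 12 = 8 ∨ k % 12 = 10 := by omega
  rcases h with h | h | h | h | h | h
  · exact ⟨k / 12, 0, 0, by omega, by omega, by omega⟩
  · exact ⟨k / 12 - 1, 2, 1, by omega, by omega, by omega⟩
  · exact ⟨k / 12, 1, 0, by omega, by omega, by omega⟩
  · exact ⟨k / 12, 0, 1, by omega, by omega, by omega⟩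
  · exact ⟨k / 12, 2, 0, by omega, by omega, by omega⟩
  · exact ⟨k / 12, 1, 1, by omega, by omega, by omega⟩

theorem p2_ev (l : ℕ) [Fact l.Prime] (hl : 5 ≤ l) (d a e : ℕ) (ha : a ≤ 2) (he : e ≤ 1)
    (hw : wt d a e = l + 1) :
    ∃ p : Polynomial (ZMod l), p.natDegree ≤ d ∧ ev (ZMod l) d a e p = up (ZMod l) p2Z := by
  have hlp : l.Prime := Fact.out
  have hodd : l % 2 = 1 := by
    rcases hlp.eq_two_or_odd with h | h
    · omega
    · exact h
  obtain ⟨d1, a1, e1, ha1, he1, hw1⟩ := MLSS_wt (l - 1) (by omega) (by omega)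
  obtain ⟨p, hp, hp1⟩ := one_ev l hl d1 a1 e1 ha1 he1 (by omega)
  have h2 : (2 : ZMod l) ≠ 0 := by
    have := MLSS_unit (l := l) hl (n := 2) (fun q hq hd => by
      have := Nat.le_of_dvd (by norm_num) hd; omega)
    exact_mod_cast this
  have h3 : (3 : ZMod l) ≠ 0 := by
    have := MLSS_unit (l := l) hl (n := 3) (fun q hq hd => by
      have := Nat.le_of_dvd (by norm_num) hd; omega)
    exact_mod_cast this
  have h12 : (12 : ZMod l) ≠ 0 := by
    have : (12 : ZMod l) = 2 * 2 * 3 := by norm_num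
    rw [this]
    exact mul_ne_zero (mul_ne_zero h2 h2) h3
  obtain ⟨q, hq, -, hq1⟩ := ser_ev (ZMod l) h2 h3 d1 a1 e1 d a e ha1 he1 ha he (by omega) p hp
  rw [hp1, MLSS_th_one, mul_one] at hq1
  have hc : ((wt d1 a1 e1 : ℕ) : ZMod l) = -1 := by
    have h5 : ((wt d1 a1 e1 : ℕ) : ZMod l) + 1 = 0 := by
      have h6 : ((wt d1 a1 e1 + 1 : ℕ) : ZMod l) = 0 := by
        rw [ZMod.natCast_eq_zero_iff]
        have : wt d1 a1 e1 + 1 = l := by omega
        rw [this]
      exact_mod_cast h6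
    exact eq_neg_of_add_eq_zero_left h5
  rw [hc] at hq1
  refine ⟨(12 : ZMod l) • q, (Polynomial.natDegree_smul_le _ _).trans hq, ?_⟩
  rw [map_smul]
  have h7 : (-1 / 12 : ZMod l) • up (ZMod l) p2Z + ev (ZMod l) d a e q = 0 := hq1.symm
  have h8 : ev (ZMod l) d a e q = (1 / 12 : ZMod l) • up (ZMod l) p2Z := by
    have h9 := eq_neg_of_add_eq_zero_right h7
    rw [h9, ← neg_smul]
    congr 1
    ring
  rw [h8, smul_smul, mul_one_div_cancel h12, one_smul]

/-! ### The series -/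

private theorem MLSS_up_mul {R : Type} [CommRing R] (a b : PowerSeries ℤ) :
    up R (a * b) = up R a * up R b := map_mul _ a b

private theorem MLSS_up_pow {R : Type} [CommRing R] (a : PowerSeries ℤ) (n : ℕ) :
    up R (a ^ n) = up R a ^ n := map_pow _ a n

private theorem MLSS_up_sub {R : Type} [CommRing R] (a b : PowerSeries ℤ) :
    up R (a - b) = up R a - up R b := map_sub _ a b

private theorem MLSS_up_nat {R : Type} [CommRing R] (n : ℕ) : up R ((n : ℕ) : PowerSeries ℤ) = (n : PowerSeries R) :=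
  map_natCast (PowerSeries.map (Int.castRingHom R)) n

private theorem MLSS_th_up {R : Type} [CommRing R] (φ : PowerSeries ℤ) : th R (up R φ) = up R (th ℤ φ) :=
  (th_map (Int.castRingHom R) φ).symm

private theorem MLSS_D : th FL (up FL dlZ) = up FL p2Z * up FL dlZ := by
  rw [MLSS_th_up, ram_D, MLSS_up_mul]

private theorem MLSS_Q : 3 * th FL (up FL ser4) = up FL p2Z * up FL ser4 - up FL ser6 := by
  rw [MLSS_th_up, ← MLSS_up_mul, ← MLSS_up_sub, ← ram_Q, MLSS_up_mul]
  have := MLSS_up_nat (R := FL) 3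
  push_cast at this
  rw [this]

private theorem MLSS_R : 2 * th FL (up FL ser6) = up FL p2Z * up FL ser6 - up FL ser4 ^ 2 := by
  rw [MLSS_th_up, ← MLSS_up_mul, ← MLSS_up_pow, ← MLSS_up_sub, ← ram_R, MLSS_up_mul]
  have := MLSS_up_nat (R := FL) 2
  push_cast at this
  rw [this]

private theorem MLSS_P : 12 * th FL (up FL p2Z) = up FL p2Z ^ 2 - up FL ser4 := by
  rw [MLSS_th_up, ← MLSS_up_pow, ← MLSS_up_sub, ← ram_P, MLSS_up_mul]
  have := MLSS_up_nat (R := FL) 12
  push_cast at this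
  rw [this]

private theorem MLSS_rel : up FL ser4 ^ 3 - up FL ser6 ^ 2 = 1728 * up FL dlZ := by
  rw [← MLSS_up_pow, ← MLSS_up_pow, ← MLSS_up_sub, ser_rel, MLSS_up_mul]
  have := MLSS_up_nat (R := FL) 1728
  push_cast at this
  rw [this]

private theorem MLSS_Dm (m : ℕ) : th FL (up FL dlZ ^ m) = m * up FL p2Z * up FL dlZ ^ m := by
  induction m with
  | zero => rw [pow_zero, MLSS_th_one]; simp
  | succ m ih =>
    rw [pow_succ, th_mul, ih, MLSS_D]
    push_cast
    ring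

private theorem MLSS_Qn (n : ℕ) : 3 * th FL (up FL ser4 ^ (n + 1)) =
    (n + 1) * (up FL p2Z * up FL ser4 ^ (n + 1) - up FL ser4 ^ n * up FL ser6) := by
  induction n with
  | zero => simp only [zero_add, pow_one, pow_zero, one_mul, Nat.cast_zero, MLSS_Q]
  | succ n ih =>
    rw [pow_succ, th_mul]
    push_cast
    linear_combination up FL ser4 * ih + up FL ser4 ^ (n + 1) * MLSS_Q

private theorem MLSS_bs (d a e i : ℕ) : up FL (bsZ d a e i) =
    up FL dlZ ^ (d - i) * up FL ser4 ^ (a + 3 * i) * up FL ser6 ^ e := by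
  unfold bsZ
  rw [MLSS_up_mul, MLSS_up_mul, MLSS_up_pow, MLSS_up_pow, MLSS_up_pow]

/-- the derivative of the basis of weight `l - 1` -/
private theorem MLSS_B (d i : ℕ) (hi : i ≤ d) (hd : (d : PowerSeries FL) = 95) :
    3 * th FL (up FL (bsZ (d + 1) 0 0 (i + 1))) =
    288 * (up FL p2Z * up FL (bsZ (d + 1) 0 0 (i + 1))) - (3 * i + 3) * up FL (bsZ d 2 1 i) := by
  obtain ⟨m, hm⟩ := Nat.exists_eq_add_of_le hi
  have e1 : d - i = m := by omega
  have e2 : d + 1 - (i + 1) = m := by omega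
  have hmi : (m : PowerSeries FL) = 95 - i := by
    have : (d : PowerSeries FL) = i + m := by rw [hm]; push_cast; ring
    rw [eq_sub_iff_add_eq, add_comm, ← this, hd]
  rw [MLSS_bs, MLSS_bs, e1, e2, pow_one, pow_zero, mul_one, th_mul, MLSS_Dm]
  have h1 : 2 + 3 * i = 3 * i + 2 := by ring
  have h2 : 0 + 3 * (i + 1) = (3 * i + 2) + 1 := by ring
  rw [h1, h2]
  have hQ := MLSS_Qn (3 * i + 2)
  push_cast at hQ
  linear_combination (up FL dlZ ^ m) * hQ
    + (3 * up FL p2Z * up FL dlZ ^ m * up FL ser4 ^ (3 * i + 2 + 1)) * hmi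

private theorem MLSS_B0 (d : ℕ) (hd : (d : PowerSeries FL) = 95) :
    3 * th FL (up FL (bsZ (d + 1) 0 0 0)) = 288 * (up FL p2Z * up FL (bsZ (d + 1) 0 0 0)) := by
  rw [MLSS_bs]
  simp only [Nat.sub_zero, mul_zero, add_zero, pow_zero, mul_one]
  rw [MLSS_Dm]
  push_cast
  rw [hd]
  ring

/-- the derivative of the basis of weight `l + 1` -/
private theorem MLSS_A (d i : ℕ) (hi : i ≤ d) (hd : (d : PowerSeries FL) = 95) :
    6 * th FL (up FL (bsZ d 2 1 i)) =
    577 * (up FL p2Z * up FL (bsZ d 2 1 i)) - (6 * i + 7) * up FL (bsZ (d + 1) 1 0 (i + 1)) +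
      3456 * (3 * i + 2) * up FL (bsZ (d + 1) 1 0 i) := by
  obtain ⟨m, hm⟩ := Nat.exists_eq_add_of_le hi
  have e1 : d - i = m := by omega
  have e2 : d + 1 - (i + 1) = m := by omega
  have e3 : d + 1 - i = m + 1 := by omega
  have hmi : (m : PowerSeries FL) = 95 - i := by
    have : (d : PowerSeries FL) = i + m := by rw [hm]; push_cast; ring
    rw [eq_sub_iff_add_eq, add_comm, ← this, hd]
  rw [MLSS_bs, MLSS_bs, MLSS_bs, e1, e2, e3, pow_one, pow_zero, mul_one, mul_one, th_mul, th_mul, MLSS_Dm]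
  have h1 : 2 + 3 * i = 3 * i + 1 + 1 := by ring
  have h2 : 1 + 3 * (i + 1) = 3 * i + 4 := by ring
  have h3 : 1 + 3 * i = 3 * i + 1 := by ring
  rw [h1, h2, h3]
  have hQ := MLSS_Qn (3 * i + 1)
  push_cast at hQ
  have hR := MLSS_R
  have hrel := MLSS_rel
  linear_combination (2 * up FL dlZ ^ m * up FL ser6) * hQ + (3 * up FL dlZ ^ m * up FL ser4 ^ (3 * i + 1 + 1)) * hR
    + (2 * (3 * i + 2) * up FL dlZ ^ m * up FL ser4 ^ (3 * i + 1)) * hrel
    + (6 * up FL p2Z * up FL dlZ ^ m * up FL ser4 ^ (3 * i + 1 + 1) * up FL ser6) * hmi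

/-! ### The recurrence -/

private theorem MLSS_nat (n : ℕ) : (n : PowerSeries FL) = PowerSeries.C (n : FL) := by
  simp

private theorem MLSS_l : (1153 : PowerSeries FL) = 0 := by
  have h : ((1153 : ℕ) : PowerSeries FL) = PowerSeries.C ((1153 : ℕ) : FL) := MLSS_nat 1153
  have h10 : ((1153 : ℕ) : FL) = 0 := ZMod.natCast_self 1153
  rw [h10, map_zero] at h
  exact_mod_cast h

private theorem MLSS_sum1 (d : ℕ) (hd : (d : PowerSeries FL) = 95) (p : Polynomial FL)
    (h1 : ev FL (d + 1) 0 0 p = 1) :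
    up FL p2Z = ∑ i ∈ Finset.range (d + 1), (-(12 * ((i : FL) + 1) * p.coeff (i + 1))) • up FL (bsZ d 2 1 i) := by
  have h2 : th FL (ev FL (d + 1) 0 0 p) = 0 := by rw [h1, MLSS_th_one]
  rw [ev_apply, map_sum] at h2
  have h3 : ∑ i ∈ Finset.range (d + 1 + 1), p.coeff i • (3 * th FL (up FL (bsZ (d + 1) 0 0 i))) = 0 := by
    have : ∑ i ∈ Finset.range (d + 1 + 1), p.coeff i • (3 * th FL (up FL (bsZ (d + 1) 0 0 i))) =
        3 * ∑ i ∈ Finset.range (d + 1 + 1), th FL (p.coeff i • up FL (bsZ (d + 1) 0 0 i)) := by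
      rw [Finset.mul_sum]
      refine Finset.sum_congr rfl fun i _ => ?_
      rw [map_smul, mul_smul_comm]
    rw [this, h2, mul_zero]
  have h1' := h1
  rw [ev_apply, Finset.sum_range_succ'] at h1'
  rw [Finset.sum_range_succ', MLSS_B0 d hd] at h3
  have h4 : ∀ i ∈ Finset.range (d + 1), p.coeff (i + 1) • (3 * th FL (up FL (bsZ (d + 1) 0 0 (i + 1)))) =
      288 * (up FL p2Z * (p.coeff (i + 1) • up FL (bsZ (d + 1) 0 0 (i + 1)))) -
        ((3 * (i : FL) + 3) * p.coeff (i + 1)) • up FL (bsZ d 2 1 i) := by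
    intro i hi
    rw [MLSS_B d i (by have := Finset.mem_range.mp hi; omega) hd]
    simp only [PowerSeries.smul_eq_C_mul, map_mul, map_add, MLSS_nat, map_ofNat]
    ring
  rw [Finset.sum_congr rfl h4, Finset.sum_sub_distrib, ← Finset.mul_sum, ← Finset.mul_sum] at h3
  have h7 : (∑ i ∈ Finset.range (d + 1), (-(12 * ((i : FL) + 1) * p.coeff (i + 1))) • up FL (bsZ d 2 1 i)) =
      (-4 : FL) • ∑ i ∈ Finset.range (d + 1), ((3 * (i : FL) + 3) * p.coeff (i + 1)) • up FL (bsZ d 2 1 i) := by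
    rw [Finset.smul_sum]
    refine Finset.sum_congr rfl fun i _ => ?_
    rw [smul_smul]
    congr 1
    ring
  rw [h7]
  have h9 := MLSS_l
  simp only [PowerSeries.smul_eq_C_mul, map_neg, map_ofNat] at h3 h1' ⊢
  linear_combination (-4 : PowerSeries FL) * h3 + (1152 * up FL p2Z) * h1' + up FL p2Z * h9

private theorem MLSS_sum2 (d : ℕ) (hd : (d : PowerSeries FL) = 95) (p : Polynomial FL) (hp : p.natDegree ≤ d + 1)
    (h1 : ev FL (d + 1) 0 0 p = 1) (i : ℕ) (hi : i ≤ d + 1) : (12 * (i : FL) + 1) ^ 2 * p.coeff i =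
      82944 * ((i : FL) + 1) * (3 * (i : FL) + 2) * p.coeff (i + 1) := by
  have hP := MLSS_sum1 d hd p h1
  have h2 : 6 * th FL (up FL p2Z) = 577 * (up FL p2Z * up FL p2Z) -
      ∑ i ∈ Finset.range (d + 1), ((6 * (i : FL) + 7) * -(12 * ((i : FL) + 1) * p.coeff (i + 1))) •
        up FL (bsZ (d + 1) 1 0 (i + 1)) +
      ∑ i ∈ Finset.range (d + 1), (3456 * (3 * (i : FL) + 2) * -(12 * ((i : FL) + 1) * p.coeff (i + 1))) •
        up FL (bsZ (d + 1) 1 0 i) := by
    have h3 : 6 * th FL (up FL p2Z) =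
        ∑ i ∈ Finset.range (d + 1), (-(12 * ((i : FL) + 1) * p.coeff (i + 1))) •
          (6 * th FL (up FL (bsZ d 2 1 i))) := by
      rw [hP, map_sum, Finset.mul_sum]
      refine Finset.sum_congr rfl fun i _ => ?_
      rw [map_smul, mul_smul_comm]
    have h4 : ∀ i ∈ Finset.range (d + 1), (-(12 * ((i : FL) + 1) * p.coeff (i + 1))) •
          (6 * th FL (up FL (bsZ d 2 1 i))) =
        577 * (up FL p2Z * ((-(12 * ((i : FL) + 1) * p.coeff (i + 1))) • up FL (bsZ d 2 1 i))) -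
        ((6 * (i : FL) + 7) * -(12 * ((i : FL) + 1) * p.coeff (i + 1))) • up FL (bsZ (d + 1) 1 0 (i + 1)) +
        (3456 * (3 * (i : FL) + 2) * -(12 * ((i : FL) + 1) * p.coeff (i + 1))) • up FL (bsZ (d + 1) 1 0 i) := by
      intro i hi
      rw [MLSS_A d i (by have := Finset.mem_range.mp hi; omega) hd]
      simp only [PowerSeries.smul_eq_C_mul, map_mul, map_add, map_neg, MLSS_nat, map_ofNat, map_one]
      ring
    rw [h3, Finset.sum_congr rfl h4, Finset.sum_add_distrib, Finset.sum_sub_distrib, ← Finset.mul_sum,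
      ← Finset.mul_sum, ← hP]
  let c : Polynomial FL := ∑ j ∈ Finset.range (d + 1 + 1),
    Polynomial.C (82944 * ((j : FL) + 1) * (3 * (j : FL) + 2) * p.coeff (j + 1) -
      (144 * (j : FL) ^ 2 + 24 * (j : FL)) * p.coeff j) * Polynomial.X ^ j
  have hc : ∀ j, j ≤ d + 1 → c.coeff j = 82944 * ((j : FL) + 1) * (3 * (j : FL) + 2) * p.coeff (j + 1) -
      (144 * (j : FL) ^ 2 + 24 * (j : FL)) * p.coeff j := by
    intro j hj
    have : c.coeff j = ∑ k ∈ Finset.range (d + 1 + 1),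
        (if j = k then 82944 * ((k : FL) + 1) * (3 * (k : FL) + 2) * p.coeff (k + 1) -
      (144 * (k : FL) ^ 2 + 24 * (k : FL)) * p.coeff k else 0) := by
      simp only [c, Polynomial.finsetSum_coeff, Polynomial.coeff_C_mul_X_pow]
    rw [this, Finset.sum_ite_eq, if_pos (Finset.mem_range.mpr (by omega))]
  have hcd : c.natDegree ≤ d + 1 := by
    refine Polynomial.natDegree_sum_le_of_forall_le _ _ fun k hk => ?_
    refine (Polynomial.natDegree_C_mul_X_pow_le _ _).trans ?_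
    have := Finset.mem_range.mp hk
    omega
  have h5 : ev FL (d + 1) 1 0 c =
      (2 : FL) • ∑ i ∈ Finset.range (d + 1), ((6 * (i : FL) + 7) * -(12 * ((i : FL) + 1) * p.coeff (i + 1))) •
        up FL (bsZ (d + 1) 1 0 (i + 1)) -
      (2 : FL) • ∑ i ∈ Finset.range (d + 1), (3456 * (3 * (i : FL) + 2) * -(12 * ((i : FL) + 1) * p.coeff (i + 1))) •
        up FL (bsZ (d + 1) 1 0 i) := by
    have h6 : ∀ j ∈ Finset.range (d + 1 + 1), c.coeff j • up FL (bsZ (d + 1) 1 0 j) =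
        (-((144 * (j : FL) ^ 2 + 24 * (j : FL)) * p.coeff j)) • up FL (bsZ (d + 1) 1 0 j) +
        (82944 * ((j : FL) + 1) * (3 * (j : FL) + 2) * p.coeff (j + 1)) • up FL (bsZ (d + 1) 1 0 j) := by
      intro j hj
      rw [hc j (by have := Finset.mem_range.mp hj; omega), ← add_smul]
      congr 1
      ring
    have h7 : ∑ j ∈ Finset.range (d + 1 + 1),
        (-((144 * (j : FL) ^ 2 + 24 * (j : FL)) * p.coeff j)) • up FL (bsZ (d + 1) 1 0 j) =
        (2 : FL) • ∑ i ∈ Finset.range (d + 1), ((6 * (i : FL) + 7) * -(12 * ((i : FL) + 1) * p.coeff (i + 1))) •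
        up FL (bsZ (d + 1) 1 0 (i + 1)) := by
      rw [Finset.sum_range_succ', Finset.smul_sum]
      have h8 : (-((144 * ((0 : ℕ) : FL) ^ 2 + 24 * ((0 : ℕ) : FL)) * p.coeff 0)) • up FL (bsZ (d + 1) 1 0 0) = 0 := by
        rw [Nat.cast_zero]
        have : (-((144 * (0 : FL) ^ 2 + 24 * 0) * p.coeff 0)) = 0 := by ring
        rw [this, zero_smul]
      rw [h8, add_zero]
      refine Finset.sum_congr rfl fun i _ => ?_
      rw [smul_smul]
      congr 1
      push_cast
      ring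
    have h8 : ∑ j ∈ Finset.range (d + 1 + 1),
        (82944 * ((j : FL) + 1) * (3 * (j : FL) + 2) * p.coeff (j + 1)) • up FL (bsZ (d + 1) 1 0 j) =
        (-2 : FL) • ∑ i ∈ Finset.range (d + 1),
          (3456 * (3 * (i : FL) + 2) * -(12 * ((i : FL) + 1) * p.coeff (i + 1))) •
        up FL (bsZ (d + 1) 1 0 i) := by
      rw [Finset.sum_range_succ, Finset.smul_sum,
        Polynomial.coeff_eq_zero_of_natDegree_lt (p := p) (n := d + 1 + 1) (by omega), mul_zero, zero_smul, add_zero]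
      refine Finset.sum_congr rfl fun i _ => ?_
      rw [smul_smul]
      congr 1
      ring
    rw [ev_apply, Finset.sum_congr rfl h6, Finset.sum_add_distrib, h7, h8, neg_smul, sub_eq_add_neg]
  have h9 := MLSS_l
  have h11 : ev FL (d + 1) 1 0 c = ev FL (d + 1) 1 0 p := by
    have h12 : ev FL (d + 1) 1 0 p = up FL ser4 := by
      have h13 : up FL ser4 * ev FL (d + 1) 0 0 p = ev FL (d + 1) 1 0 p := by
        rw [ev_apply, ev_apply, Finset.mul_sum]
        refine Finset.sum_congr rfl fun i _ => ?_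
        rw [MLSS_bs, MLSS_bs, mul_smul_comm]
        congr 1
        have : 1 + 3 * i = (0 + 3 * i) + 1 := by ring
        rw [this, pow_succ]
        ring
      rw [← h13, h1, mul_one]
    rw [h12, h5]
    simp only [PowerSeries.smul_eq_C_mul, map_ofNat] at h2 ⊢
    linear_combination (2 : PowerSeries FL) * h2 - MLSS_P + up FL p2Z ^ 2 * h9
  have h14 := ev_inj' FL (d + 1) 1 0 c p hcd hp h11
  have h15 := hc i hi
  rw [h14] at h15
  linear_combination h15

/-! ### The lists -/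

private theorem MLSS_pl (L : List ℕ) (i : ℕ) : (pl L).coeff i = ((L.getD i 0 : ℕ) : FL) := by
  induction L generalizing i with
  | nil => simp [pl]
  | cons a l ih =>
    rw [pl, Polynomial.coeff_add]
    rcases i with _ | i
    · simp
    · rw [Polynomial.coeff_C_succ, Polynomial.coeff_X_mul, ih]
      simp

set_option maxRecDepth 100000 in
private theorem MLSS_dec1 : ∀ i < 96, ((12 * i + 1) ^ 2 * ssL.getD i 0) % 1153 =
    (82944 * (i + 1) * (3 * i + 2) * ssL.getD (i + 1) 0) % 1153 := by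
  decide

set_option maxRecDepth 100000 in
private theorem MLSS_dec2 : ∀ i < 96, (bbL.getD i 0 + 12 * (i + 1) * ssL.getD (i + 1) 0) % 1153 = 0 := by
  decide

private theorem MLSS_95 : ((95 : ℕ) : PowerSeries FL) = 95 := by
  norm_num

private theorem MLSS_ss (p : Polynomial FL) (hp : p.natDegree ≤ 95 + 1) (h1 : ev FL (95 + 1) 0 0 p = 1) :
    p = ssP := by
  have h95 : p.coeff (95 + 1) = 1 := by
    rw [← ev_cc FL (95 + 1) 0 0 p, h1, map_one]
  have key : ∀ k ≤ 96, p.coeff (96 - k) = ((ssL.getD (96 - k) 0 : ℕ) : FL) := by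
    intro k
    induction k with
    | zero =>
      intro _
      have h96 : 96 - 0 = 95 + 1 := by omega
      rw [h96, h95]
      have : ssL.getD (95 + 1) 0 = 1 := by decide
      rw [this, Nat.cast_one]
    | succ k ih =>
      intro hk
      have h2 := ih (by omega)
      obtain ⟨i, hi⟩ : ∃ i, i = 96 - (k + 1) := ⟨_, rfl⟩
      have hi1 : 96 - k = i + 1 := by omega
      rw [hi1] at h2
      rw [← hi]
      have h3 := MLSS_sum2 95 MLSS_95 p hp h1 i (by omega)
      have h4 := MLSS_dec1 i (by omega)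
      have h5 : (((12 * i + 1) ^ 2 * ssL.getD i 0 : ℕ) : FL) =
          ((82944 * (i + 1) * (3 * i + 2) * ssL.getD (i + 1) 0 : ℕ) : FL) :=
        (ZMod.natCast_eq_natCast_iff' _ _ 1153).mpr h4
      push_cast at h5
      rw [h2, ← h5] at h3
      have h6 : (12 * (i : FL) + 1) ≠ 0 := by
        have h7 : ((12 * i + 1 : ℕ) : FL) ≠ 0 := by
          intro h0
          rw [ZMod.natCast_eq_zero_iff] at h0
          have := Nat.le_of_dvd (by omega) h0
          omega
        push_cast at h7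
        exact h7
      exact mul_left_cancel₀ (pow_ne_zero 2 h6) h3
  ext i
  unfold ssP
  rw [MLSS_pl]
  rcases lt_or_ge 96 i with h | h
  · rw [Polynomial.coeff_eq_zero_of_natDegree_lt (by omega), List.getD_eq_default _ _ (by
      have : ssL.length = 97 := by decide
      omega)]
    simp
  · have := key (96 - i) (by omega)
    have h2 : 96 - (96 - i) = i := by omega
    rw [h2] at this
    exact this

private theorem MLSS_wt96 : wt (95 + 1) 0 0 + 1 = 1153 := rfl

set_option maxRecDepth 100000 in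
private theorem MLSS_ex : ∃ p : Polynomial FL, p.natDegree ≤ 95 + 1 ∧ ev FL (95 + 1) 0 0 p = 1 :=
  one_ev 1153 (by norm_num) (95 + 1) 0 0 (by norm_num) (by norm_num) MLSS_wt96

set_option maxRecDepth 100000 in
theorem ss_spec : ev FL 96 0 0 ssP = 1 := by
  obtain ⟨p, hp, h1⟩ := MLSS_ex
  have h2 := MLSS_ss p hp h1
  rw [← h2]
  exact h1

set_option maxRecDepth 100000 in
theorem bb_spec : ev FL 95 2 1 bbP = up FL p2Z := by
  obtain ⟨p, hp, h1⟩ := MLSS_ex
  have h2 := MLSS_ss p hp h1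
  rw [MLSS_sum1 95 MLSS_95 p h1, ev_apply]
  refine Finset.sum_congr rfl fun i hi => ?_
  congr 1
  have hi1 := Finset.mem_range.mp hi
  rw [h2]
  unfold bbP ssP
  rw [MLSS_pl, MLSS_pl]
  have h3 := MLSS_dec2 i (by omega)
  have h4 : ((bbL.getD i 0 + 12 * (i + 1) * ssL.getD (i + 1) 0 : ℕ) : FL) = ((0 : ℕ) : FL) :=
    (ZMod.natCast_eq_natCast_iff' _ _ 1153).mpr h3
  push_cast at h4
  linear_combination h4

end ML
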