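import Pool.Agent.Lib_MP_bfd926_ml.MLHecke
import Pool.Agent.Lib_MP_bfd926_ml.MLSS
import Pool.Agent.Lib_MP_bfd926_ml.MLPoly
import Pool.Agent.Lib_MP_bfd926_ml.MLLin

/-!
# The number of factors modulo `1153` as a function of the weight

`NN d a e` is the number of irreducible factors of the characteristic polynomial of `T₂` modulo `1153`,
`nn d a e` that of the quotient by the forms of weight `k - 1152`. `step1`: `NN k = NN (k - 1152) + nn k`;
`step2`: `nn (k + 1154) = nn k` (`k ≥ 1156`).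
-/

open PowerSeries MT2

namespace ML

attribute [local irreducible] ssP bbP

open Classical in
/-- The integer matrix of `T₂`. -/
noncomputable def MZ (d a e : ℕ) : Matrix (Fin d) (Fin d) ℤ :=
  if h : a ≤ 2 ∧ e ≤ 1 then Classical.choose (hk_matrix d a e h.1 h.2) else 0

theorem MZ_spec (d a e : ℕ) (ha : a ≤ 2) (he : e ≤ 1) (j : Fin d) :
    hk ℤ (wt d a e) (ev ℤ d a e (Polynomial.X ^ (j : ℕ))) =
      ev ℤ d a e (∑ i : Fin d, Polynomial.C (MZ d a e i j) * Polynomial.X ^ (i : ℕ)) := by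
  have h : a ≤ 2 ∧ e ≤ 1 := ⟨ha, he⟩
  rw [MZ, dif_pos h]
  exact (Classical.choose_spec (hk_matrix d a e h.1 h.2)).1 j

/-- `T₂` on polynomials. -/
noncomputable def tau (d a e : ℕ) : Polynomial FL →ₗ[FL] Polynomial FL :=
  ∑ j : Fin d, (Polynomial.lcoeff FL (j : ℕ)).smulRight
    (∑ i : Fin d, Polynomial.C ((MZ d a e i j : ℤ) : FL) * Polynomial.X ^ (i : ℕ))

theorem tau_apply (d a e : ℕ) (p : Polynomial FL) : tau d a e p =
    ∑ j : Fin d, p.coeff (j : ℕ) •
      (∑ i : Fin d, Polynomial.C ((MZ d a e i j : ℤ) : FL) * Polynomial.X ^ (i : ℕ)) := by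
  simp [tau]

private theorem deg_sum (d : ℕ) (f : Fin d → FL) :
    (∑ i : Fin d, Polynomial.C (f i) * Polynomial.X ^ (i : ℕ) : Polynomial FL).degree < (d : WithBot ℕ) := by
  refine (Polynomial.degree_sum_le _ _).trans_lt ?_
  refine (Finset.sup_lt_iff (WithBot.bot_lt_coe d)).mpr ?_
  intro i _
  exact (Polynomial.degree_C_mul_X_pow_le _ _).trans_lt (WithBot.coe_lt_coe.mpr i.2)

theorem tau_deg (d a e : ℕ) (p : Polynomial FL) : (tau d a e p).degree < (d : WithBot ℕ) := by
  rw [tau_apply]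
  refine (Polynomial.degree_sum_le _ _).trans_lt ?_
  refine (Finset.sup_lt_iff (WithBot.bot_lt_coe d)).mpr ?_
  intro j _
  exact (Polynomial.degree_smul_le _ _).trans_lt (deg_sum d _)

theorem deg_of_lt {p : Polynomial FL} {d : ℕ} (h : p.degree < (d : WithBot ℕ)) : p.natDegree ≤ d := by
  rcases eq_or_ne p 0 with rfl | hp
  · simp
  · exact (Polynomial.natDegree_lt_iff_degree_lt hp |>.mpr h).le

theorem sum_coeff {p : Polynomial FL} {d : ℕ} (h : p.degree < (d : WithBot ℕ)) :
    p = ∑ j : Fin d, p.coeff (j : ℕ) • (Polynomial.X ^ (j : ℕ) : Polynomial FL) := by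
  have h1 := Polynomial.as_sum_range' p (d + 1) (by have := deg_of_lt h; omega)
  rw [Finset.sum_range_succ, Polynomial.coeff_eq_zero_of_degree_lt h, Polynomial.monomial_zero_right,
    add_zero] at h1
  conv_lhs => rw [h1]
  rw [← Fin.sum_univ_eq_sum_range (fun i => Polynomial.monomial i (p.coeff i)) d]
  refine Finset.sum_congr rfl fun j _ => ?_
  rw [← Polynomial.C_mul_X_pow_eq_monomial, Polynomial.smul_eq_C_mul]

theorem tau_ev (d a e : ℕ) (ha : a ≤ 2) (he : e ≤ 1) (p : Polynomial FL)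
    (hp : p.degree < (d : WithBot ℕ)) :
    hk FL (wt d a e) (ev FL d a e p) = ev FL d a e (tau d a e p) := by
  conv_lhs => rw [sum_coeff hp]
  rw [map_sum, map_sum, tau_apply, map_sum]
  refine Finset.sum_congr rfl fun j _ => ?_
  rw [map_smul, map_smul, map_smul]
  congr 1
  have h := congrArg (PowerSeries.map (Int.castRingHom FL)) (MZ_spec d a e ha he j)
  rw [hk_map, ev_map, ev_map, Polynomial.map_pow, Polynomial.map_X, Polynomial.map_sum] at h
  rw [h]
  congr 1
  refine Finset.sum_congr rfl fun i _ => ?_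
  rw [Polynomial.map_mul, Polynomial.map_pow, Polynomial.map_X, Polynomial.map_C]
  rfl

theorem pm_tau (d a e : ℕ) : pm (tau d a e) d = (MZ d a e).map (Int.castRingHom FL) := by
  ext i j
  rw [pm, Matrix.of_apply, Matrix.map_apply, tau_apply, Polynomial.finsetSum_coeff,
    Finset.sum_eq_single j]
  · rw [Polynomial.coeff_X_pow, if_pos rfl, one_smul, Polynomial.finsetSum_coeff, Finset.sum_eq_single i]
    · rw [Polynomial.coeff_C_mul, Polynomial.coeff_X_pow, if_pos rfl, mul_one]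
      rfl
    · intro b _ hb
      rw [Polynomial.coeff_C_mul, Polynomial.coeff_X_pow, if_neg, mul_zero]
      intro h
      exact hb (Fin.ext h.symm)
    · intro h
      exact absurd (Finset.mem_univ _) h
  · intro b _ hb
    rw [Polynomial.coeff_X_pow, if_neg, zero_smul, Polynomial.coeff_zero]
    intro h
    exact hb (Fin.ext h)
  · intro h
    exact absurd (Finset.mem_univ _) h

/-- The number of factors modulo `1153`. -/
noncomputable def NN (d a e : ℕ) : ℕ := nf (pm (tau d a e) d).charpoly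

/-- The number of factors of the quotient. -/
noncomputable def nn (d a e : ℕ) : ℕ := nf (pq (tau d a e) ssP).charpoly

theorem wt_add (d a e : ℕ) : wt (d + 96) a e = wt d a e + 1152 := by
  unfold wt
  ring

/-- The inclusion of the forms of weight `k` in those of weight `k + 1152`. -/
theorem ev_ss (d a e : ℕ) (p : Polynomial FL) (hp : p.natDegree ≤ d) :
    ev FL (d + 96) a e (ssP * p) = ev FL d a e p := by
  have h := ev_mul FL 96 0 0 d a e ssP p ssP_deg.le hp
  rw [ss_spec, one_mul, zero_add, zero_add, add_comm 96 d] at h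
  exact h.symm

theorem deg_mul_lt {q p : Polynomial FL} {d : ℕ} (hq : q.Monic) (hp : p.degree < (d : WithBot ℕ)) :
    (q * p).degree < ((d + q.natDegree : ℕ) : WithBot ℕ) := by
  rcases eq_or_ne p 0 with rfl | h0
  · rw [mul_zero, Polynomial.degree_zero]
    exact WithBot.bot_lt_coe _
  · rw [Polynomial.degree_mul, Polynomial.degree_eq_natDegree hq.ne_zero,
      Polynomial.degree_eq_natDegree h0]
    have h1 := (Polynomial.natDegree_lt_iff_degree_lt h0).mpr hp
    have h2 : q.natDegree + p.natDegree < d + q.natDegree := by omega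
    exact WithBot.coe_lt_coe.mpr h2

/-- `T₂` commutes with the inclusion. -/
theorem tau_ss (d a e : ℕ) (ha : a ≤ 2) (he : e ≤ 1) (h1 : 1 ≤ wt d a e) (p : Polynomial FL)
    (hp : p.degree < (d : WithBot ℕ)) :
    tau (d + 96) a e (ssP * p) = ssP * tau d a e p := by
  have hmp : (ssP * p).degree < ((d + 96 : ℕ) : WithBot ℕ) := by
    have := deg_mul_lt ssP_monic hp
    rwa [ssP_deg] at this
  have hmt : (ssP * tau d a e p).degree < ((d + 96 : ℕ) : WithBot ℕ) := by
    have := deg_mul_lt ssP_monic (tau_deg d a e p)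
    rwa [ssP_deg] at this
  refine ev_inj' FL (d + 96) a e _ _ (deg_of_lt (tau_deg (d + 96) a e _)) (deg_of_lt hmt) ?_
  rw [← tau_ev (d + 96) a e ha he _ hmp, ev_ss d a e p (deg_of_lt hp),
    ev_ss d a e _ (deg_of_lt (tau_deg d a e p)), wt_add, hk_add _ h1, tau_ev d a e ha he p hp]

theorem step1 (d a e : ℕ) (ha : a ≤ 2) (he : e ≤ 1) (h1 : 1 ≤ wt d a e) :
    NN (d + 96) a e = NN d a e + nn (d + 96) a e := by
  have h := pm_block ssP ssP_monic d (tau (d + 96) a e) (tau d a e)
    (fun p _ => by rw [ssP_deg]; exact tau_deg (d + 96) a e p) (fun p _ => tau_deg d a e p)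
    (fun p hp => tau_ss d a e ha he h1 p hp)
  have h2 : NN (d + 96) a e = nf (pm (tau (d + 96) a e) (d + ssP.natDegree)).charpoly := by
    rw [ssP_deg]
    rfl
  rw [h2, h, nf_mul (Matrix.charpoly_monic _).ne_zero (Matrix.charpoly_monic _).ne_zero]
  rfl

/-- The parameters of the weight `k + 2`. -/
theorem par {d a e d2 a2 e2 : ℕ} (ha : a ≤ 2) (he : e ≤ 1) (ha2 : a2 ≤ 2) (he2 : e2 ≤ 1)
    (hw : wt d2 a2 e2 = wt d a e + 2) :
    d2 + 96 = d + (eb a e).natDegree ∧ ((a = 0 ∧ a2 = 2) ∨ a = a2 + 1) ∧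
      ((e = 0 ∧ e2 = 1) ∨ e = e2 + 1) := by
  rw [eb_deg]
  unfold wt at hw
  have h1 : a = 0 ∨ a = 1 ∨ a = 2 := by omega
  have h2 : e = 0 ∨ e = 1 := by omega
  have h3 : a2 = 0 ∨ a2 = 1 ∨ a2 = 2 := by omega
  have h4 : e2 = 0 ∨ e2 = 1 := by omega
  rcases h1 with rfl | rfl | rfl <;> rcases h2 with rfl | rfl <;> rcases h3 with rfl | rfl | rfl <;>
    rcases h4 with rfl | rfl <;> simp <;> omega

/-- multiplication by `E₂` -/
theorem ev_eb {d a e d2 a2 e2 : ℕ} (ha : a ≤ 2) (he : e ≤ 1) (ha2 : a2 ≤ 2) (he2 : e2 ≤ 1)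
    (hw : wt d2 a2 e2 = wt d a e + 2) (p : Polynomial FL) (hp : p.natDegree ≤ d) :
    ev FL (d2 + 96) a2 e2 (eb a e * p) = up FL p2Z * ev FL d a e p := by
  obtain ⟨hd, h1, h2⟩ := par ha he ha2 he2 hw
  rw [eb_deg] at hd
  have h0 : ev FL (95 + d) (2 + a) (1 + e) (bbP * p) = up FL p2Z * ev FL d a e p := by
    rw [← ev_mul FL 95 2 1 d a e bbP p bbP_deg.le hp, bb_spec]
  have hdeg : (bbP * p).natDegree ≤ 95 + d :=
    Polynomial.natDegree_mul_le.trans (by rw [bbP_deg]; omega)
  have hX : (Polynomial.X * (bbP * p)).natDegree ≤ 95 + d + 1 :=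
    Polynomial.natDegree_mul_le.trans (by rw [Polynomial.natDegree_X]; omega)
  rw [← h0]
  unfold eb
  rcases h1 with ⟨h1, h1'⟩ | h1
  · subst h1 h1'
    rw [if_pos rfl, mul_one]
    rw [if_pos rfl] at hd
    rcases h2 with ⟨h2, h2'⟩ | h2
    · subst h2 h2'
      rw [if_pos rfl, mul_one]
      rw [if_pos rfl] at hd
      have e3 : d2 + 96 = 95 + d := by omega
      rw [e3, add_zero, add_zero]
    · have he0 : e ≠ 0 := by omega
      have e2' : e2 = 0 := by omega
      have e1' : e = 1 := by omega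
      subst e2' e1'
      rw [if_neg he0]
      rw [if_neg he0] at hd
      have e3 : d2 + 96 = 95 + d + 1 := by omega
      rw [e3, add_zero, show (1 + 1 : ℕ) = 0 + 2 from rfl, ev_e2 FL _ _ _ _ hdeg]
      congr 1
      ring
  · have ha0 : a ≠ 0 := by omega
    have e1 : 2 + a = a2 + 3 := by omega
    rw [if_neg ha0]
    rw [if_neg ha0] at hd
    rcases h2 with ⟨h2, h2'⟩ | h2
    · subst h2 h2'
      rw [if_pos rfl, mul_one]
      rw [if_pos rfl] at hd
      have e3 : d2 + 96 = 95 + d + 1 := by omega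
      rw [e3, e1, add_zero, ev_a3 FL _ _ _ _ hdeg]
      congr 1
      ring
    · have he0 : e ≠ 0 := by omega
      have e2' : e2 = 0 := by omega
      have e1' : e = 1 := by omega
      subst e2' e1'
      rw [if_neg he0]
      rw [if_neg he0] at hd
      have e3 : d2 + 96 = 95 + d + 1 + 1 := by omega
      rw [e3, e1, ev_a3 FL _ _ _ _ hdeg, show (1 + 1 : ℕ) = 0 + 2 from rfl,
        ev_e2 FL _ _ _ _ hX]
      congr 1
      ring

/-- `T₂ (E₂ f) - 2 E₂ T₂ f` is a cusp form -/
theorem hk_P2F (d a e d2 a2 e2 : ℕ) (ha : a ≤ 2) (he : e ≤ 1) (ha2 : a2 ≤ 2) (he2 : e2 ≤ 1)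
    (hw : wt d2 a2 e2 = wt d a e + 2) (p : Polynomial FL) (hp : p.degree < (d : WithBot ℕ)) :
    ∃ s : Polynomial FL, s.degree < (d2 : WithBot ℕ) ∧
      hk FL (wt d a e + 2) (up FL p2Z * ev FL d a e p) =
        (2 : FL) • (up FL p2Z * hk FL (wt d a e) (ev FL d a e p)) + ev FL d2 a2 e2 s := by
  have key : ∀ j : Fin d, ∃ s : Polynomial FL, s.degree < (d2 : WithBot ℕ) ∧
      hk FL (wt d a e + 2) (up FL p2Z * ev FL d a e (Polynomial.X ^ (j : ℕ))) =
        (2 : FL) • (up FL p2Z * hk FL (wt d a e) (ev FL d a e (Polynomial.X ^ (j : ℕ)))) +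
          ev FL d2 a2 e2 s := by
    intro j
    obtain ⟨s, hs, h⟩ := hk_P2 d a e d2 a2 e2 ha he ha2 he2 hw j j.2
    refine ⟨s.map (Int.castRingHom FL), (Polynomial.degree_map_le).trans_lt hs, ?_⟩
    have h2 := congrArg (PowerSeries.map (Int.castRingHom FL)) h
    rw [map_sub, map_mul (PowerSeries.map (Int.castRingHom FL)), map_mul (PowerSeries.map (Int.castRingHom FL)),
      hk_map, hk_map, map_mul (PowerSeries.map (Int.castRingHom FL)), ev_map, ev_map,
      Polynomial.map_pow, Polynomial.map_X] at h2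
    have h3 : PowerSeries.map (Int.castRingHom FL) p2Z = up FL p2Z := rfl
    have h4 : PowerSeries.map (Int.castRingHom FL) (2 : PowerSeries ℤ) = 2 := map_ofNat _ 2
    rw [h3, h4] at h2
    have h5 : ∀ φ : PowerSeries FL, (2 : FL) • φ = 2 * φ := by
      intro φ
      rw [two_smul, two_mul]
    rw [h5, ← h2]
    ring
  choose s hs1 hs2 using key
  refine ⟨∑ j : Fin d, p.coeff (j : ℕ) • s j, ?_, ?_⟩
  · refine (Polynomial.degree_sum_le _ _).trans_lt ?_
    refine (Finset.sup_lt_iff (WithBot.bot_lt_coe d2)).mpr ?_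
    intro j _
    exact (Polynomial.degree_smul_le _ _).trans_lt (hs1 j)
  · conv_lhs => rw [sum_coeff hp]
    conv_rhs => rw [sum_coeff hp]
    simp only [map_sum, map_smul, Finset.mul_sum, mul_smul_comm, Finset.smul_sum]
    have h6 : ∀ j : Fin d, (∑ x : Fin d, p.coeff (x : ℕ) •
        (Polynomial.X ^ (x : ℕ) : Polynomial FL)).coeff (j : ℕ) = p.coeff (j : ℕ) := by
      intro j
      rw [← sum_coeff hp]
    simp only [h6]
    rw [← Finset.sum_add_distrib]
    refine Finset.sum_congr rfl fun j _ => ?_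
    rw [hs2 j, smul_add, smul_comm]

theorem step2 {d a e d2 a2 e2 : ℕ} (ha : a ≤ 2) (he : e ≤ 1) (ha2 : a2 ≤ 2) (he2 : e2 ≤ 1)
    (hw : wt d2 a2 e2 = wt d a e + 2) (hd96 : 96 ≤ d) : nn (d2 + 96) a2 e2 = nn d a e := by
  have hd := (par ha he ha2 he2 hw).1
  have h2ne : (2 : FL) ≠ 0 := by decide
  have key := pq_twist ssP (eb a e) ssP_monic (ss_eb a e) d (by rw [ssP_deg]; exact hd96) (tau d a e)
    (tau (d2 + 96) a2 e2) 2 ?_ ?_
  · rw [nn, key, nf_smul 2 h2ne]
    rfl
  · intro p hp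
    obtain ⟨s, hs, h⟩ := hk_P2F d a e d2 a2 e2 ha he ha2 he2 hw p hp
    refine ⟨s, ?_⟩
    rw [sub_eq_iff_eq_add]
    have hbp : (eb a e * p).degree < ((d2 + 96 : ℕ) : WithBot ℕ) := by
      rw [hd]
      exact deg_mul_lt (eb_monic a e) hp
    have hbt : (eb a e * tau d a e p).natDegree ≤ d2 + 96 := by
      rw [hd]
      exact deg_of_lt (deg_mul_lt (eb_monic a e) (tau_deg d a e p))
    have hms : (ssP * s).natDegree ≤ d2 + 96 := by
      have := deg_of_lt (deg_mul_lt ssP_monic hs)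
      rwa [ssP_deg] at this
    refine ev_inj' FL (d2 + 96) a2 e2 _ _ (deg_of_lt (tau_deg (d2 + 96) a2 e2 _)) ?_ ?_
    · refine (Polynomial.natDegree_add_le _ _).trans (max_le hms ?_)
      exact (Polynomial.natDegree_smul_le _ _).trans hbt
    · rw [← tau_ev (d2 + 96) a2 e2 ha2 he2 _ hbp, ev_eb ha he ha2 he2 hw p (deg_of_lt hp), map_add,
        ev_ss d2 a2 e2 s (deg_of_lt hs), map_smul,
        ev_eb ha he ha2 he2 hw _ (deg_of_lt (tau_deg d a e p)), ← tau_ev d a e ha he p hp,
        wt_add, hk_add _ (by omega), hw, h, add_comm]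
  · intro p hp
    have hpd : p.degree < ((d2 : ℕ) : WithBot ℕ) := by
      rcases eq_or_ne p 0 with rfl | h0
      · rw [Polynomial.degree_zero]
        exact WithBot.bot_lt_coe _
      · rw [Polynomial.degree_mul, Polynomial.degree_eq_natDegree ssP_monic.ne_zero,
          Polynomial.degree_eq_natDegree h0] at hp
        have h1 : ssP.natDegree + p.natDegree < d + (eb a e).natDegree := WithBot.coe_lt_coe.mp hp
        rw [ssP_deg] at h1
        have h2 : p.natDegree < d2 := by omega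
        exact (Polynomial.natDegree_lt_iff_degree_lt h0).mp h2
    rw [tau_ss d2 a2 e2 ha2 he2 (by omega) p hpd]
    exact Dvd.intro _ rfl

end ML
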