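import Pool.Agent.Lib_MP_bfd926_ml.MLEv
import Pool.Agent.Lib_MP_bfd926_fm.MWr

/-!
# Ramanujan's identities, formally

`a = thA`, `b = thB`, `al = a ^ 4`, `be = b ^ 4`, relations (`STheta`: `th_add`, `th_sq`, `th_mul`):
`a ^ 2 + b ^ 2 = 2 * dbl a ^ 2`, `a * b = dbl b ^ 2`; `th ℤ` is a derivation (`th_mul`), `th (dbl φ) = 2 * dbl (th φ)`.
(1) `th a * b - a * th b = a * b * (al - be) / 4` (times `4`): with `x = th a / a`, `y = th b / b`, `D = x - y` the
relations give `dbl D = (a ^ 2 - b ^ 2) / (4 * (a ^ 2 + b ^ 2)) * D`, the series `(al - be) / 4` satisfies the same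
equation, and a solution which is `O(X ^ 2)` is zero.
(2) hence `th ff = ff * (2 * al - be)` (`16 * ff * be ^ 2 = al * (al - be)`).
(3) `ram_D` holds by the definition of `p2Z`; `p2Z = 24 * y + 2 * al - be` as `dlZ = be ^ 6 * ff`.
(4) `ram_Q`, `ram_R` by `ring`, `ram_P`: `Z = 12 * th P - P ^ 2 + ser4` satisfies `4 * dbl Z = Z`
(`2 * dbl P - P = 2 * al - be`, `dbl al = (a ^ 2 + b ^ 2) ^ 2 / 4`, `dbl be = a ^ 2 * b ^ 2`,
`dbl ser4 = al ^ 2 - al * be + be ^ 2`) and `Z` has constant coefficient `0`, so `Z = 0`.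
-/

open PowerSeries MT2

namespace ML

private theorem MLRam_th (φ : PowerSeries ℤ) : th ℤ φ = dd φ := rfl

private theorem MLRam_be : be ≠ 0 := by
  intro h
  have h1 := be_zero
  rw [h, map_zero] at h1
  exact zero_ne_one h1

private theorem MLRam_al : al ≠ 0 := by
  intro h
  have h1 := al_zero
  rw [h, map_zero] at h1
  exact zero_ne_one h1

private theorem MLRam_dlZ : dlZ ≠ 0 := by
  intro h
  obtain ⟨g, hg, hg1⟩ := dlZ_X
  rw [h] at hg
  have h2 : g = 0 := by
    rcases mul_eq_zero.1 hg.symm with h3 | h3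
    · exact absurd h3 PowerSeries.X_ne_zero
    · exact h3
  rw [h2, map_zero] at hg1
  exact zero_ne_one hg1

/-- `th be / be` -/
private noncomputable def MLRamB : PowerSeries ℤ := dd be * beI

private theorem MLRam_dbe : dd be = be * MLRamB := by
  unfold MLRamB
  linear_combination (-(dd be)) * be_mul_beI

private theorem MLRam_pow4 (φ : PowerSeries ℤ) : dd (φ ^ 4) = 4 * (φ ^ 3 * dd φ) := by
  have h : φ ^ 4 = φ * (φ * (φ * φ)) := by ring
  rw [h, dd_mul, dd_mul, dd_mul]
  ring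

private theorem MLRam_wr : be * dd al - al * dd be = al * be * (al - be) := by
  have h1 : dd al = 4 * (thA ^ 3 * dd thA) := by
    unfold al
    exact MLRam_pow4 thA
  have h2 : dd be = 4 * (thB ^ 3 * dd thB) := by
    unfold be
    exact MLRam_pow4 thB
  have h3 := wr
  have hal : al = thA ^ 4 := rfl
  have hbe : be = thB ^ 4 := rfl
  rw [h1, h2]
  rw [hal, hbe] at h3 ⊢
  linear_combination (thA ^ 3 * thB ^ 3) * h3

private theorem MLRam_dal : dd al = al * (MLRamB + al - be) := by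
  apply mul_left_cancel₀ MLRam_be
  have h1 := MLRam_wr
  rw [MLRam_dbe] at h1
  linear_combination h1

private theorem MLRam_two (φ : PowerSeries ℤ) (n : ℕ) : dd ((n : PowerSeries ℤ) * φ) = n * dd φ := by
  rw [dd_mul, dd_natCast, zero_mul, zero_add]

private theorem MLRam_e2 : p2Z * dlZ = dd dlZ := by
  obtain ⟨g, hg, hg1⟩ := dlZ_X
  have h1 : (PowerSeries.mk fun n => coeff (n + 1) dlZ) = g := by
    ext n
    rw [coeff_mk, hg, mul_comm, PowerSeries.coeff_succ_mul_X]
  have h2 : g * PowerSeries.invOfUnit g 1 = 1 :=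
    PowerSeries.mul_invOfUnit g 1 (by rw [hg1, Units.val_one])
  have h3 : dd dlZ = X * (PowerSeries.mk fun n => coeff (n + 1) (th ℤ dlZ)) := by
    have h4 := PowerSeries.sub_const_eq_X_mul_shift (dd dlZ)
    have h5 : constantCoeff (dd dlZ) = 0 := by
      rw [← PowerSeries.coeff_zero_eq_constantCoeff_apply, coeff_dd, Nat.cast_zero, zero_mul]
    rw [h5, map_zero, sub_zero] at h4
    exact h4
  unfold p2Z
  rw [h1, h3]
  generalize (PowerSeries.mk fun n => coeff (n + 1) (th ℤ dlZ)) = A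
  rw [hg]
  linear_combination (X * A) * h2

private theorem MLRam_p2 : p2Z = 6 * MLRamB + (2 * al - be) := by
  apply mul_right_cancel₀ MLRam_dlZ
  rw [MLRam_e2]
  have h6 : dd (be ^ 6) = 6 * (be ^ 5 * dd be) := by
    have h : be ^ 6 = be * (be * (be * (be * (be * be)))) := by ring
    rw [h, dd_mul, dd_mul, dd_mul, dd_mul, dd_mul]
    ring
  unfold dlZ
  rw [dd_mul, h6, dd_ff, MLRam_dbe]
  ring

theorem ram_D : th ℤ dlZ = p2Z * dlZ := by
  rw [MLRam_th, MLRam_e2]

private theorem MLRam_num (n : ℕ) [n.AtLeastTwo] (φ : PowerSeries ℤ) :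
    dd ((OfNat.ofNat n : PowerSeries ℤ) * φ) = (OfNat.ofNat n : PowerSeries ℤ) * dd φ := by
  have h := MLRam_two φ (OfNat.ofNat n)
  rw [Nat.cast_ofNat] at h
  exact h

private theorem MLRam_sq (φ : PowerSeries ℤ) : dd (φ ^ 2) = 2 * (φ * dd φ) := by
  rw [sq, dd_mul]
  ring

theorem ram_Q : 3 * th ℤ ser4 = p2Z * ser4 - ser6 := by
  rw [MLRam_th, MLRam_p2]
  unfold ser4 ser6
  rw [map_add, map_sub, mul_assoc, MLRam_num, MLRam_num, MLRam_sq, MLRam_sq, dd_mul, MLRam_dal,
    MLRam_dbe]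
  ring

theorem ram_R : 2 * th ℤ ser6 = p2Z * ser6 - ser4 ^ 2 := by
  rw [MLRam_th, MLRam_p2]
  unfold ser4 ser6
  have h : be ^ 2 + 32 * al * be - 32 * al ^ 2 = be ^ 2 + 32 * (al * be) - 32 * al ^ 2 := by ring
  rw [h, dd_mul, map_sub, map_sub, map_add, MLRam_num, MLRam_num, MLRam_num, MLRam_sq, MLRam_sq,
    dd_mul al be, MLRam_dal, MLRam_dbe]
  ring

private theorem MLRam_dmul (φ ψ : PowerSeries ℤ) : dbl (φ * ψ) = dbl φ * dbl ψ := by
  unfold dbl
  rw [map_mul]

private theorem MLRam_dadd (φ ψ : PowerSeries ℤ) : dbl (φ + ψ) = dbl φ + dbl ψ := by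
  unfold dbl
  rw [map_add]

private theorem MLRam_dnum (n : ℕ) [n.AtLeastTwo] :
    dbl (OfNat.ofNat n : PowerSeries ℤ) = (OfNat.ofNat n : PowerSeries ℤ) := by
  unfold dbl
  exact map_ofNat _ n

/-- `(dbl be) ^ 2 = al * be` -/
private theorem MLRam_dbe2 : dbl be ^ 2 = al * be := by
  rw [dbl_be]
  unfold al be
  ring

private theorem MLRam_dal2 : 4 * dbl al = al + be + 2 * dbl be := by
  rw [dbl_al, dbl_be]
  unfold al be
  ring

private theorem MLRam_dB : 4 * dbl MLRamB = 2 * MLRamB + al - be := by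
  have h1 := congrArg dd MLRam_dbe2
  rw [MLRam_sq, dd_dbl, dd_mul, MLRam_dal, MLRam_dbe, MLRam_dmul] at h1
  apply mul_left_cancel₀ (mul_ne_zero MLRam_al MLRam_be)
  linear_combination h1 + (-(4 * dbl MLRamB)) * MLRam_dbe2

private theorem MLRam_dP : 2 * dbl p2Z = p2Z + (2 * al - be) := by
  have h1 : dbl p2Z = 6 * dbl MLRamB + (2 * dbl al - dbl be) := by
    rw [MLRam_p2]
    unfold dbl
    rw [map_add, map_sub, map_mul, map_mul, map_ofNat, map_ofNat]
  rw [h1, MLRam_p2]
  linear_combination 3 * MLRam_dB + MLRam_dal2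

private theorem MLRam_dQ : dbl ser4 = al ^ 2 - al * be + be ^ 2 := by
  have h1 : dbl ser4 = 16 * dbl al ^ 2 - 16 * dbl al * dbl be + dbl be ^ 2 := by
    unfold ser4 dbl
    rw [map_add, map_sub, map_mul, map_mul, map_mul, map_pow, map_pow, map_ofNat]
  rw [h1]
  linear_combination (4 * dbl al + al + be + 2 * dbl be) * MLRam_dal2 - 4 * dbl be * MLRam_dal2 -
    3 * MLRam_dbe2

private theorem MLRam_zero (Z : PowerSeries ℤ) (h : 4 * dbl Z = Z) : Z = 0 := by
  have h4 : ∀ n, coeff n (4 * dbl Z) = 4 * coeff n (dbl Z) := by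
    intro n
    have := coeff_C_mul n (dbl Z) (4 : ℤ)
    rwa [map_ofNat] at this
  ext n
  rw [map_zero]
  induction n using Nat.strong_induction_on with
  | _ n ih =>
    have h1 := congrArg (coeff n) h
    rw [h4] at h1
    unfold dbl at h1
    rw [coeff_expand] at h1
    by_cases h2 : 2 ∣ n
    · rw [if_pos h2] at h1
      rcases Nat.eq_zero_or_pos n with h3 | h3
      · subst h3
        simp only [Nat.zero_div] at h1
        omega
      · rw [ih (n / 2) (by omega), mul_zero] at h1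
        exact h1.symm
    · rw [if_neg h2, mul_zero] at h1
      exact h1.symm

theorem ram_P : 12 * th ℤ p2Z = p2Z ^ 2 - ser4 := by
  rw [MLRam_th]
  have hZ : (12 * dd p2Z - p2Z ^ 2 + ser4) = 0 := by
    apply MLRam_zero
    have h1 : dbl (12 * dd p2Z - p2Z ^ 2 + ser4) = 12 * dbl (dd p2Z) - dbl p2Z ^ 2 + dbl ser4 := by
      unfold dbl
      rw [map_add, map_sub, map_mul, map_pow, map_ofNat]
    have h2 : 4 * dbl (dd p2Z) = dd p2Z + dd (2 * al - be) := by
      have h3 := congrArg dd MLRam_dP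
      rw [MLRam_num, dd_dbl, map_add] at h3
      linear_combination h3
    have h4 : dd (2 * al - be) = 2 * (al * (MLRamB + al - be)) - be * MLRamB := by
      rw [map_sub, MLRam_num, MLRam_dal, MLRam_dbe]
    rw [h1, MLRam_dQ]
    have h5 := MLRam_dP
    have h6 := MLRam_p2
    have h7 : ser4 = 16 * al ^ 2 - 16 * al * be + be ^ 2 := rfl
    rw [h4] at h2
    rw [h7]
    linear_combination 12 * h2 - (2 * dbl p2Z + p2Z + (2 * al - be)) * h5 - 2 * (2 * al - be) * h6
  linear_combination hZ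

end ML
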