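import Pool.Agent.Lib_MP_bfd926_ml.MLEv

/-!
# Recurrences for the Hecke operator

`D = dlZ`, `Q = ser4`, `D' = dbl D`, `Q' = dbl Q`. `id_J1`, `id_J2`, `id_P1`, `id_P2` are identities in
`al`, `be`: `16 * D = be ^ 4 * al * (al - be)`, `256 * D' = al ^ 2 * be ^ 2 * (al - be) ^ 2`,
`Q = 16 * al ^ 2 - 16 * al * be + be ^ 2`, `Q' = al ^ 2 - al * be + be ^ 2`.
`rec1`, `rec2`, `rec3`: recurrences for `T₂ (D ^ c * Q ^ (3 * i) * G)`.
-/

open PowerSeries MT2

namespace ML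

private theorem RA_D : 16 * dlZ = be ^ 4 * al * (al - be) := by
  unfold dlZ
  linear_combination be ^ 4 * ff_eq

private theorem RA_dbl_mul (φ ψ : PowerSeries ℤ) : dbl (φ * ψ) = dbl φ * dbl ψ := by
  unfold dbl
  exact map_mul _ _ _

private theorem RA_dbl_pow (φ : PowerSeries ℤ) (n : ℕ) : dbl (φ ^ n) = dbl φ ^ n := by
  unfold dbl
  exact map_pow _ _ _

private theorem RA_dbl_sub (φ ψ : PowerSeries ℤ) : dbl (φ - ψ) = dbl φ - dbl ψ := by
  unfold dbl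
  exact map_sub _ _ _

private theorem RA_dbl_add (φ ψ : PowerSeries ℤ) : dbl (φ + ψ) = dbl φ + dbl ψ := by
  unfold dbl
  exact map_add _ _ _

private theorem RA_dbl_ofNat (n : ℕ) [n.AtLeastTwo] :
    dbl (OfNat.ofNat n : PowerSeries ℤ) = OfNat.ofNat n := by
  unfold dbl
  exact map_ofNat _ n

private theorem RA_al : al = thA ^ 4 := rfl

private theorem RA_be : be = thB ^ 4 := rfl

private theorem RA_D' : 256 * dbl dlZ = al ^ 2 * be ^ 2 * (al - be) ^ 2 := by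
  have h1 := congrArg dbl RA_D
  rw [RA_dbl_mul, RA_dbl_mul, RA_dbl_mul, RA_dbl_pow, RA_dbl_sub, RA_dbl_ofNat] at h1
  have h2 : (16 : PowerSeries ℤ) * (256 * dbl dlZ) = 16 * (al ^ 2 * be ^ 2 * (al - be) ^ 2) := by
    have h3 := dbl_al
    have h4 := dbl_be
    rw [RA_al, RA_be] at *
    have h5 : (16 : PowerSeries ℤ) * (256 * dbl dlZ) = 16 * dbl (thB ^ 4) ^ 4 * (4 * dbl (thA ^ 4)) *
        (4 * dbl (thA ^ 4) - 4 * dbl (thB ^ 4)) := by
      linear_combination 256 * h1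
    rw [h5, h3, h4]
    ring
  have h16 : (16 : PowerSeries ℤ) ≠ 0 := by
    rw [← map_ofNat (PowerSeries.C (R := ℤ)) 16, Ne, map_eq_zero_iff _ (PowerSeries.C_injective)]
    norm_num
  exact mul_left_cancel₀ h16 h2

private theorem RA_Q : ser4 = 16 * al ^ 2 - 16 * al * be + be ^ 2 := rfl

private theorem RA_Q' : dbl ser4 = al ^ 2 - al * be + be ^ 2 := by
  have h1 : dbl ser4 = 16 * dbl al ^ 2 - 16 * dbl al * dbl be + dbl be ^ 2 := by
    rw [RA_Q, RA_dbl_add, RA_dbl_sub, RA_dbl_mul, RA_dbl_mul, RA_dbl_mul, RA_dbl_pow, RA_dbl_pow,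
      RA_dbl_ofNat]
  have h2 : dbl ser4 = (4 * dbl al) ^ 2 - 4 * (4 * dbl al) * dbl be + dbl be ^ 2 := by
    rw [h1]
    ring
  rw [h2, dbl_al, dbl_be, RA_al, RA_be]
  ring

private theorem RA_cancel {n : ℕ} (hn : n ≠ 0) {φ ψ : PowerSeries ℤ}
    (h : (n : PowerSeries ℤ) * φ = (n : PowerSeries ℤ) * ψ) : φ = ψ := by
  have h16 : (n : PowerSeries ℤ) ≠ 0 := by
    rw [← map_natCast (PowerSeries.C (R := ℤ)) n, Ne, map_eq_zero_iff _ (PowerSeries.C_injective)]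
    exact Nat.cast_ne_zero.mpr hn
  exact mul_left_cancel₀ h16 h

theorem id_J1 : (dlZ + 256 * dbl dlZ) ^ 3 = ser4 ^ 3 * dlZ * dbl dlZ := by
  apply RA_cancel (n := 4096) (by norm_num)
  push_cast
  have e : (4096 : PowerSeries ℤ) * (dlZ + 256 * dbl dlZ) ^ 3 =
      (16 * dlZ + 16 * (256 * dbl dlZ)) ^ 3 := by ring
  have e2 : (4096 : PowerSeries ℤ) * (ser4 ^ 3 * dlZ * dbl dlZ) =
      ser4 ^ 3 * (16 * dlZ) * (256 * dbl dlZ) := by ring
  rw [e, e2, RA_D, RA_D', RA_Q]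
  ring

theorem id_J2 : (dlZ + 16 * dbl dlZ) ^ 3 = dbl ser4 ^ 3 * dlZ * dbl dlZ := by
  apply RA_cancel (n := 4096) (by norm_num)
  push_cast
  have e : (4096 : PowerSeries ℤ) * (dlZ + 16 * dbl dlZ) ^ 3 =
      (16 * dlZ + (256 * dbl dlZ)) ^ 3 := by ring
  have e2 : (4096 : PowerSeries ℤ) * (dbl ser4 ^ 3 * dlZ * dbl dlZ) =
      dbl ser4 ^ 3 * (16 * dlZ) * (256 * dbl dlZ) := by ring
  rw [e, e2, RA_D, RA_D', RA_Q']
  ring

theorem id_P1 : dbl ser4 ^ 3 * dlZ =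
    ser4 ^ 3 * dlZ - 720 * dlZ ^ 2 - 195840 * dlZ * dbl dlZ - 16773120 * dbl dlZ ^ 2 := by
  apply RA_cancel (n := 65536) (by norm_num)
  push_cast
  have e : (65536 : PowerSeries ℤ) * (dbl ser4 ^ 3 * dlZ) = 4096 * dbl ser4 ^ 3 * (16 * dlZ) := by ring
  have e2 : (65536 : PowerSeries ℤ) *
      (ser4 ^ 3 * dlZ - 720 * dlZ ^ 2 - 195840 * dlZ * dbl dlZ - 16773120 * dbl dlZ ^ 2) =
      4096 * ser4 ^ 3 * (16 * dlZ) - 720 * 256 * (16 * dlZ) ^ 2 -
        195840 * 16 * (16 * dlZ) * (256 * dbl dlZ) - 16773120 * (256 * dbl dlZ) ^ 2 := by ring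
  rw [e, e2, RA_D, RA_D', RA_Q', RA_Q]
  ring

theorem id_P2 : ser4 ^ 3 * dbl dlZ = -4095 * dlZ ^ 2 - 195840 * dlZ * dbl dlZ +
    4096 * dbl ser4 ^ 3 * dbl dlZ - 2949120 * dbl dlZ ^ 2 := by
  apply RA_cancel (n := 65536) (by norm_num)
  push_cast
  have e : (65536 : PowerSeries ℤ) * (ser4 ^ 3 * dbl dlZ) = 256 * ser4 ^ 3 * (256 * dbl dlZ) := by ring
  have e2 : (65536 : PowerSeries ℤ) * (-4095 * dlZ ^ 2 - 195840 * dlZ * dbl dlZ +
      4096 * dbl ser4 ^ 3 * dbl dlZ - 2949120 * dbl dlZ ^ 2) =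
      -4095 * 256 * (16 * dlZ) ^ 2 - 195840 * 16 * (16 * dlZ) * (256 * dbl dlZ) +
        4096 * 256 * dbl ser4 ^ 3 * (256 * dbl dlZ) - 2949120 * (256 * dbl dlZ) ^ 2 := by ring
  rw [e, e2, RA_D, RA_D', RA_Q', RA_Q]
  ring

/-! ### The recurrences -/

variable (F : Type) [CommRing F]

private theorem RA_up_dbl (φ : PowerSeries ℤ) : up F (dbl φ) = dbl (up F φ) := by
  unfold up dbl
  ext m
  rw [PowerSeries.coeff_map]
  by_cases h : 2 ∣ m
  · obtain ⟨k, rfl⟩ := h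
    rw [PowerSeries.coeff_expand_mul, PowerSeries.coeff_expand_mul, PowerSeries.coeff_map]
  · rw [PowerSeries.coeff_expand_of_not_dvd 2 two_ne_zero _ h,
      PowerSeries.coeff_expand_of_not_dvd 2 two_ne_zero _ h, map_zero]

/-- `U₂ (φ(q ^ 2) ψ) = φ U₂ ψ` -/
theorem uu_dbl (φ ψ : PowerSeries F) : uu (dbl φ * ψ) = φ * uu ψ := by
  ext n
  rw [uu, PowerSeries.coeff_mk, PowerSeries.coeff_mul, PowerSeries.coeff_mul]
  symm
  apply Finset.sum_of_injOn (fun x : ℕ × ℕ => (2 * x.1, 2 * x.2))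
  · rintro ⟨a, b⟩ _ ⟨c, d⟩ _ h
    simp only [Prod.mk.injEq] at h
    ext <;> simp <;> omega
  · rintro ⟨a, b⟩ h
    rw [Finset.mem_coe, Finset.HasAntidiagonal.mem_antidiagonal] at h ⊢
    simp only at h ⊢
    omega
  · rintro ⟨a, b⟩ h1 h2
    rw [Finset.HasAntidiagonal.mem_antidiagonal] at h1
    simp only at h1
    have h3 : ¬ 2 ∣ a := by
      rintro ⟨c, hc⟩
      apply h2
      refine ⟨(c, n - c), ?_, ?_⟩
      · rw [Finset.mem_coe, Finset.HasAntidiagonal.mem_antidiagonal]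
        show c + (n - c) = n
        omega
      · show (2 * c, 2 * (n - c)) = (a, b)
        rw [Prod.mk.injEq]
        omega
    rw [dbl, PowerSeries.coeff_expand_of_not_dvd 2 two_ne_zero _ h3, zero_mul]
  · rintro ⟨a, b⟩ _
    rw [dbl, PowerSeries.coeff_expand_mul, uu, PowerSeries.coeff_mk]

private theorem RA_hk (k : ℕ) (φ : PowerSeries F) : hk F k φ = uu φ + (2 : F) ^ (k - 1) • dbl φ := rfl

private theorem RA_uu_add (φ ψ : PowerSeries F) : uu (φ + ψ) = uu φ + uu ψ := by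
  ext n; simp [uu]

private theorem RA_uu_sub (φ ψ : PowerSeries F) : uu (φ - ψ) = uu φ - uu ψ := by
  ext n; simp [uu]

private theorem RA_uu_smul (c : F) (φ : PowerSeries F) : uu (c • φ) = c • uu φ := by
  ext n; simp [uu]

private theorem RA_dblF_mul (φ ψ : PowerSeries F) : dbl (φ * ψ) = dbl φ * dbl ψ := by
  unfold dbl
  exact map_mul _ _ _

private theorem RA_hk' (k : ℕ) (φ : PowerSeries F) :
    hk F k φ = uu φ + C ((2 : F) ^ (k - 1)) * dbl φ := by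
  rw [RA_hk, PowerSeries.smul_eq_C_mul]

private theorem RA_uu_nat (n : ℕ) (φ : PowerSeries F) : uu ((n : PowerSeries F) * φ) = n * uu φ := by
  have h : ∀ ψ : PowerSeries F, (n : PowerSeries F) * ψ = (n : F) • ψ := by
    intro ψ
    rw [PowerSeries.smul_eq_C_mul, map_natCast]
  rw [h, h, RA_uu_smul]

private theorem RA_two (j t : ℕ) : (2 : F) ^ (j + t) = 2 ^ j * 2 ^ t := pow_add _ _ _

private theorem RA_J1 : (up F dlZ + 256 * dbl (up F dlZ)) ^ 3 =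
    up F ser4 ^ 3 * up F dlZ * dbl (up F dlZ) := by
  have h := congrArg (up F) id_J1
  unfold up at h ⊢
  rw [map_pow, map_add, map_mul, map_ofNat, map_mul, map_mul, map_pow] at h
  have h2 := RA_up_dbl F dlZ
  unfold up at h2
  rw [h2] at h
  exact h

private theorem RA_J2 : (up F dlZ + 16 * dbl (up F dlZ)) ^ 3 =
    dbl (up F ser4) ^ 3 * up F dlZ * dbl (up F dlZ) := by
  have h := congrArg (up F) id_J2
  unfold up at h ⊢
  rw [map_pow, map_add, map_mul, map_ofNat, map_mul, map_mul, map_pow] at h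
  have h2 := RA_up_dbl F dlZ
  have h3 := RA_up_dbl F ser4
  unfold up at h2 h3
  rw [h2, h3] at h
  exact h

private theorem RA_P1 : dbl (up F ser4) ^ 3 * up F dlZ =
    up F ser4 ^ 3 * up F dlZ - 720 * up F dlZ ^ 2 - 195840 * up F dlZ * dbl (up F dlZ) -
      16773120 * dbl (up F dlZ) ^ 2 := by
  have h := congrArg (up F) id_P1
  unfold up at h ⊢
  rw [map_mul, map_pow, map_sub, map_sub, map_sub, map_mul, map_pow, map_mul, map_ofNat, map_pow,
    map_mul, map_mul, map_ofNat, map_mul, map_ofNat, map_pow] at h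
  have h2 := RA_up_dbl F dlZ
  have h3 := RA_up_dbl F ser4
  unfold up at h2 h3
  rw [h2, h3] at h
  exact h

private theorem RA_P2 : up F ser4 ^ 3 * dbl (up F dlZ) = -4095 * up F dlZ ^ 2 -
    195840 * up F dlZ * dbl (up F dlZ) + 4096 * dbl (up F ser4) ^ 3 * dbl (up F dlZ) -
      2949120 * dbl (up F dlZ) ^ 2 := by
  have h := congrArg (up F) id_P2
  unfold up at h ⊢
  rw [map_mul, map_pow, map_sub, map_add, map_sub, map_mul, map_neg, map_ofNat, map_pow,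
    map_mul, map_mul, map_ofNat, map_mul, map_mul, map_ofNat, map_pow, map_mul, map_ofNat, map_pow] at h
  have h2 := RA_up_dbl F dlZ
  have h3 := RA_up_dbl F ser4
  unfold up at h2 h3
  rw [h2, h3] at h
  exact h

/-- the recurrence in the exponent of `D`, constant `Q` -/
theorem rec1 (k : ℕ) (hk1 : 1 ≤ k) (φ : PowerSeries F) :
    hk F (k + 36) (up F dlZ ^ 3 * φ) = -48 * (up F dlZ * hk F (k + 24) (up F dlZ ^ 2 * φ)) +
      (up F ser4 ^ 3 * up F dlZ - 768 * up F dlZ ^ 2) * hk F (k + 12) (up F dlZ * φ) -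
        4096 * (up F dlZ ^ 3 * hk F k φ) := by
  set D := up F dlZ with hD
  set Q := up F ser4 with hQ
  have hJ1 := RA_J1 F
  have hJ2 := RA_J2 F
  rw [← hD, ← hQ] at hJ1 hJ2
  have hU : uu (D ^ 3 * φ) = -48 * (D * uu (D ^ 2 * φ)) + (Q ^ 3 * D - 768 * D ^ 2) * uu (D * φ) -
      4096 * (D ^ 3 * uu φ) := by
    have h1 : D ^ 3 * φ = dbl (Q ^ 3 * D) * (D * φ) - ((48 : ℕ) : PowerSeries F) * (dbl D * (D ^ 2 * φ)) -
        ((768 : ℕ) : PowerSeries F) * (dbl (D ^ 2) * (D * φ)) - ((4096 : ℕ) : PowerSeries F) * (dbl (D ^ 3) * φ) := by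
      have e1 : dbl (Q ^ 3 * D) = dbl Q ^ 3 * dbl D := by unfold dbl; rw [map_mul, map_pow]
      have e2 : dbl (D ^ 2) = dbl D ^ 2 := by unfold dbl; rw [map_pow]
      have e3 : dbl (D ^ 3) = dbl D ^ 3 := by unfold dbl; rw [map_pow]
      rw [e1, e2, e3]
      push_cast
      linear_combination φ * hJ2
    conv_lhs => rw [h1]
    rw [RA_uu_sub, RA_uu_sub, RA_uu_sub, RA_uu_nat, RA_uu_nat, RA_uu_nat, uu_dbl, uu_dbl, uu_dbl, uu_dbl]
    push_cast
    ring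
  have hV : dbl (D ^ 3 * φ) = dbl D ^ 3 * dbl φ := by unfold dbl; rw [map_mul, map_pow]
  have hV2 : dbl (D ^ 2 * φ) = dbl D ^ 2 * dbl φ := by unfold dbl; rw [map_mul, map_pow]
  have hV1 : dbl (D * φ) = dbl D * dbl φ := by unfold dbl; rw [map_mul]
  have c3 : (C ((2 : F) ^ (k + 36 - 1)) : PowerSeries F) = 68719476736 * C ((2 : F) ^ (k - 1)) := by
    rw [show k + 36 - 1 = 36 + (k - 1) by omega, pow_add, map_mul]
    congr 1
    norm_num
    exact map_ofNat _ _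
  have c2 : (C ((2 : F) ^ (k + 24 - 1)) : PowerSeries F) = 16777216 * C ((2 : F) ^ (k - 1)) := by
    rw [show k + 24 - 1 = 24 + (k - 1) by omega, pow_add, map_mul]
    congr 1
    norm_num
    exact map_ofNat _ _
  have c1 : (C ((2 : F) ^ (k + 12 - 1)) : PowerSeries F) = 4096 * C ((2 : F) ^ (k - 1)) := by
    rw [show k + 12 - 1 = 12 + (k - 1) by omega, pow_add, map_mul]
    congr 1
    norm_num
    exact map_ofNat _ _
  rw [RA_hk', RA_hk', RA_hk', RA_hk', hU, hV, hV2, hV1, c3, c2, c1]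
  linear_combination (4096 * C ((2 : F) ^ (k - 1)) * dbl φ) * hJ1

/-- the recurrence in the exponent of `Q` -/
theorem rec2 (k : ℕ) (hk1 : 1 ≤ k) (φ : PowerSeries F) :
    up F dlZ * hk F (k + 12) (up F ser4 ^ 3 * φ) = -4095 * hk F (k + 24) (up F dlZ ^ 2 * φ) -
      195840 * (up F dlZ * hk F (k + 12) (up F dlZ * φ)) +
        (4096 * (up F ser4 ^ 3 * up F dlZ) - 2949120 * up F dlZ ^ 2) * hk F k φ := by
  set D := up F dlZ with hD
  set Q := up F ser4 with hQ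
  have hP1 := RA_P1 F
  have hP2 := RA_P2 F
  rw [← hD, ← hQ] at hP1 hP2
  have e1 : dbl (Q ^ 3 * D) = dbl Q ^ 3 * dbl D := by unfold dbl; rw [map_mul, map_pow]
  have e2 : dbl (D ^ 2) = dbl D ^ 2 := by unfold dbl; rw [map_pow]
  have hU : D * uu (Q ^ 3 * φ) = -4095 * uu (D ^ 2 * φ) - 195840 * (D * uu (D * φ)) +
      (4096 * (Q ^ 3 * D) - 2949120 * D ^ 2) * uu φ := by
    have h1 : dbl D * (Q ^ 3 * φ) = ((4096 : ℕ) : PowerSeries F) * (dbl (Q ^ 3 * D) * φ) - ((4095 : ℕ) : PowerSeries F) * (D ^ 2 * φ) -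
        ((195840 : ℕ) : PowerSeries F) * (dbl D * (D * φ)) - ((2949120 : ℕ) : PowerSeries F) * (dbl (D ^ 2) * φ) := by
      rw [e1, e2]
      push_cast
      linear_combination φ * hP2
    have h2 := congrArg uu h1
    rw [uu_dbl, RA_uu_sub, RA_uu_sub, RA_uu_sub, RA_uu_nat, RA_uu_nat, RA_uu_nat, RA_uu_nat, uu_dbl,
      uu_dbl, uu_dbl] at h2
    rw [h2]
    push_cast
    ring
  have hVQ : dbl (Q ^ 3 * φ) = dbl Q ^ 3 * dbl φ := by unfold dbl; rw [map_mul, map_pow]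
  have hV2 : dbl (D ^ 2 * φ) = dbl D ^ 2 * dbl φ := by unfold dbl; rw [map_mul, map_pow]
  have hV1 : dbl (D * φ) = dbl D * dbl φ := by unfold dbl; rw [map_mul]
  have c2 : (C ((2 : F) ^ (k + 24 - 1)) : PowerSeries F) = 16777216 * C ((2 : F) ^ (k - 1)) := by
    rw [show k + 24 - 1 = 24 + (k - 1) by omega, pow_add, map_mul]
    congr 1
    norm_num
    exact map_ofNat _ _
  have c1 : (C ((2 : F) ^ (k + 12 - 1)) : PowerSeries F) = 4096 * C ((2 : F) ^ (k - 1)) := by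
    rw [show k + 12 - 1 = 12 + (k - 1) by omega, pow_add, map_mul]
    congr 1
    norm_num
    exact map_ofNat _ _
  rw [RA_hk', RA_hk', RA_hk', RA_hk', mul_add, hU, hV2, hV1, hVQ, c2, c1]
  linear_combination (4096 * C ((2 : F) ^ (k - 1)) * dbl φ) * hP1

/-- the recurrence in both exponents -/
theorem rec3 (k : ℕ) (hk1 : 1 ≤ k) (φ : PowerSeries F) :
    hk F (k + 24) (up F dlZ * (up F ser4 ^ 3 * φ)) = 720 * hk F (k + 24) (up F dlZ ^ 2 * φ) +
      (up F ser4 ^ 3 + 195840 * up F dlZ) * hk F (k + 12) (up F dlZ * φ) +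
        16773120 * (up F dlZ ^ 2 * hk F k φ) := by
  set D := up F dlZ with hD
  set Q := up F ser4 with hQ
  have hP1 := RA_P1 F
  have hP2 := RA_P2 F
  rw [← hD, ← hQ] at hP1 hP2
  have e1 : dbl (Q ^ 3) = dbl Q ^ 3 := by unfold dbl; rw [map_pow]
  have e2 : dbl (D ^ 2) = dbl D ^ 2 := by unfold dbl; rw [map_pow]
  have hU : uu (D * (Q ^ 3 * φ)) = 720 * uu (D ^ 2 * φ) + (Q ^ 3 + 195840 * D) * uu (D * φ) +
      16773120 * (D ^ 2 * uu φ) := by
    have h1 : D * (Q ^ 3 * φ) = ((720 : ℕ) : PowerSeries F) * (D ^ 2 * φ) + dbl (Q ^ 3) * (D * φ) +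
        ((195840 : ℕ) : PowerSeries F) * (dbl D * (D * φ)) + ((16773120 : ℕ) : PowerSeries F) * (dbl (D ^ 2) * φ) := by
      rw [e1, e2]
      push_cast
      linear_combination (-φ) * hP1
    conv_lhs => rw [h1]
    rw [RA_uu_add, RA_uu_add, RA_uu_add, RA_uu_nat, RA_uu_nat, RA_uu_nat, uu_dbl, uu_dbl, uu_dbl]
    push_cast
    ring
  have hVQ : dbl (D * (Q ^ 3 * φ)) = dbl D * (dbl Q ^ 3 * dbl φ) := by
    unfold dbl; rw [map_mul, map_mul, map_pow]
  have hV2 : dbl (D ^ 2 * φ) = dbl D ^ 2 * dbl φ := by unfold dbl; rw [map_mul, map_pow]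
  have hV1 : dbl (D * φ) = dbl D * dbl φ := by unfold dbl; rw [map_mul]
  have c2 : (C ((2 : F) ^ (k + 24 - 1)) : PowerSeries F) = 16777216 * C ((2 : F) ^ (k - 1)) := by
    rw [show k + 24 - 1 = 24 + (k - 1) by omega, pow_add, map_mul]
    congr 1
    norm_num
    exact map_ofNat _ _
  have c1 : (C ((2 : F) ^ (k + 12 - 1)) : PowerSeries F) = 4096 * C ((2 : F) ^ (k - 1)) := by
    rw [show k + 12 - 1 = 12 + (k - 1) by omega, pow_add, map_mul]
    congr 1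
    norm_num
    exact map_ofNat _ _
  rw [RA_hk', RA_hk', RA_hk', RA_hk', hU, hV2, hV1, hVQ, c2, c1]
  linear_combination (-4096 * C ((2 : F) ^ (k - 1)) * dbl φ) * hP2

end ML
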