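import Pool.Agent.Lib_MP_bfd926_ml.MLRecA
import Pool.Agent.Lib_MP_bfd926_ml.MLBase

/-!
# The Hecke operator `T₂` on the basis: recurrences of polynomials

`tt R a e i c` is the polynomial of `T₂ (D ^ c * Q ^ (3 * i) * Q ^ a * R ^ e)`, `c ≥ 1`.
-/

open PowerSeries MT2

namespace ML

/-- The polynomials of `T₂ (D ^ c * Q ^ a * R ^ e)`. -/
noncomputable def tz (R : Type) [CommRing R] (a e : ℕ) : ℕ → Polynomial R
  | 0 => 0
  | 1 => (lp (tbL 1 a e)).map (Int.castRingHom R)
  | 2 => (lp (tbL 2 a e)).map (Int.castRingHom R)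
  | 3 => (lp (tbL 3 a e)).map (Int.castRingHom R)
  | (c + 4) => -48 * tz R a e (c + 3) + (Polynomial.X - 768) * tz R a e (c + 2) -
      4096 * tz R a e (c + 1)

/-- The polynomials of `T₂ (D ^ c * Q ^ (3 * i) * Q ^ a * R ^ e)`. -/
noncomputable def tt (R : Type) [CommRing R] (a e : ℕ) : ℕ → ℕ → Polynomial R
  | 0, c => tz R a e c
  | (i + 1), c => -4095 * tt R a e i (c + 2) - 195840 * tt R a e i (c + 1) +
      (4096 * Polynomial.X - 2949120) * tt R a e i c

section

variable (R : Type) [CommRing R]

private theorem RB_nd (n m : ℕ) (p : Polynomial R) [n.AtLeastTwo] (h : p.natDegree ≤ m) :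
    ((OfNat.ofNat n : Polynomial R) * p).natDegree ≤ m := by
  refine (Polynomial.natDegree_mul_le).trans ?_
  rw [show (OfNat.ofNat n : Polynomial R) = ((n : ℕ) : Polynomial R) from rfl,
    Polynomial.natDegree_natCast, zero_add]
  exact h

private theorem RB_nneg (n m : ℕ) (p : Polynomial R) [n.AtLeastTwo] (h : p.natDegree ≤ m) :
    ((-OfNat.ofNat n : Polynomial R) * p).natDegree ≤ m := by
  rw [neg_mul, Polynomial.natDegree_neg]
  exact RB_nd R n m p h

private theorem RB_lin (u p : Polynomial R) (m : ℕ) (hu : u.natDegree ≤ 1) (h : p.natDegree ≤ m) :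
    (u * p).natDegree ≤ m + 1 := by
  refine (Polynomial.natDegree_mul_le).trans ?_
  omega

private theorem RB_add (p q : Polynomial R) (m : ℕ) (h : p.natDegree ≤ m) (h' : q.natDegree ≤ m) :
    (p + q).natDegree ≤ m :=
  (Polynomial.natDegree_add_le _ _).trans (max_le h h')

private theorem RB_sub (p q : Polynomial R) (m : ℕ) (h : p.natDegree ≤ m) (h' : q.natDegree ≤ m) :
    (p - q).natDegree ≤ m :=
  (Polynomial.natDegree_sub_le _ _).trans (max_le h h')

private theorem RB_u1 : (Polynomial.X - 768 : Polynomial R).natDegree ≤ 1 := by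
  refine RB_sub R _ _ _ Polynomial.natDegree_X_le ?_
  rw [show (768 : Polynomial R) = ((768 : ℕ) : Polynomial R) from rfl, Polynomial.natDegree_natCast]
  exact Nat.zero_le _

private theorem RB_u2 : (4096 * Polynomial.X - 2949120 : Polynomial R).natDegree ≤ 1 := by
  refine RB_sub R _ _ _ (RB_nd R 4096 1 _ Polynomial.natDegree_X_le) ?_
  rw [show (2949120 : Polynomial R) = ((2949120 : ℕ) : Polynomial R) from rfl,
    Polynomial.natDegree_natCast]
  exact Nat.zero_le _

theorem tbL_len2 : ∀ c < 4, ∀ a < 3, ∀ e < 2, 1 ≤ c → (tbL c a e).length ≤ c / 2 + 1 := by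
  decide +kernel

private theorem RB_base (c a e : ℕ) (h1 : 1 ≤ c) (hc : c < 4) (ha : a ≤ 2) (he : e ≤ 1) :
    ((lp (tbL c a e)).map (Int.castRingHom R)).natDegree ≤ c / 2 := by
  refine (Polynomial.natDegree_map_le).trans ?_
  have hlen := tbL_len2 c hc a (by omega) e (by omega) h1
  rw [Polynomial.natDegree_le_iff_coeff_eq_zero]
  intro i hi
  rw [lp_coeff _ (by omega), List.getD_eq_default _ _ (by omega)]

theorem tz_deg (a e : ℕ) (ha : a ≤ 2) (he : e ≤ 1) (c : ℕ) : (tz R a e c).natDegree ≤ c / 2 := by
  induction c using Nat.strong_induction_on with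
  | _ c ih =>
    match c with
    | 0 => simp [tz]
    | 1 => exact RB_base R 1 a e (by norm_num) (by norm_num) ha he
    | 2 => exact RB_base R 2 a e (by norm_num) (by norm_num) ha he
    | 3 => exact RB_base R 3 a e (by norm_num) (by norm_num) ha he
    | (c + 4) =>
      have h1 := ih (c + 3) (by omega)
      have h2 := ih (c + 2) (by omega)
      have h3 := ih (c + 1) (by omega)
      rw [tz]
      refine RB_sub R _ _ _ (RB_add R _ _ _ ?_ ?_) ?_
      · exact RB_nneg R 48 _ _ (h1.trans (by omega))
      · exact (RB_lin R _ _ _ (RB_u1 R) h2).trans (by omega)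
      · exact RB_nd R 4096 _ _ (h3.trans (by omega))

theorem tt_deg (a e : ℕ) (ha : a ≤ 2) (he : e ≤ 1) (i : ℕ) :
    ∀ c, (tt R a e i c).natDegree ≤ i + c / 2 := by
  induction i with
  | zero =>
    intro c
    rw [tt, zero_add]
    exact tz_deg R a e ha he c
  | succ i ih =>
    intro c
    rw [tt]
    refine RB_add R _ _ _ (RB_sub R _ _ _ ?_ ?_) ?_
    · exact RB_nneg R 4095 _ _ ((ih (c + 2)).trans (by omega))
    · exact RB_nd R 195840 _ _ ((ih (c + 1)).trans (by omega))
    · exact (RB_lin R _ _ _ (RB_u2 R) (ih c)).trans (by omega)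

theorem ev_D (d a e : ℕ) (p : Polynomial R) (hp : p.natDegree ≤ d) :
    up R dlZ * ev R d a e p = ev R (d + 1) a e p := by
  have h := ev_mul R d a e 1 0 0 p 1 hp (by simp)
  have h1 : ev R 1 0 0 (1 : Polynomial R) = up R dlZ := by
    rw [ev_apply, Finset.sum_range_succ, Finset.sum_range_one, Polynomial.coeff_one_zero,
      Polynomial.coeff_one, if_neg (by norm_num), one_smul, zero_smul, add_zero]
    congr 1
    simp [bsZ]
  rw [h1, mul_one] at h
  rw [mul_comm, h]
  rfl

theorem ev_Q (d a e : ℕ) (p : Polynomial R) (hp : p.natDegree ≤ d) :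
    up R ser4 ^ 3 * ev R d a e p = ev R (d + 1) a e (Polynomial.X * p) := by
  have h := ev_mul R d a e 1 0 0 p Polynomial.X hp Polynomial.natDegree_X_le
  have h1 : ev R 1 0 0 (Polynomial.X : Polynomial R) = up R ser4 ^ 3 := by
    rw [ev_apply, Finset.sum_range_succ, Finset.sum_range_one, Polynomial.coeff_X_zero,
      Polynomial.coeff_X_one, one_smul, zero_smul, zero_add]
    unfold up
    rw [← map_pow]
    congr 1
    simp [bsZ]
  rw [h1] at h
  rw [mul_comm, h, mul_comm p]
  rfl

private theorem RB_num (n : ℕ) [n.AtLeastTwo] (d a e : ℕ) (p : Polynomial R) :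
    ev R d a e ((OfNat.ofNat n : Polynomial R) * p) = (OfNat.ofNat n : PowerSeries R) * ev R d a e p := by
  rw [show (OfNat.ofNat n : Polynomial R) = ((n : ℕ) : Polynomial R) from rfl,
    show (OfNat.ofNat n : PowerSeries R) = ((n : ℕ) : PowerSeries R) from rfl,
    ← nsmul_eq_mul, ← nsmul_eq_mul, map_nsmul]

private theorem RB_bs (c a e i : ℕ) :
    up R (bsZ (c + i) a e i) = up R dlZ ^ c * (up R ser4 ^ (a + 3 * i) * up R ser6 ^ e) := by
  unfold bsZ up
  rw [Nat.add_sub_cancel, map_mul, map_mul, map_pow, map_pow, map_pow, mul_assoc]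

private theorem RB_cancel (φ ψ : PowerSeries R) (h : up R dlZ * φ = up R dlZ * ψ) : φ = ψ := by
  obtain ⟨g, hg, hg1⟩ := dlZ_X
  have h0 : up R dlZ = PowerSeries.X * up R g := by
    unfold up
    rw [hg, map_mul, PowerSeries.map_X]
  have hu : IsUnit (up R g) := by
    rw [PowerSeries.isUnit_iff_constantCoeff]
    unfold up
    rw [← PowerSeries.coeff_zero_eq_constantCoeff_apply, PowerSeries.coeff_map,
      PowerSeries.coeff_zero_eq_constantCoeff_apply, hg1, map_one]
    exact isUnit_one
  rw [h0, mul_assoc, mul_assoc] at h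
  have h2 : up R g * φ = up R g * ψ := by
    ext n
    have h3 := congrArg (coeff (n + 1)) h
    rwa [PowerSeries.coeff_succ_X_mul, PowerSeries.coeff_succ_X_mul] at h3
  exact hu.mul_left_cancel h2

theorem tt_hk (a e : ℕ) (ha : a ≤ 2) (he : e ≤ 1) (i : ℕ) :
    ∀ c, 1 ≤ c → hk R (wt (c + i) a e) (up R (bsZ (c + i) a e i)) = ev R (c + i) a e (tt R a e i c) := by
  induction i with
  | zero =>
    intro c
    induction c using Nat.strong_induction_on with
    | _ c ih =>
      intro hc
      have hbase : ∀ c, 1 ≤ c → c ≤ 3 → hk R (wt c a e) (up R (bsZ c a e 0)) =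
          ev R c a e ((lp (tbL c a e)).map (Int.castRingHom R)) := by
        intro c h1 h3
        have h := congrArg (PowerSeries.map (Int.castRingHom R)) (base c a e h1 h3 ha he)
        rw [hk_map, ev_map, ev_map, Polynomial.map_one] at h
        rw [← h]
        congr 1
        rw [ev_apply, Finset.sum_eq_single 0]
        · rw [Polynomial.coeff_one_zero, one_smul]
        · intro b _ hb
          rw [Polynomial.coeff_one, if_neg hb, zero_smul]
        · intro h2
          exact absurd (Finset.mem_range.mpr (by omega)) h2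
      match c with
      | 0 => omega
      | 1 => exact hbase 1 (by norm_num) (by norm_num)
      | 2 => exact hbase 2 (by norm_num) (by norm_num)
      | 3 => exact hbase 3 (by norm_num) (by norm_num)
      | (c + 4) =>
        have h1 := ih (c + 3) (by omega) (by omega)
        have h2 := ih (c + 2) (by omega) (by omega)
        have h3 := ih (c + 1) (by omega) (by omega)
        have d1 := tz_deg R a e ha he (c + 3)
        have d2 := tz_deg R a e ha he (c + 2)
        have d3 := tz_deg R a e ha he (c + 1)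
        have h := rec1 (F := R) (wt (c + 1) a e) (by unfold wt; omega)
          (up R (bsZ (c + 1) a e 0))
        have e1 : up R dlZ ^ 3 * up R (bsZ (c + 1) a e 0) = up R (bsZ (c + 4) a e 0) := by
          have := RB_bs R (c + 1) a e 0
          have h' := RB_bs R (c + 4) a e 0
          rw [add_zero] at this h'
          rw [this, h']
          ring
        have e2 : up R dlZ ^ 2 * up R (bsZ (c + 1) a e 0) = up R (bsZ (c + 3) a e 0) := by
          have := RB_bs R (c + 1) a e 0
          have h' := RB_bs R (c + 3) a e 0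
          rw [add_zero] at this h'
          rw [this, h']
          ring
        have e3 : up R dlZ * up R (bsZ (c + 1) a e 0) = up R (bsZ (c + 2) a e 0) := by
          have := RB_bs R (c + 1) a e 0
          have h' := RB_bs R (c + 2) a e 0
          rw [add_zero] at this h'
          rw [this, h']
          ring
        have w1 : wt (c + 1) a e + 36 = wt (c + 4) a e := by unfold wt; omega
        have w2 : wt (c + 1) a e + 24 = wt (c + 3) a e := by unfold wt; omega
        have w3 : wt (c + 1) a e + 12 = wt (c + 2) a e := by unfold wt; omega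
        simp only [add_zero, tt] at h1 h2 h3 ⊢
        rw [e1, e2, e3, w1, w2, w3, h1, h2, h3] at h
        rw [h]
        have m1 : up R dlZ * ev R (c + 3) a e (tz R a e (c + 3)) =
            ev R (c + 4) a e (tz R a e (c + 3)) := ev_D R _ _ _ _ (by omega)
        have m2 : up R dlZ * ev R (c + 2) a e (tz R a e (c + 2)) =
            ev R (c + 3) a e (tz R a e (c + 2)) := ev_D R _ _ _ _ (by omega)
        have m3 : up R dlZ * ev R (c + 3) a e (tz R a e (c + 2)) =
            ev R (c + 4) a e (tz R a e (c + 2)) := ev_D R _ _ _ _ (by omega)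
        have m4 : up R ser4 ^ 3 * ev R (c + 3) a e (tz R a e (c + 2)) =
            ev R (c + 4) a e (Polynomial.X * tz R a e (c + 2)) := ev_Q R _ _ _ _ (by omega)
        have m5 : up R dlZ * ev R (c + 1) a e (tz R a e (c + 1)) =
            ev R (c + 2) a e (tz R a e (c + 1)) := ev_D R _ _ _ _ (by omega)
        have m6 : up R dlZ * ev R (c + 2) a e (tz R a e (c + 1)) =
            ev R (c + 3) a e (tz R a e (c + 1)) := ev_D R _ _ _ _ (by omega)
        have m7 : up R dlZ * ev R (c + 3) a e (tz R a e (c + 1)) =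
            ev R (c + 4) a e (tz R a e (c + 1)) := ev_D R _ _ _ _ (by omega)
        rw [show tz R a e (c + 4) = -(48 * tz R a e (c + 3)) + (Polynomial.X * tz R a e (c + 2) -
          768 * tz R a e (c + 2)) - 4096 * tz R a e (c + 1) by rw [tz]; ring]
        rw [map_sub, map_add, map_neg, map_sub, RB_num, RB_num, RB_num]
        rw [← m7, ← m6, ← m5, ← m4, ← m3, ← m2, ← m1]
        ring
  | succ i ih =>
    intro c hc
    have h1 := ih (c + 2) (by omega)
    have h2 := ih (c + 1) (by omega)
    have h3 := ih c hc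
    have d1 := tt_deg R a e ha he i (c + 2)
    have d2 := tt_deg R a e ha he i (c + 1)
    have d3 := tt_deg R a e ha he i c
    have h := rec2 (F := R) (wt (c + i) a e) (by unfold wt; omega) (up R (bsZ (c + i) a e i))
    have e1 : up R ser4 ^ 3 * up R (bsZ (c + i) a e i) = up R (bsZ (c + (i + 1)) a e (i + 1)) := by
      rw [RB_bs, RB_bs]
      ring
    have e2 : up R dlZ ^ 2 * up R (bsZ (c + i) a e i) = up R (bsZ (c + 2 + i) a e i) := by
      rw [RB_bs, RB_bs]
      ring
    have e3 : up R dlZ * up R (bsZ (c + i) a e i) = up R (bsZ (c + 1 + i) a e i) := by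
      rw [RB_bs, RB_bs]
      ring
    have w1 : wt (c + i) a e + 24 = wt (c + 2 + i) a e := by unfold wt; omega
    have w2 : wt (c + i) a e + 12 = wt (c + 1 + i) a e := by unfold wt; omega
    have w3 : wt (c + 1 + i) a e = wt (c + (i + 1)) a e := by unfold wt; omega
    rw [e1, e2, e3, w1, w2, h1, h2, h3] at h
    rw [w3] at h
    apply RB_cancel R
    rw [h]
    have f1 : c + (i + 1) = c + 1 + i := by omega
    have f2 : c + 2 + i = c + 1 + i + 1 := by omega
    have f3 : c + 1 + i = c + i + 1 := by omega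
    rw [f1, f2]
    have m1 : up R dlZ * ev R (c + 1 + i) a e (tt R a e (i + 1) c) =
        ev R (c + 1 + i + 1) a e (tt R a e (i + 1) c) :=
      ev_D R _ _ _ _ ((tt_deg R a e ha he (i + 1) c).trans (by omega))
    have m2 : up R dlZ * ev R (c + 1 + i) a e (tt R a e i (c + 1)) =
        ev R (c + 1 + i + 1) a e (tt R a e i (c + 1)) := ev_D R _ _ _ _ (by omega)
    have m3 : up R dlZ * ev R (c + i) a e (tt R a e i c) =
        ev R (c + 1 + i) a e (tt R a e i c) := by rw [f3]; exact ev_D R _ _ _ _ (by omega)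
    have m4 : up R dlZ * ev R (c + 1 + i) a e (tt R a e i c) =
        ev R (c + 1 + i + 1) a e (tt R a e i c) := ev_D R _ _ _ _ (by omega)
    have m5 : up R ser4 ^ 3 * ev R (c + 1 + i) a e (tt R a e i c) =
        ev R (c + 1 + i + 1) a e (Polynomial.X * tt R a e i c) := ev_Q R _ _ _ _ (by omega)
    rw [m1, show tt R a e (i + 1) c = -(4095 * tt R a e i (c + 2)) - 195840 * tt R a e i (c + 1) +
      (4096 * (Polynomial.X * tt R a e i c) - 2949120 * tt R a e i c) by rw [tt]; ring]
    rw [map_add, map_sub, map_neg, map_sub, RB_num, RB_num, RB_num, RB_num]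
    rw [← m5, ← m4, ← m3, ← m2]
    ring

end

end ML
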