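import Pool.Agent.Lib_MP_bfd926_ml.MLRecB

/-!
# More recurrences

`tt_A`: recurrence in `c`; `tt_B`: the step in `i` without `c`; `tt_C`: the modular equation of level 2.
-/

open Polynomial

namespace ML

variable (R : Type) [CommRing R]

theorem tt_A (a e i : ℕ) : ∀ c, tt R a e i (c + 4) = -48 * tt R a e i (c + 3) +
    (X - 768) * tt R a e i (c + 2) - 4096 * tt R a e i (c + 1) := by
  induction i with
  | zero =>
    intro c
    show tz R a e (c + 4) = -48 * tz R a e (c + 3) + (X - 768) * tz R a e (c + 2) -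
      4096 * tz R a e (c + 1)
    rw [tz]
  | succ i ih =>
    intro c
    have s1 : tt R a e (i + 1) (c + 4) = -4095 * tt R a e i (c + 6) - 195840 * tt R a e i (c + 5) +
      (4096 * X - 2949120) * tt R a e i (c + 4) := by rw [tt]
    have s2 : tt R a e (i + 1) (c + 3) = -4095 * tt R a e i (c + 5) - 195840 * tt R a e i (c + 4) +
      (4096 * X - 2949120) * tt R a e i (c + 3) := by rw [tt]
    have s3 : tt R a e (i + 1) (c + 2) = -4095 * tt R a e i (c + 4) - 195840 * tt R a e i (c + 3) +
      (4096 * X - 2949120) * tt R a e i (c + 2) := by rw [tt]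
    have s4 : tt R a e (i + 1) (c + 1) = -4095 * tt R a e i (c + 3) - 195840 * tt R a e i (c + 2) +
      (4096 * X - 2949120) * tt R a e i (c + 1) := by rw [tt]
    have h0 := ih c
    have h1 := ih (c + 1)
    have h2 := ih (c + 2)
    have n1 : c + 1 + 4 = c + 5 := rfl
    have n2 : c + 1 + 3 = c + 4 := rfl
    have n3 : c + 1 + 2 = c + 3 := rfl
    have n4 : c + 1 + 1 = c + 2 := rfl
    have n5 : c + 2 + 4 = c + 6 := rfl
    have n6 : c + 2 + 3 = c + 5 := rfl
    have n7 : c + 2 + 2 = c + 4 := rfl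
    have n8 : c + 2 + 1 = c + 3 := rfl
    rw [n1, n2, n3, n4] at h1
    rw [n5, n6, n7, n8] at h2
    rw [s1, s2, s3, s4]
    linear_combination (-4095) * h2 - 195840 * h1 + (4096 * X - 2949120) * h0

theorem tt_B (a e i c : ℕ) : tt R a e (i + 1) (c + 2) = 720 * tt R a e i (c + 3) +
    (X + 195840) * tt R a e i (c + 2) + 16773120 * tt R a e i (c + 1) := by
  have s3 : tt R a e (i + 1) (c + 2) = -4095 * tt R a e i (c + 4) - 195840 * tt R a e i (c + 3) +
    (4096 * X - 2949120) * tt R a e i (c + 2) := by rw [tt]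
  rw [s3]
  linear_combination (-4095) * tt_A R a e i c

theorem tt_C (a e i c : ℕ) : tt R a e (i + 3) (c + 1) =
    (X ^ 2 - 1488 * X + 162000) * tt R a e (i + 2) (c + 2) -
    (1488 * X ^ 2 + 40773375 * X + 8748000000) * tt R a e (i + 1) (c + 3) -
    (X - 54000) ^ 3 * tt R a e i (c + 4) := by
  have h : ∀ i c, tt R a e (i + 1) c = -4095 * tt R a e i (c + 2) - 195840 * tt R a e i (c + 1) +
    (4096 * X - 2949120) * tt R a e i c := fun i c => by rw [tt]
  have h2 : ∀ c, tt R a e (i + 2) c = -4095 * tt R a e (i + 1) (c + 2) -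
    195840 * tt R a e (i + 1) (c + 1) + (4096 * X - 2949120) * tt R a e (i + 1) c := fun c => h (i + 1) c
  have h3 : ∀ c, tt R a e (i + 3) c = -4095 * tt R a e (i + 2) (c + 2) -
    195840 * tt R a e (i + 2) (c + 1) + (4096 * X - 2949120) * tt R a e (i + 2) c := fun c => h (i + 2) c
  have a0 := tt_A R a e i c
  have a1 : tt R a e i (c + 5) = -48 * tt R a e i (c + 4) +
    (X - 768) * tt R a e i (c + 3) - 4096 * tt R a e i (c + 2) := tt_A R a e i (c + 1)
  have a2 : tt R a e i (c + 6) = -48 * tt R a e i (c + 5) +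
    (X - 768) * tt R a e i (c + 4) - 4096 * tt R a e i (c + 3) := tt_A R a e i (c + 2)
  have a3 : tt R a e i (c + 7) = -48 * tt R a e i (c + 6) +
    (X - 768) * tt R a e i (c + 5) - 4096 * tt R a e i (c + 4) := tt_A R a e i (c + 3)
  simp only [h3, h2, h, Nat.add_assoc, Nat.reduceAdd]
  linear_combination (-6262062317568000 + 26091926323200 * X - 36238786560 * X ^ 2 +
    16777216 * X ^ 3) * a0 + (-417368899584000 + 1159358054400 * X - 805109760 * X ^ 2) * a1 +
    (-9272600064000 + 24952309200 * X - 16769025 * X ^ 2) * a2 - 68669157375 * a3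

end ML
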