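import Pool.Agent.Lib_MP_bfd926_ml.MLEv

/-!
# Modular forms and cusp forms of level one and the basis `bsZ`

`wt d a e = 4 * w + 2 * e` with `w = 3 * d + a + e`, `(w - e) / 3 = d` for `a ≤ 2`.
`form_ev`, `cusp_ev`: from `mod_struct`, `cusp_struct` (`SStr`):
`WW e w * ff ^ l * (1 - 512 ff) ^ e * (1 + 256 ff) ^ (w - e - 3 * l) = dlZ ^ l * ser4 ^ (w - e - 3 * l) * ser6 ^ e`
(`ser4_eq`, `ser6_eq`, `WW`, `Bt`, `atf`), so the coordinate of `bsZ d a e i` is `y (d - i)`.
`ev_form`: `ModularForm` products and powers of `ModularForm.E₄`, `ModularForm.E₆`, `ModularForm.discriminant`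
with the `q`-expansions `E4_q`, `E6_q`, `delta_q` (`SMc`); see `SStr_G` and `mod_struct` in `SStr` for the way to
form products; or `mk_form` (`SMb`) with `g4`, `g6` (`SMa`: `g4_S`, `g6_S`, `g4_T`, `g6_T`, `g4_diff`, `Rep_g4`);
`ev_cusp`: constant term zero, `ModularForm.toCuspForm` as in `SGb`.
`int_ev`: `bsZ_coeff`: solve for the coefficients of `p` from the top, they are integers.
-/

open PowerSeries MT2 UpperHalfPlane
open scoped MatrixGroups

namespace ML

private theorem MLStr_up_mul (a b : PowerSeries ℤ) : up ℂ (a * b) = up ℂ a * up ℂ b := map_mul _ a b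
private theorem MLStr_up_pow (a : PowerSeries ℤ) (n : ℕ) : up ℂ (a ^ n) = up ℂ a ^ n := map_pow _ a n
private theorem MLStr_up_add (a b : PowerSeries ℤ) : up ℂ (a + b) = up ℂ a + up ℂ b := map_add _ a b
private theorem MLStr_up_sub (a b : PowerSeries ℤ) : up ℂ (a - b) = up ℂ a - up ℂ b := map_sub _ a b
private theorem MLStr_up_one : up ℂ (1 : PowerSeries ℤ) = 1 := map_one (PowerSeries.map (Int.castRingHom ℂ))
private theorem MLStr_up_two : up ℂ (2 : PowerSeries ℤ) = 2 :=
  map_ofNat (PowerSeries.map (Int.castRingHom ℂ)) 2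
private theorem MLStr_up_256 : up ℂ (256 : PowerSeries ℤ) = 256 :=
  map_ofNat (PowerSeries.map (Int.castRingHom ℂ)) 256
private theorem MLStr_up_512 : up ℂ (512 : PowerSeries ℤ) = 512 :=
  map_ofNat (PowerSeries.map (Int.castRingHom ℂ)) 512

private theorem MLStr_atf_Bt (e w l : ℕ) :
    atf (Bt ℂ e w l) = up ℂ ff ^ l * (1 - 512 * up ℂ ff) ^ e * (1 + 256 * up ℂ ff) ^ (w - e - 3 * l) := by
  unfold atf Bt
  simp only [map_mul, map_pow, map_sub, map_add, map_one, Polynomial.aeval_X, map_ofNat]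

private theorem MLStr_key (d a e l : ℕ) (hl : l ≤ d) :
    up ℂ (WW e (3 * d + a + e)) * atf (Bt ℂ e (3 * d + a + e) l) = up ℂ (bsZ d a e (d - l)) := by
  obtain ⟨v, rfl⟩ := Nat.exists_eq_add_of_le hl
  rw [MLStr_atf_Bt, bsZ, dlZ, ser4_eq, ser6_eq, WW]
  simp only [MLStr_up_mul, MLStr_up_pow, MLStr_up_add, MLStr_up_sub, MLStr_up_one, MLStr_up_two,
    MLStr_up_256, MLStr_up_512]
  have h1 : l + v - l = v := by omega
  have h2 : l + v - v = l := by omega
  have h3 : 3 * (l + v) + a + e - e - 3 * l = a + 3 * v := by omega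
  rw [h1, h2, h3]
  simp only [mul_pow]
  ring

private theorem MLStr_atf_sum (n : ℕ) (y : ℕ → ℂ) (B : ℕ → Polynomial ℂ) :
    atf (∑ l ∈ Finset.range n, Polynomial.C (y l) * B l) = ∑ l ∈ Finset.range n, y l • atf (B l) := by
  unfold atf
  rw [map_sum]
  refine Finset.sum_congr rfl fun l _ => ?_
  rw [map_mul, Polynomial.aeval_C, Algebra.smul_def]

private theorem MLStr_pc (d : ℕ) (y : ℕ → ℂ) (i : ℕ) :
    (∑ i ∈ Finset.range (d + 1), Polynomial.monomial i (y (d - i))).coeff i =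
      if i ≤ d then y (d - i) else 0 := by
  rw [Polynomial.finsetSum_coeff]
  simp only [Polynomial.coeff_monomial]
  rw [Finset.sum_ite_eq']
  simp only [Finset.mem_range, Nat.lt_succ_iff]

private theorem MLStr_deg (d : ℕ) (y : ℕ → ℂ) :
    (∑ i ∈ Finset.range (d + 1), Polynomial.monomial i (y (d - i))).natDegree ≤ d := by
  rw [Polynomial.natDegree_le_iff_coeff_eq_zero]
  intro N hN
  rw [MLStr_pc, if_neg (by omega)]

theorem form_ev (d a e : ℕ) (ha : a ≤ 2) (he : e ≤ 1)
    (f : ModularForm 𝒮ℒ ((wt d a e : ℕ) : ℤ)) :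
    ∃ p : Polynomial ℂ, p.natDegree ≤ d ∧ qExpansion 1 f = ev ℂ d a e p := by
  have hw : ((wt d a e : ℕ) : ℤ) = ((4 * (3 * d + a + e) + 2 * e : ℕ) : ℤ) := by
    unfold wt; push_cast; ring
  obtain ⟨y, hy⟩ := mod_struct e (3 * d + a + e) he (ModularForm.mcast hw f)
  have hy' : qExpansion 1 f = up ℂ (WW e (3 * d + a + e)) *
      atf (∑ l ∈ Finset.range ((3 * d + a + e - e) / 3 + 1),
        Polynomial.C (y l) * Bt ℂ e (3 * d + a + e) l) := hy
  have h3 : (3 * d + a + e - e) / 3 = d := by omega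
  rw [h3, MLStr_atf_sum, Finset.mul_sum] at hy'
  refine ⟨∑ i ∈ Finset.range (d + 1), Polynomial.monomial i (y (d - i)), MLStr_deg d y, ?_⟩
  rw [hy', ev_apply, ← Finset.sum_range_reflect]
  refine Finset.sum_congr rfl fun l hl => ?_
  rw [Finset.mem_range] at hl
  have h4 : d + 1 - 1 - l = d - l := by omega
  have h5 : d - (d - l) = l := by omega
  rw [h4, MLStr_pc, if_pos (by omega), mul_smul_comm, MLStr_key d a e _ (Nat.sub_le d l), h5]

theorem cusp_ev (d a e : ℕ) (ha : a ≤ 2) (he : e ≤ 1)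
    (f : CuspForm 𝒮ℒ ((wt d a e : ℕ) : ℤ)) :
    ∃ p : Polynomial ℂ, p.degree < d ∧ qExpansion 1 f = ev ℂ d a e p := by
  obtain ⟨p, hp, hq⟩ := form_ev d a e ha he (CuspForm.toModularFormₗ f)
  have hq1 : qExpansion 1 f = ev ℂ d a e p := hq
  have h0 : (qExpansion 1 f).coeff 0 = 0 :=
    CuspFormClass.qExpansion_coeff_zero f one_pos one_mem_strictPeriods_SL
  rw [hq1, coeff_zero_eq_constantCoeff_apply, ev_cc] at h0
  refine ⟨p, ?_, hq1⟩
  rw [Polynomial.degree_lt_iff_coeff_zero]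
  intro m hm
  rcases Nat.lt_or_eq_of_le hm with h | h
  · exact Polynomial.coeff_eq_zero_of_natDegree_lt (by omega)
  · rw [← h]; exact h0

private theorem MLStr_bs (d a e i : ℕ) (hi : i ≤ d) :
    ∃ g : ModularForm 𝒮ℒ ((wt d a e : ℕ) : ℤ), qExpansion 1 g = up ℂ (bsZ d a e i) := by
  let D : ModularForm 𝒮ℒ 12 := CuspForm.toModularFormₗ CuspForm.discriminant
  have hD : qExpansion 1 D = up ℂ dlZ := by
    have : qExpansion 1 D = qExpansion 1 ModularForm.discriminant := rfl
    rw [this, delta_q, dlZ]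
  let G : ModularForm 𝒮ℒ ((wt d a e : ℕ) : ℤ) :=
    ModularForm.mcast (by unfold wt; push_cast [Nat.cast_sub hi]; ring)
      (((D.pow (d - i)).mul (ModularForm.E₄.pow (a + 3 * i))).mul (ModularForm.E₆.pow e))
  refine ⟨G, ?_⟩
  have h1 : qExpansion 1 G = qExpansion 1
    (((D.pow (d - i)).mul (ModularForm.E₄.pow (a + 3 * i))).mul (ModularForm.E₆.pow e)) := rfl
  rw [h1, ModularForm.qExpansion_mul one_pos one_mem_strictPeriods_SL,
    ModularForm.qExpansion_mul one_pos one_mem_strictPeriods_SL,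
    ModularForm.qExpansion_pow one_pos one_mem_strictPeriods_SL,
    ModularForm.qExpansion_pow one_pos one_mem_strictPeriods_SL,
    ModularForm.qExpansion_pow one_pos one_mem_strictPeriods_SL, E4_q, E6_q, hD, bsZ,
    MLStr_up_mul, MLStr_up_mul, MLStr_up_pow, MLStr_up_pow, MLStr_up_pow]

private theorem MLStr_sum (k : ℤ) (s : Finset ℕ) (c : ℕ → ℂ) (φ : ℕ → PowerSeries ℂ)
    (h : ∀ i ∈ s, ∃ g : ModularForm 𝒮ℒ k, qExpansion 1 g = φ i) :
    ∃ f : ModularForm 𝒮ℒ k, qExpansion 1 f = ∑ i ∈ s, c i • φ i := by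
  classical
  induction s using Finset.induction_on with
  | empty =>
    refine ⟨0, ?_⟩
    rw [Finset.sum_empty]
    exact (ModularForm.qExpansion_eq_zero_iff one_pos one_mem_strictPeriods_SL _).mpr rfl
  | insert j s hj ih =>
    obtain ⟨f, hf⟩ := ih fun i hi => h i (Finset.mem_insert_of_mem hi)
    obtain ⟨g, hg⟩ := h j (Finset.mem_insert_self j s)
    refine ⟨c j • g + f, ?_⟩
    rw [Finset.sum_insert hj, FunLike.coe_add,
      ModularForm.qExpansion_add one_pos one_mem_strictPeriods_SL (c j • g) f, FunLike.coe_smul,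
      ModularForm.qExpansion_smul one_pos one_mem_strictPeriods_SL, hg, hf]

theorem ev_form (d a e : ℕ) (p : Polynomial ℂ) (hp : p.natDegree ≤ d) :
    ∃ f : ModularForm 𝒮ℒ ((wt d a e : ℕ) : ℤ), qExpansion 1 f = ev ℂ d a e p := by
  rw [ev_apply]
  refine MLStr_sum _ _ _ _ fun i hi => MLStr_bs d a e i ?_
  rw [Finset.mem_range] at hi
  omega

theorem ev_cusp (d a e : ℕ) (p : Polynomial ℂ) (hp : p.degree < d) :
    ∃ f : CuspForm 𝒮ℒ ((wt d a e : ℕ) : ℤ), qExpansion 1 f = ev ℂ d a e p := by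
  have hc : p.coeff d = 0 := Polynomial.coeff_eq_zero_of_degree_lt hp
  obtain ⟨f, hf⟩ := ev_form d a e p (Polynomial.natDegree_le_of_degree_le hp.le)
  have h0 : (qExpansion 1 f).coeff 0 = 0 := by
    rw [hf, coeff_zero_eq_constantCoeff_apply, ev_cc, hc]
  exact ⟨ModularForm.toCuspForm f h0, hf⟩

theorem int_ev (d a e : ℕ) (p : Polynomial ℂ) (hp : p.natDegree ≤ d) (φ : PowerSeries ℤ)
    (h : ev ℂ d a e p = up ℂ φ) :
    ∃ q : Polynomial ℤ, q.map (Int.castRingHom ℂ) = p ∧ ev ℤ d a e q = φ := by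
  have key : ∀ m ≤ d, ∃ n : ℤ, (n : ℂ) = p.coeff (d - m) := by
    intro m
    induction m using Nat.strong_induction_on with
    | _ m ih =>
      intro hm
      have h1 := congrArg (PowerSeries.coeff m) h
      rw [ev_apply, map_sum] at h1
      have h2 : PowerSeries.coeff m (up ℂ φ) = ((PowerSeries.coeff m φ : ℤ) : ℂ) := by
        unfold up; rw [PowerSeries.coeff_map]; rfl
      rw [h2] at h1
      have h3 : ∀ i, PowerSeries.coeff m (p.coeff i • up ℂ (bsZ d a e i)) =
          p.coeff i * ((PowerSeries.coeff m (bsZ d a e i) : ℤ) : ℂ) := by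
        intro i
        rw [PowerSeries.coeff_smul, smul_eq_mul]
        unfold up
        rw [PowerSeries.coeff_map]; rfl
      simp only [h3] at h1
      rw [← Finset.add_sum_erase _ _ (Finset.mem_range.mpr (show d - m < d + 1 by omega)),
        bsZ_coeff d a e (d - m) m (by omega) (by omega), if_pos (by omega)] at h1
      have h4 : ∃ n : ℤ, (n : ℂ) = ∑ i ∈ (Finset.range (d + 1)).erase (d - m),
          p.coeff i * ((PowerSeries.coeff m (bsZ d a e i) : ℤ) : ℂ) := by
        refine Finset.sum_induction _ (fun x => ∃ n : ℤ, (n : ℂ) = x) ?_ ⟨0, by simp⟩ ?_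
        · rintro _ _ ⟨n, rfl⟩ ⟨n', rfl⟩
          exact ⟨n + n', by push_cast; ring⟩
        · intro i hi
          rw [Finset.mem_erase, Finset.mem_range] at hi
          rcases lt_or_ge i (d - m) with hlt | hge
          · refine ⟨0, ?_⟩
            rw [bsZ_coeff d a e i m (by omega) (by omega), if_neg (by omega)]
            simp
          · obtain ⟨n, hn⟩ := ih (d - i) (by omega) (by omega)
            have h5 : d - (d - i) = i := by omega
            rw [h5] at hn
            exact ⟨n * PowerSeries.coeff m (bsZ d a e i), by push_cast; rw [hn]⟩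
      obtain ⟨n, hn⟩ := h4
      rw [← hn] at h1
      refine ⟨PowerSeries.coeff m φ - n, ?_⟩
      push_cast
      rw [← h1]
      push_cast
      ring
  have hl : p ∈ Polynomial.lifts (Int.castRingHom ℂ) := by
    rw [Polynomial.lifts_iff_coeff_lifts]
    intro i
    rcases le_or_gt i d with hi | hi
    · obtain ⟨n, hn⟩ := key (d - i) (by omega)
      have h5 : d - (d - i) = i := by omega
      rw [h5] at hn
      exact ⟨n, hn⟩
    · rw [Polynomial.coeff_eq_zero_of_natDegree_lt (by omega)]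
      exact ⟨0, by simp⟩
  rw [Polynomial.mem_lifts] at hl
  obtain ⟨q, hq⟩ := hl
  refine ⟨q, hq, ?_⟩
  have h1 := ev_map (Int.castRingHom ℂ) d a e q
  rw [hq, h] at h1
  have h2 : up ℂ φ = PowerSeries.map (Int.castRingHom ℂ) φ := rfl
  rw [h2] at h1
  exact PowerSeries.map_injective _ (Int.cast_injective) h1

end ML
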